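import Pool.Agent.H54.AW.Ring

set_option autoImplicit false
set_option linter.unusedSectionVars false

namespace Pool.Agent.H54.AW

section Ring

variable {R : Type*} [Ring R]

/-- The block lemma: `T q` is an isomorphism `q → r`, and after subtracting suitable free entries
the last column is left invertible with large cokernel. -/
theorem CleanIn.block {q r n T z y0 L α mz : R}
    (hq : q * q = q) (hr : r * r = r) (hn : n * n = n)
    (hqr : q * r = 0) (hrq : r * q = 0) (hqn : q * n = 0) (hnq : n * q = 0)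
    (hrn : r * n = 0) (hnr : n * r = 0)
    (hT1 : (q + (r + n)) * T = T) (hT2 : T * (q + (r + n)) = T)
    (hTq : Iso q r (T * q))
    (hz : z * z = z) (hnz : n * z = z) (hzn : z * n = z)
    (hy1 : q * y0 = y0) (hy2 : y0 * z = y0)
    (hL1 : n * L = L) (hL2 : L * (q + n) = L) (hL3 : L * ((q + n) * T * n - y0 - z) = n)
    (hmz1 : z * mz = mz) (hmz2 : (z * T * z - z) * mz = z)
    (hα : Iso r (q + n - ((q + n) * T * n - y0 - z) * L) α) :
    CleanIn (q + (r + n)) T := by
  set C := (q + n) * T * n - y0 - z with hC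
  set Θ := q + n - C * L with hΘ
  have hqz : q * z = 0 := by rw [← hnz, ← mul_assoc, hqn, zero_mul]
  have hzq : z * q = 0 := by rw [← hzn, mul_assoc, hnq, mul_zero]
  have hrz : r * z = 0 := by rw [← hnz, ← mul_assoc, hrn, zero_mul]
  have hzr : z * r = 0 := by rw [← hzn, mul_assoc, hnr, mul_zero]
  have hy0n : y0 * n = y0 := by rw [← hy2, mul_assoc, hzn]
  have hy0q : y0 * q = 0 := by rw [← hy2, mul_assoc, hzq, mul_zero]
  have hy0r : y0 * r = 0 := by rw [← hy2, mul_assoc, hzr, mul_zero]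
  have hny0 : n * y0 = 0 := by rw [← hy1, ← mul_assoc, hnq, zero_mul]
  have hry0 : r * y0 = 0 := by rw [← hy1, ← mul_assoc, hrq, zero_mul]
  have hzy0 : z * y0 = 0 := by rw [← hy1, ← mul_assoc, hzq, zero_mul]
  have hqnqn : (q + n) * (q + n) = q + n := by
    rw [add_mul, mul_add, mul_add, hq, hn, hqn, hnq]; abel
  have hqnr : (q + n) * r = 0 := by rw [add_mul, hqr, hnr, add_zero]
  have hrqn : r * (q + n) = 0 := by rw [mul_add, hrq, hrn, add_zero]
  have hC1 : (q + n) * C = C := by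
    rw [hC, mul_sub, mul_sub]
    simp only [← mul_assoc]
    rw [hqnqn, add_mul q n y0, add_mul q n z, hy1, hny0, hqz, hnz]; abel
  have hC2 : C * n = C := by
    rw [hC, sub_mul, sub_mul, mul_assoc, hn, hy0n, hzn]
  have hCr : C * r = 0 := by rw [← hC2, mul_assoc, hnr, mul_zero]
  have hCq : C * q = 0 := by rw [← hC2, mul_assoc, hnq, mul_zero]
  have hLr : L * r = 0 := by rw [← hL2, mul_assoc, hqnr, mul_zero]
  have hrC : r * C = 0 := by rw [← hC1, ← mul_assoc, hrqn, zero_mul]
  -- the idempotents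
  have hPi : C * L * (C * L) = C * L := by
    calc C * L * (C * L) = C * (L * C) * L := by simp only [mul_assoc]
      _ = C * L := by rw [hL3, hC2]
  have hThPi : Θ * (C * L) = 0 := by
    rw [hΘ, sub_mul, hPi, ← mul_assoc, hC1, sub_self]
  have hPiqn : C * L * (q + n) = C * L := by rw [mul_assoc, hL2]
  have hPiTh : C * L * Θ = 0 := by
    rw [hΘ, mul_sub, hPi, hPiqn, sub_self]
  have hCiso : Iso n (C * L) C := by
    refine ⟨by rw [mul_assoc, hL3, hC2], hC2, L, hL1, ?_, hL3, rfl⟩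
    rw [← mul_assoc, hL3, hL1]
  have hiso1 : Iso (r + n) (q + n) (α + C) := by
    have := Iso.add hα hCiso hrn hnr hThPi hPiTh
    rwa [hΘ, sub_add_cancel] at this
  obtain ⟨hα1, hα2, -⟩ := hα
  have hαn : α * n = 0 := by rw [← hα2, mul_assoc, hrn, mul_zero]
  have hqnΘ : (q + n) * Θ = Θ := by
    rw [hΘ, mul_sub, hqnqn, ← mul_assoc, hC1]
  have hqnα : (q + n) * α = α := by rw [← hα1, ← mul_assoc, hqnΘ]
  set μ := mz * (z * T * r - z * α) with hμ
  have hzμ : z * μ = μ := by rw [hμ, ← mul_assoc, hmz1]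
  have hnμ : n * μ = μ := by rw [← hzμ, ← mul_assoc, hnz]
  have hrμ : r * μ = 0 := by rw [← hnμ, ← mul_assoc, hrn, zero_mul]
  have hμr : μ * r = μ := by
    rw [hμ, mul_assoc, sub_mul, mul_assoc (z * T), hr, mul_assoc z α r, hα2]
  have hμn : μ * n = 0 := by rw [← hμr, mul_assoc, hrn, mul_zero]
  have hμμ : μ * μ = 0 := by
    calc μ * μ = μ * (n * μ) := by rw [hnμ]
      _ = 0 := by rw [← mul_assoc, hμn, zero_mul]
  have hrnrn : (r + n) * (r + n) = r + n := by
    rw [add_mul, mul_add, mul_add, hr, hn, hrn, hnr]; abel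
  have hiso2 : Iso (r + n) (r + n) (r + n + μ) := by
    apply Iso.unipotent hrnrn
    · rw [add_mul, hrμ, hnμ, zero_add]
    · rw [mul_add, hμr, hμn, add_zero]
    · exact hμμ
  have hB : (α + C) * (r + n + μ) = α + C + C * μ := by
    have e1 : α * μ = 0 := by rw [← hnμ, ← mul_assoc, hαn, zero_mul]
    rw [add_mul, mul_add, mul_add, mul_add, mul_add, hα2, hαn, e1, hCr, hC2]; abel
  have hisoB : Iso (r + n) (q + n) (α + C + C * μ) := by
    have := hiso2.comp hiso1
    rwa [hB] at this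
  set BR := α + C * μ with hBR
  have hBR1 : (q + n) * BR = BR := by rw [hBR, mul_add, hqnα, ← mul_assoc, hC1]
  have hBRr : BR * r = BR := by rw [hBR, add_mul, hα2, mul_assoc, hμr]
  have hzCz : z * C * z = z * T * z - z := by
    rw [hC, mul_sub, mul_sub, sub_mul, sub_mul, hzy0, hz, zero_mul, hz, ← mul_assoc, ← mul_assoc]
    have : z * (q + n) = z := by rw [mul_add, hzq, hzn, zero_add]
    rw [this, mul_assoc (z * T), hnz]; abel
  have hzBR : z * BR = z * T * r := by
    have e1 : z * (C * μ) = z * T * r - z * α := by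
      calc z * (C * μ) = (z * C * z) * μ := by
            rw [mul_assoc (z * C), hzμ, mul_assoc]
        _ = (z * T * z - z) * mz * (z * T * r - z * α) := by
            rw [hzCz, hμ, ← mul_assoc]
        _ = z * T * r - z * α := by
            rw [hmz2, mul_sub]
            simp only [← mul_assoc, hz]
    rw [hBR, mul_add, e1]; abel
  set x0 := q * T * r - q * BR with hx0
  set w0 := n * T * r - n * BR with hw0
  have hqx0 : q * x0 = x0 := by
    rw [hx0, mul_sub]; simp only [← mul_assoc, hq]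
  have hx0r : x0 * r = x0 := by
    rw [hx0, sub_mul, mul_assoc, hr, mul_assoc q BR r, hBRr]
  have hnw0 : n * w0 = w0 := by
    rw [hw0, mul_sub]; simp only [← mul_assoc, hn]
  have hw0r : w0 * r = w0 := by
    rw [hw0, sub_mul, mul_assoc, hr, mul_assoc n BR r, hBRr]
  have hzw0 : z * w0 = 0 := by
    rw [hw0, mul_sub]
    simp only [← mul_assoc, hzn]
    rw [hzBR, sub_self]
  have hx0q : x0 * q = 0 := by rw [← hx0r, mul_assoc, hrq, mul_zero]
  have hx0n : x0 * n = 0 := by rw [← hx0r, mul_assoc, hrn, mul_zero]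
  have hx0z : x0 * z = 0 := by rw [← hx0r, mul_assoc, hrz, mul_zero]
  have hw0q : w0 * q = 0 := by rw [← hw0r, mul_assoc, hrq, mul_zero]
  have hw0n : w0 * n = 0 := by rw [← hw0r, mul_assoc, hrn, mul_zero]
  have hw0z : w0 * z = 0 := by rw [← hw0r, mul_assoc, hrz, mul_zero]
  have hrx0 : r * x0 = 0 := by rw [← hqx0, ← mul_assoc, hrq, zero_mul]
  have hnx0 : n * x0 = 0 := by rw [← hqx0, ← mul_assoc, hnq, zero_mul]
  have hzx0 : z * x0 = 0 := by rw [← hqx0, ← mul_assoc, hzq, zero_mul]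
  have hrw0 : r * w0 = 0 := by rw [← hnw0, ← mul_assoc, hrn, zero_mul]
  have hqw0 : q * w0 = 0 := by rw [← hnw0, ← mul_assoc, hqn, zero_mul]
  have hy0w0 : y0 * w0 = 0 := by rw [← hy2, mul_assoc, hzw0, mul_zero]
  have hx0x0 : x0 * x0 = 0 := by
    calc x0 * x0 = x0 * (q * x0) := by rw [hqx0]
      _ = 0 := by rw [← mul_assoc, hx0q, zero_mul]
  have hx0y0 : x0 * y0 = 0 := by rw [← hy1, ← mul_assoc, hx0q, zero_mul]
  have hx0w0 : x0 * w0 = 0 := by rw [← hnw0, ← mul_assoc, hx0n, zero_mul]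
  have hy0x0 : y0 * x0 = 0 := by rw [← hqx0, ← mul_assoc, hy0q, zero_mul]
  have hy0y0 : y0 * y0 = 0 := by
    calc y0 * y0 = y0 * (q * y0) := by rw [hy1]
      _ = 0 := by rw [← mul_assoc, hy0q, zero_mul]
  have hw0x0 : w0 * x0 = 0 := by rw [← hqx0, ← mul_assoc, hw0q, zero_mul]
  have hw0y0 : w0 * y0 = 0 := by rw [← hy1, ← mul_assoc, hw0q, zero_mul]
  have hw0w0 : w0 * w0 = 0 := by
    calc w0 * w0 = w0 * (n * w0) := by rw [hnw0]
      _ = 0 := by rw [← mul_assoc, hw0n, zero_mul]
  refine ⟨x0 + y0 + r + w0 + z, ?_, ?_, ?_, ?_⟩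
  · simp only [add_mul, mul_add, hx0x0, hx0y0, hx0r, hx0w0, hx0z, hy0x0, hy0y0, hy0r, hy0w0, hy2,
      hrx0, hry0, hr, hrw0, hrz, hw0x0, hw0y0, hw0r, hw0w0, hw0z, hzx0, hzy0, hzr, hzw0, hz]
    abel
  · simp only [add_mul, mul_add, hqx0, hy1, hqr, hqw0, hqz, hrx0, hry0, hr, hrw0, hrz,
      hnx0, hny0, hnr, hnw0, hnz]
    abel
  · simp only [add_mul, mul_add, hx0q, hx0r, hx0n, hy0q, hy0r, hy0n, hrq, hr, hrn, hw0q, hw0r,
      hw0n, hzq, hzr, hzn]
    abel
  · have ht := Iso.triangular (z := r * (T - (x0 + y0 + r + w0 + z)) * (r + n)) hTq hisoB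
      (by rw [mul_add, hqr, hqn, add_zero]) (by rw [add_mul, hrq, hnq, add_zero])
      hrqn hqnr
      (by simp only [← mul_assoc, hr]) (by rw [mul_assoc, hrnrn])
    have e0 : r + (q + n) = q + (r + n) := by abel
    rw [e0] at ht
    have e1 : T * q + (α + C + C * μ) + r * (T - (x0 + y0 + r + w0 + z)) * (r + n) =
        T - (x0 + y0 + r + w0 + z) := by
      have hrTq : r * (T * q) = T * q := hTq.1
      have hqTq : q * T * q = 0 := by
        rw [mul_assoc, ← hrTq, ← mul_assoc, hqr, zero_mul]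
      have hnTq : n * T * q = 0 := by
        rw [mul_assoc, ← hrTq, ← mul_assoc, hnr, zero_mul]
      have hTdec : T = T * q + (q * T * r + n * T * r) + (q + n) * T * n +
          r * T * (r + n) := by
        have h1 : T = (q + (r + n)) * T * (q + (r + n)) := by rw [hT1, hT2]
        have h2 : r * T * q = T * q := by rw [mul_assoc, hrTq]
        conv_lhs => rw [h1]
        simp only [add_mul, mul_add, hqTq, hnTq, h2]
        abel
      have hBRC : α + C + C * μ = (q * BR + n * BR) + C := by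
        rw [← add_mul, hBR1, hBR]; abel
      have hrE : r * (x0 + y0 + r + w0 + z) * (r + n) = r := by
        simp only [mul_add, add_mul, hrx0, hry0, hr, hrw0, hrz, hrn, zero_mul, add_zero, zero_add]
      rw [hBRC, mul_sub, sub_mul, hrE]
      conv_rhs => rw [hTdec]
      rw [hx0, hw0, hC]
      abel
    rwa [e1] at ht

end Ring

end Pool.Agent.H54.AW
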