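import Pool.Agent.H54.AW.Dich
import Pool.Agent.H54.AW.Block

set_option autoImplicit false
set_option linter.unusedSectionVars false

namespace Pool.Agent.H54.AW

universe u

variable {A : Type u} [CStarAlgebra A]

/-- Kaplansky's range projection of an idempotent. -/
theorem range_proj {t : A} (ht : t * t = t) : ∃ p, P p ∧ p * t = t ∧ t * p = p := by
  let _ := CStarAlgebra.spectralOrder A
  have _ := CStarAlgebra.spectralOrderedRing A
  set s := star t with hs
  have hss : s * s = s := by rw [hs, ← star_mul, ht]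
  set h := 1 + (t - s) * star (t - s) with hh
  have hstar : star (t - s) = s - t := by rw [star_sub, hs, star_star]
  have hh' : h = t * s + s * t - t - s + 1 := by
    rw [hh, hstar, sub_mul, mul_sub, mul_sub, ht, hss]; abel
  have hunit : IsUnit h := by
    apply CStarAlgebra.isUnit_of_le 1 _ isStrictlyPositive_one
    rw [hh]
    exact le_add_of_nonneg_right (mul_star_self_nonneg _)
  have hth : t * h = t * s * t := by
    rw [hh']
    simp only [mul_add, mul_sub, ← mul_assoc, ht, mul_one]
    abel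
  have hht : h * t = t * s * t := by
    rw [hh']
    simp only [add_mul, sub_mul, mul_assoc, ht, one_mul]
    abel
  have hhs : star h = h := by
    rw [hh', star_add, star_sub, star_sub, star_add, star_mul, star_mul, hs, star_star, star_one]
    abel
  have hsh : s * h = h * s := by
    have h1 : t * h = h * t := by rw [hth, hht]
    have := congrArg star h1
    rw [star_mul, star_mul, hhs] at this
    exact this.symm
  obtain ⟨u, hu⟩ := hunit
  have hus : star (↑u⁻¹ : A) = ↑u⁻¹ := by
    have h1 : star (u : A) * star (↑u⁻¹ : A) = 1 := by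
      rw [← star_mul, Units.inv_mul, star_one]
    rw [hu, hhs, ← hu] at h1
    calc star (↑u⁻¹ : A) = (↑u⁻¹ * ↑u) * star (↑u⁻¹ : A) := by rw [Units.inv_mul, one_mul]
      _ = ↑u⁻¹ := by rw [mul_assoc, h1, mul_one]
  have hcomm : ∀ z : A, z * h = h * z → z * ↑u⁻¹ = ↑u⁻¹ * z := by
    intro z hz
    rw [← hu] at hz
    calc z * ↑u⁻¹ = ↑u⁻¹ * (u * z) * ↑u⁻¹ := by rw [Units.inv_mul_cancel_left]
      _ = ↑u⁻¹ * z := by rw [← hz, mul_assoc, mul_assoc z, Units.mul_inv, mul_one]
  have htu : t * ↑u⁻¹ = ↑u⁻¹ * t := hcomm t (by rw [hth, hht])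
  have hsu : s * ↑u⁻¹ = ↑u⁻¹ * s := hcomm s hsh
  have hstars : star s = t := by rw [hs, star_star]
  refine ⟨t * s * ↑u⁻¹, P.mk' ?_ ?_, ?_, ?_⟩
  · calc t * s * ↑u⁻¹ * (t * s * ↑u⁻¹) = (t * s * t) * ↑u⁻¹ * (s * ↑u⁻¹) := by
          rw [mul_assoc (t * s * t), ← mul_assoc _ s, ← hsu]
          simp only [mul_assoc]
          rw [← mul_assoc (↑u⁻¹ : A) t, ← htu]
          simp only [mul_assoc]
          rw [← mul_assoc (↑u⁻¹ : A) s, ← hsu]
          simp only [mul_assoc]
      _ = t * s * ↑u⁻¹ := by
          rw [← hth, mul_assoc t h, ← hu, Units.mul_inv, mul_one, mul_assoc]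
  · rw [star_mul, star_mul, hstars, ← hs, hus, ← mul_assoc, ← htu, mul_assoc, ← hsu, mul_assoc]
  · rw [mul_assoc, ← htu, ← mul_assoc, ← hth, mul_assoc, ← hu, Units.mul_inv, mul_one]
  · rw [← mul_assoc, ← mul_assoc, ht]

/-- isomorphism from a partial isometry -/
theorem iso_of_pisom {p v : A} (hp : P p) (hv : star v * v = p) : Iso p (v * star v) v := by
  have hvp := mul_of_star_mul hp hv
  refine ⟨by rw [mul_assoc, hv, hvp], hvp, star v, ?_, ?_, hv, rfl⟩
  · have := congrArg star hvp
    rwa [star_mul, hp.s] at this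
  · rw [← mul_assoc, hv]
    have := congrArg star hvp
    rwa [star_mul, hp.s] at this

/-- The main construction: if `T Q` is an isomorphism from `Q` onto `R`, with `Q` and `R` both
equivalent to `e`, then `T` is clean. -/
theorem clean_of_iso (hA : IsAWStar A) {e Q R N T : A} (he : P e) (hPI : PI e)
    (hQ : P Q) (hR : P R) (hN : P N) (hQR : Q * R = 0) (hQN : Q * N = 0) (hRN : R * N = 0)
    (hsum : Q + (R + N) = e) (hEQ : Equ e Q) (hER : Equ e R)
    (hT1 : e * T = T) (hT2 : T * e = T) (hiso : Iso Q R (T * Q)) : CleanIn e T := by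
  have hRQ := hQ.orth hR hQR
  have hNQ := hQ.orth hN hQN
  have hNR := hR.orth hN hRN
  have heQ : e * Q = Q := by rw [← hsum, add_mul, add_mul, hQ.i, hRQ, hNQ]; abel
  have heN : e * N = N := by rw [← hsum, add_mul, add_mul, hN.i, hQN, hRN]; abel
  have heR : e * R = R := by rw [← hsum, add_mul, add_mul, hR.i, hQR, hNR]; abel
  set D := N * T * N with hD
  have hND : N * D = D := by rw [hD]; simp only [← mul_assoc, hN.i]
  have hDN : D * N = D := by rw [hD, mul_assoc, hN.i]
  have hNDs : N * star D = star D := by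
    have := congrArg star hDN
    rwa [star_mul, hN.s] at this
  have hDsN : star D * N = star D := by
    have := congrArg star hND
    rwa [star_mul, hN.s] at this
  obtain ⟨k, m, hk, hNk, hkm, hmk, hcomm, hm, -, hn⟩ := cut hA D hN (ε := 1 / 2) (by norm_num)
  have hkN : k * N = k := hk.swap hN hNk
  have hDD : N * (star D * D) * N = star D * D := by
    rw [← mul_assoc, hNDs, mul_assoc, hDN]
  have hkD : k * (star D * D) = star D * D * k := by
    have := hcomm _ rfl
    rwa [hDD] at this
  have hz : P (N - k) := hk.sub hN hNk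
  set z := N - k with hzd
  clear_value z
  have hNz : N * z = z := by rw [hzd, mul_sub, hN.i, hNk]
  have hzN : z * N = z := hz.swap hN hNz
  have hkz : k * z = 0 := by rw [hzd, mul_sub, hkN, hk.i, sub_self]
  have hzk : z * k = 0 := hk.orth hz hkz
  have hzm : z * m = 0 := by rw [← hkm, ← mul_assoc, hzk, zero_mul]
  have hmz0 : m * z = 0 := by rw [← hmk, mul_assoc, hkz, mul_zero]
  have hNm : N * m = m := by rw [← hkm, ← mul_assoc, hNk]
  have hmDD : m * (star D * D) = k := by
    calc m * (star D * D) = m * (k * (star D * D)) := by rw [← mul_assoc m k, hmk]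
      _ = m * (k * (k * (star D * D))) := by rw [← mul_assoc k k, hk.i]
      _ = m * (k * (star D * D * k)) := by rw [hkD]
      _ = m * (k * (star D * D) * k) := by simp only [mul_assoc]
      _ = k := hm
  -- halves of `Q`
  obtain ⟨a1, b1, ha1, hb1, hab, hQa, hQb⟩ := hPI.equ he hEQ
  have hQ1 : P (a1 * star a1) := hQ.of_star ha1
  have hez : e * z = z := by rw [← hNz, ← mul_assoc, heN]
  have hsubz : Sub z (a1 * star a1) := by
    have h1 : Sub z e := Sub.of_le hz hez
    have h2 : Sub Q (a1 * star a1) := Equ.sub hQ ⟨a1, ha1, rfl⟩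
    exact (h1.trans (hEQ.sub he)).trans h2
  obtain ⟨j, hj, hQ1j⟩ := hsubz
  have hjz : j * z = j := mul_of_star_mul hz hj
  have hQj : Q * j = j := by
    rw [← hQ1j, ← mul_assoc, ← mul_assoc, hQa]
  have hjQ : star j * Q = star j := by
    have := congrArg star hQj
    rwa [star_mul, hQ.s] at this
  have hjb : star j * b1 = 0 := by
    have h1 : star j * (a1 * star a1) = star j := by
      have := congrArg star hQ1j
      rwa [star_mul, hQ1.s] at this
    rw [← h1, mul_assoc, mul_assoc a1, hab, mul_zero, mul_zero]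
  have hzj : z * star j = star j := by
    have := congrArg star hjz
    rwa [star_mul, hz.s] at this
  have hjN : star j * N = 0 := by rw [← hjQ, mul_assoc, hQN, mul_zero]
  have hNj : N * j = 0 := by rw [← hQj, ← mul_assoc, hNQ, zero_mul]
  have hDsQ : star D * Q = 0 := by rw [← hDsN, mul_assoc, hNQ, mul_zero]
  have hDsj : star D * j = 0 := by rw [← hQj, ← mul_assoc, hDsQ, zero_mul]
  -- `U` and the perturbation
  set U := N + m * star D * z with hU
  have hNU : N * U = U := by
    rw [hU, mul_add, hN.i]; simp only [← mul_assoc, hNm]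
  set E := U * (star j * T * k) with hE
  have hNE : N * E = E := by rw [hE, ← mul_assoc, hNU]
  have hEN : E * N = E := by rw [hE]; simp only [mul_assoc, hkN]
  set s : ℝ := ‖E‖ + 1 with hs
  have hs0 : 0 < s := by positivity
  have hsC : ((s : ℝ) : ℂ) ≠ 0 := by exact_mod_cast hs0.ne'
  set c : ℂ := ((s : ℝ) : ℂ) with hc
  obtain ⟨M, hNM, hMN, hM1, hM2⟩ := exists_left_inv_of_small hN (d := -(c⁻¹ • E))
    (by rw [mul_neg, mul_smul_comm, hNE]) (by rw [neg_mul, smul_mul_assoc, hEN]) (by
      rw [norm_neg, norm_smul, norm_inv, hc, Complex.norm_real, Real.norm_of_nonneg hs0.le,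
        inv_mul_lt_iff₀ hs0, mul_one, hs]
      linarith)
  set y0 := Q * T * z + c • j with hy0
  set C := (Q + N) * T * N - y0 - z with hC
  set L0 := m * star D - c⁻¹ • star j with hL0
  set L := M * (U * L0) with hL
  have hTN : star j * ((Q + N) * T * N) = star j * T * N := by
    rw [← mul_assoc, ← mul_assoc, mul_add, hjQ, hjN, add_zero]
  have hL0C : L0 * C = N - m * star D * z - c⁻¹ • (star j * T * k) := by
    have f1 : star j * C = star j * T * k - c • z := by
      rw [hC, mul_sub, mul_sub, hTN, hy0, mul_add, mul_smul_comm, hj]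
      have g1 : star j * (Q * T * z) = star j * T * z := by
        rw [← mul_assoc, ← mul_assoc, hjQ]
      have g2 : star j * z = 0 := by rw [← hNz, ← mul_assoc, hjN, zero_mul]
      have g3 : star j * T * N = star j * T * k + star j * T * z := by
        rw [← mul_add, hzd, add_sub_cancel]
      rw [g1, g2, g3]; abel
    have f2 : m * star D * C = k - m * star D * z := by
      rw [hC, mul_sub, mul_sub]
      have g1 : m * star D * ((Q + N) * T * N) = k := by
        have : star D * ((Q + N) * T * N) = star D * D := by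
          rw [hD, ← mul_assoc, ← mul_assoc, mul_add, hDsQ, hDsN, zero_add,
            ← mul_assoc, ← mul_assoc, ← hDsN]
          simp only [mul_assoc, re hN.i]
        rw [mul_assoc, this, hmDD]
      have g2 : m * star D * y0 = 0 := by
        rw [hy0, mul_add, mul_smul_comm, mul_assoc m, mul_assoc m, hDsj, mul_zero, smul_zero,
          ← mul_assoc (star D), ← mul_assoc (star D), hDsQ, zero_mul, zero_mul, mul_zero, add_zero]
      rw [g1, g2]; abel
    rw [hL0, sub_mul, f2, smul_mul_assoc, f1, smul_sub, smul_smul, inv_mul_cancel₀ hsC, one_smul,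
      hzd]
    abel
  have hUN : U * (N - m * star D * z) = N := by
    have g1 : m * star D * z * (m * star D * z) = 0 := by
      calc m * star D * z * (m * star D * z) = m * star D * ((z * m) * (star D * z)) := by
            simp only [mul_assoc]
        _ = 0 := by rw [hzm, zero_mul, mul_zero]
    have g2 : N * (m * star D * z) = m * star D * z := by simp only [← mul_assoc, hNm]
    have g3 : m * star D * z * N = m * star D * z := by rw [mul_assoc, hzN]
    rw [hU, add_mul, mul_sub N N, mul_sub (m * star D * z) N, hN.i, g1, g2, g3]; abel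
  have hLC : L * C = N := by
    rw [hL, mul_assoc, mul_assoc U, hL0C, mul_sub, hUN, mul_smul_comm, ← hE, sub_eq_add_neg, hM1]
  have hNL : N * L = L := by rw [hL, ← mul_assoc, hNM]
  have hL0QN : L0 * (Q + N) = L0 := by
    rw [hL0, sub_mul, smul_mul_assoc, mul_add (star j), hjQ, hjN, add_zero, mul_assoc,
      mul_add (star D), hDsQ, hDsN, zero_add]
  have hLQN : L * (Q + N) = L := by rw [hL, mul_assoc, mul_assoc, hL0QN]
  have hLb : L * b1 = 0 := by
    have : L0 * b1 = 0 := by
      rw [hL0, sub_mul, smul_mul_assoc, hjb, smul_zero, sub_zero, ← hQb, mul_assoc,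
        ← mul_assoc (star D), hDsQ, zero_mul, mul_zero]
    rw [hL, mul_assoc, mul_assoc, this, mul_zero, mul_zero]
  -- `mz`
  obtain ⟨-, -, mz, hmz1, -, -, hmz2⟩ := Iso.perturb (p := z) (q := z) (x := -z) (y := -z)
    (d := z * T * z) (by rw [mul_neg, hz.i]) (by rw [neg_mul, hz.i]) (by rw [mul_neg, hz.i])
    (by rw [neg_mul, hz.i]) (by rw [neg_mul_neg, hz.i]) (by rw [neg_mul_neg, hz.i])
    (by simp only [← mul_assoc, hz.i]) (by simp only [mul_assoc, hz.i]) (by
      have h1 : -z * (z * T * z) = -(z * (D * z)) := by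
        rw [neg_mul, hD]
        simp only [mul_assoc, re hz.i, re hzN, hNz]
      rw [h1, norm_neg]
      have h2 : ‖z * (D * z)‖ ≤ ‖z‖ * ‖D * z‖ := norm_mul_le _ _
      have h3 : ‖z‖ * ‖D * z‖ ≤ 1 * (1 / 2) :=
        mul_le_mul hz.norm_le hn (norm_nonneg _) (by norm_num)
      linarith)
  have hmz2' : (z * T * z - z) * mz = z := by
    rw [sub_eq_add_neg, add_comm]; exact hmz2
  -- the idempotent `Θ`
  set Θ := Q + N - C * L with hΘ
  have hyN : (Q + N) * C = C := by
    rw [hC, mul_sub, mul_sub, hy0]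
    have g0 : (Q + N) * (Q + N) = Q + N := by
      rw [add_mul, mul_add, mul_add, hQ.i, hN.i, hQN, hNQ]; abel
    have g1 : (Q + N) * ((Q + N) * T * N) = (Q + N) * T * N := by
      rw [← mul_assoc, ← mul_assoc, g0]
    have g2 : (Q + N) * (Q * T * z + c • j) = Q * T * z + c • j := by
      have : (Q + N) * Q = Q := by rw [add_mul, hQ.i, hNQ, add_zero]
      rw [mul_add, ← mul_assoc, ← mul_assoc, this, mul_smul_comm, add_mul, hQj, hNj, add_zero]
    have g3 : (Q + N) * z = z := by
      rw [add_mul, hNz, ← hNz, ← mul_assoc, hQN, zero_mul, zero_add]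
    rw [g1, g2, g3]
  have hCL : C * L * (C * L) = C * L := by
    calc C * L * (C * L) = C * ((L * C) * L) := by simp only [mul_assoc]
      _ = C * L := by rw [hLC, hNL]
  have hQNi : (Q + N) * (Q + N) = Q + N := by
    rw [add_mul, mul_add, mul_add, hQ.i, hN.i, hQN, hNQ]; abel
  have hΘi : Θ * Θ = Θ := by
    rw [hΘ, sub_mul, mul_sub, mul_sub, hQNi, hCL, ← mul_assoc (Q + N), hyN, mul_assoc C L,
      hLQN]; abel
  have hΘb : Θ * b1 = b1 := by
    rw [hΘ, sub_mul, mul_assoc, hLb, mul_zero, sub_zero, ← hQb, ← mul_assoc, add_mul Q N Q, hQ.i,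
      hNQ, add_zero]
  obtain ⟨Θ', hΘ'P, hΘ1, hΘ2⟩ := range_proj hΘi
  have heΘ : e * Θ = Θ := by
    have g1 : e * (Q + N) = Q + N := by rw [mul_add, heQ, heN]
    have g2 : e * C = C := by rw [← hyN, ← mul_assoc, g1]
    rw [hΘ, mul_sub, g1, ← mul_assoc, g2]
  have heΘ' : e * Θ' = Θ' := by rw [← hΘ2, ← mul_assoc, heΘ]
  have hsubΘ : Sub e Θ' := by
    have h1 : Sub Q Θ' := ⟨b1, hb1, by rw [← hΘb, ← mul_assoc, hΘ1]⟩
    exact (hEQ.sub he).trans h1
  have hEΘ : Equ e Θ' := schroeder hA he hΘ'P heΘ' hsubΘ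
  obtain ⟨v, hv1, hv2⟩ := hER.symm.trans hR hEΘ
  have hisoα : Iso R Θ (Θ' * v) := by
    have h1 : Iso R Θ' v := by rw [← hv2]; exact iso_of_pisom hR hv1
    have h2 : Iso Θ' Θ Θ' := ⟨hΘ2, hΘ'P.i, Θ, hΘ1, hΘi, hΘ2, hΘ1⟩
    exact h1.comp h2
  have hfinal := CleanIn.block (q := Q) (r := R) (n := N) (T := T) (z := z) (y0 := y0) (L := L)
    (α := Θ' * v) (mz := mz) hQ.i hR.i hN.i hQR hRQ hQN hNQ hRN hNR (by rw [hsum, hT1])
    (by rw [hsum, hT2]) hiso hz.i hNz hzN
    (by rw [hy0, mul_add, mul_smul_comm, hQj, ← mul_assoc, ← mul_assoc, hQ.i])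
    (by rw [hy0, add_mul, smul_mul_assoc, hjz, mul_assoc, hz.i])
    hNL hLQN hLC hmz1 hmz2' hisoα
  rwa [hsum] at hfinal

theorem NS.clean (hA : IsAWStar A) {e T : A} (he : P e) (hPI : PI e)
    (hT1 : e * T = T) (hT2 : T * e = T) (h : NS e T) : CleanIn e T := by
  obtain ⟨a, b, y, h1, h2, h3, h4, h5, h6, h7, h8, h9⟩ := h
  have hae : a * e = a := mul_of_star_mul he h1
  have hbe : b * e = b := mul_of_star_mul he h2
  have hsae : star a * e = star a := by
    have := congrArg star h3; rwa [star_mul, he.s] at this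
  have hsbe : star b * e = star b := by
    have := congrArg star h4; rwa [star_mul, he.s] at this
  have hesa : e * star a = star a := by
    have := congrArg star hae; rwa [star_mul, he.s] at this
  have hesb : e * star b = star b := by
    have := congrArg star hbe; rwa [star_mul, he.s] at this
  have hQ : P (a * star a) := he.of_star h1
  have hR : P (b * star b) := he.of_star h2
  have hEQ : Equ e (a * star a) := ⟨a, h1, rfl⟩
  have hER : Equ e (b * star b) := ⟨b, h2, rfl⟩
  set Q := a * star a with hQd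
  set R := b * star b with hRd
  set β := star b * T * a with hβ
  have h5' : star a * b = 0 := by
    have := congrArg star h5; rwa [star_mul, star_star, star_zero] at this
  have hQR : Q * R = 0 := by
    rw [hQd, hRd, mul_assoc, ← mul_assoc (star a), h5', zero_mul, mul_zero]
  have hRQ := hQ.orth hR hQR
  have heQ : e * Q = Q := by rw [hQd, ← mul_assoc, h3]
  have heR : e * R = R := by rw [hRd, ← mul_assoc, h4]
  have hQe : Q * e = Q := hQ.swap he heQ
  have hRe : R * e = R := hR.swap he heR
  have hsa : star a * Q = star a := by rw [hQd, ← mul_assoc, h1, hesa]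
  have hsb : star b * R = star b := by rw [hRd, ← mul_assoc, h2, hesb]
  have hQa : Q * a = a := by rw [hQd, mul_assoc, h1, hae]
  have hRb : R * b = b := by rw [hRd, mul_assoc, h2, hbe]
  set α0 := R * T * Q with hα0
  have hα : α0 = b * β * star a := by
    rw [hα0, hQd, hRd, hβ]; simp only [mul_assoc]
  set Y := a * y * star b with hY
  have hYα : Y * α0 = Q := by
    rw [hY, hα]
    calc a * y * star b * (b * β * star a) = a * (y * ((star b * b) * β)) * star a := by
          simp only [mul_assoc]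
      _ = a * (y * β) * star a := by
          rw [h2]
          have : e * β = β := by rw [hβ, ← mul_assoc, ← mul_assoc, hesb]
          rw [this]
      _ = Q := by rw [h8, hae]
  have hαY : α0 * Y = R := by
    rw [hY, hα]
    calc b * β * star a * (a * y * star b) = b * (β * ((star a * a) * y)) * star b := by
          simp only [mul_assoc]
      _ = R := by rw [h1, h6, h9, hbe]
  have hQY : Q * Y = Y := by rw [hY, ← mul_assoc, ← mul_assoc, hQa]
  have hYR : Y * R = Y := by rw [hY, mul_assoc, hsb]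
  have hRα : R * α0 = α0 := by
    rw [hα0, mul_assoc R T Q, ← mul_assoc R R, hR.i]
  have hαQ : α0 * Q = α0 := by rw [hα0, mul_assoc, hQ.i]
  have hiso0 : Iso Q R α0 := ⟨hRα, hαQ, Y, hQY, hYR, hYα, hαY⟩
  -- the similarity
  set z0 := (e - R) * T * Q * Y with hz0
  have hz0R : z0 * R = z0 := by rw [hz0, mul_assoc, hYR]
  have hRz0 : R * z0 = 0 := by
    rw [hz0]
    simp only [← mul_assoc]
    rw [mul_sub, hRe, hR.i, sub_self, zero_mul, zero_mul, zero_mul]
  have hez0 : e * z0 = z0 := by
    rw [hz0]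
    simp only [← mul_assoc]
    rw [mul_sub, he.i, heR]
  have hz0e : z0 * e = z0 := by rw [← hz0R, mul_assoc, hRe]
  have hz0z0 : z0 * z0 = 0 := by
    calc z0 * z0 = z0 * R * z0 := by rw [hz0R]
      _ = 0 := by rw [mul_assoc, hRz0, mul_zero]
  have hz0Q : z0 * Q = 0 := by rw [← hz0R, mul_assoc, hRQ, mul_zero]
  have hz0α : z0 * α0 = (e - R) * T * Q := by
    rw [hz0, mul_assoc, hYα, mul_assoc, hQ.i]
  have hTQ : T * Q = α0 + z0 * α0 := by
    rw [hz0α, hα0]
    calc T * Q = e * T * Q := by rw [hT1]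
      _ = (R + (e - R)) * T * Q := by rw [add_sub_cancel]
      _ = R * T * Q + (e - R) * T * Q := by rw [add_mul, add_mul]
  apply CleanIn.conj (e := e) (x := T) (w := e + z0) (w' := e - z0)
    (by rw [mul_add, he.i, hez0]) (by rw [add_mul, he.i, hz0e]) (by rw [mul_sub, he.i, hez0])
    (by rw [sub_mul, he.i, hz0e])
    (by rw [mul_sub, add_mul, add_mul, he.i, hz0e, hez0, hz0z0]; abel)
    (by rw [mul_add, sub_mul, sub_mul, he.i, hz0e, hez0, hz0z0]; abel) hT1 hT2
  have hT'Q : (e - z0) * T * (e + z0) * Q = α0 := by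
    have e1 : (e + z0) * Q = Q := by rw [add_mul, heQ, hz0Q, add_zero]
    have e2 : e * α0 = α0 := by rw [← hRα, ← mul_assoc, heR]
    rw [mul_assoc, e1, mul_assoc, hTQ, sub_mul, mul_add, mul_add, e2, ← mul_assoc z0 z0, hz0z0,
      zero_mul, ← mul_assoc, hez0]
    abel
  have hQRP : P (Q + R) := hQ.add hR hQR
  have heQR : e * (Q + R) = Q + R := by rw [mul_add, heQ, heR]
  have hN : P (e - (Q + R)) := hQRP.sub he heQR
  refine clean_of_iso hA he hPI hQ hR hN hQR ?_ ?_ ?_ hEQ hER ?_ ?_ ?_
  · rw [mul_sub, hQe, mul_add, hQ.i, hQR, add_zero, sub_self]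
  · rw [mul_sub, hRe, mul_add, hR.i, hRQ, zero_add, sub_self]
  · abel
  · rw [← mul_assoc, ← mul_assoc, mul_sub, he.i, hez0]
  · rw [mul_assoc, add_mul, he.i, hz0e]
  · rw [hT'Q]; exact hiso0

end Pool.Agent.H54.AW
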