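import Pool.Agent.H54.AW.FD

set_option autoImplicit false
set_option linter.unusedSectionVars false

namespace Pool.Agent.H54.AW

variable {A : Type*} [CStarAlgebra A]

theorem P.norm_le {p : A} (hp : P p) : ‖p‖ ≤ 1 := IsStarProjection.norm_le p hp

section fin
variable {ι : Type*} {d : ι → A} {c c' : ι → ℂ}

theorem sum_mul_sum_orth (I : Finset ι) (h1 : ∀ i, P (d i))
    (h2 : ∀ i j, i ≠ j → d i * d j = 0) :
    (∑ i ∈ I, c i • d i) * (∑ i ∈ I, c' i • d i) = ∑ i ∈ I, (c i * c' i) • d i := by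
  classical
  rw [Finset.sum_mul_sum]
  apply Finset.sum_congr rfl
  intro i hi
  rw [Finset.sum_eq_single i]
  · rw [smul_mul_smul_comm, (h1 i).i]
  · intro j _ hj
    rw [smul_mul_smul_comm, h2 i j (Ne.symm hj), smul_zero]
  · intro h; exact absurd hi h

theorem sum_proj (I : Finset ι) (h1 : ∀ i, P (d i))
    (h2 : ∀ i j, i ≠ j → d i * d j = 0) : P (∑ i ∈ I, d i) := by
  refine P.mk' ?_ ?_
  · have := sum_mul_sum_orth (c := fun _ => 1) (c' := fun _ => 1) I h1 h2
    simpa using this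
  · rw [star_sum]
    exact Finset.sum_congr rfl (fun i _ => (h1 i).s)

theorem sum_mul_mem (I : Finset ι) (h1 : ∀ i, P (d i))
    (h2 : ∀ i j, i ≠ j → d i * d j = 0) {i : ι} (hi : i ∈ I) : (∑ i ∈ I, d i) * d i = d i := by
  classical
  rw [Finset.sum_mul, Finset.sum_eq_single i]
  · exact (h1 i).i
  · intro j _ hj; exact h2 j i hj
  · intro h; exact absurd hi h

theorem norm_simple (I : Finset ι) (h1 : ∀ i, P (d i))
    (h2 : ∀ i j, i ≠ j → d i * d j = 0) {M : ℝ} (hM : 0 ≤ M) (hc : ∀ i ∈ I, ‖c i‖ ≤ M) :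
    ‖∑ i ∈ I, c i • d i‖ ≤ M := by
  let _ := CStarAlgebra.spectralOrder A
  have _ := CStarAlgebra.spectralOrderedRing A
  set s := ∑ i ∈ I, c i • d i with hs
  have e1 : star s * s = ∑ i ∈ I, (‖c i‖ ^ 2 : ℝ) • d i := by
    have : star s = ∑ i ∈ I, (star (c i)) • d i := by
      rw [hs, star_sum]
      exact Finset.sum_congr rfl (fun i _ => by rw [star_smul, (h1 i).s])
    rw [this, hs, sum_mul_sum_orth I h1 h2]
    apply Finset.sum_congr rfl
    intro i _
    have e2 : (star (c i) * c i : ℂ) = ((‖c i‖ ^ 2 : ℝ) : ℂ) := by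
      have := Complex.conj_mul' (c i)
      simpa using this
    rw [e2]
    exact (Complex.coe_smul _ _)
  have e3 : star s * s ≤ (M ^ 2) • ∑ i ∈ I, d i := by
    rw [e1, Finset.smul_sum]
    apply Finset.sum_le_sum
    intro i hi
    apply smul_le_smul_of_nonneg_right _ (h1 i).nonneg
    exact pow_le_pow_left₀ (norm_nonneg _) (hc i hi) 2
  have e4 : ‖star s * s‖ ≤ ‖(M ^ 2) • ∑ i ∈ I, d i‖ :=
    CStarAlgebra.norm_le_norm_of_nonneg_of_le (star_mul_self_nonneg s) e3
  rw [CStarRing.norm_star_mul_self, norm_smul, Real.norm_of_nonneg (by positivity)] at e4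
  have e5 : M ^ 2 * ‖∑ i ∈ I, d i‖ ≤ M ^ 2 * 1 :=
    mul_le_mul_of_nonneg_left (sum_proj I h1 h2).norm_le (by positivity)
  nlinarith [norm_nonneg s]

end fin

/-- The cut lemma. -/
theorem cut (hA : IsAWStar A) {e : A} (x : A) (he : P e) {ε : ℝ} (hε : 0 < ε) :
    ∃ d m, P d ∧ e * d = d ∧ d * m = m ∧ m * d = m ∧
      (∀ T, T = e * (star x * x) * e → d * T = T * d) ∧
      m * (d * (star x * x) * d) = d ∧ (d * (star x * x) * d) * m = d ∧ ‖x * (e - d)‖ ≤ ε := by
  classical
  set T := e * (star x * x) * e with hT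
  have hTs : star T = T := by
    rw [hT, star_mul, star_mul, star_mul, star_star, he.s]; simp only [mul_assoc]
  have heT : e * T = T := by rw [hT]; simp only [← mul_assoc, he.i]
  have hTe : T * e = T := by rw [hT]; simp only [mul_assoc, he.i]
  set δ : ℝ := ε ^ 2 / 3 with hδ
  have hδ0 : 0 < δ := by positivity
  obtain ⟨ι, hι, d, c, h1, h2, h3, h4, h5⟩ := fd hA he hTs heT hδ0
  set I : Finset ι := Finset.univ.filter (fun i => 2 * δ ≤ ‖c i‖) with hI
  set D := ∑ i ∈ I, d i with hD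
  have hDP : P D := sum_proj I h1 h2
  have hed : ∀ i, e * d i = d i := by
    intro i
    rw [← h3]
    exact sum_mul_mem Finset.univ h1 h2 (Finset.mem_univ i)
  have heD : e * D = D := by
    rw [hD, Finset.mul_sum]
    exact Finset.sum_congr rfl (fun i _ => hed i)
  have hDe : D * e = D := hDP.swap he heD
  have hDT : D * T = T * D := by
    rw [hD, Finset.sum_mul, Finset.mul_sum]
    exact Finset.sum_congr rfl (fun i _ => h4 i)
  -- the simple element and its inverse
  set s := ∑ i ∈ I, c i • d i with hs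
  set s' := ∑ i ∈ I, (c i)⁻¹ • d i with hs'
  have hc0 : ∀ i ∈ I, c i ≠ 0 := by
    intro i hi h0
    rw [hI, Finset.mem_filter, h0, norm_zero] at hi
    linarith [hi.2]
  have hmulD : ∀ c' : ι → ℂ, D * (∑ i ∈ I, c' i • d i) = ∑ i ∈ I, c' i • d i := by
    intro c'
    have := sum_mul_sum_orth (c := fun _ => 1) (c' := c') I h1 h2
    simpa using this
  have hDmul : ∀ c' : ι → ℂ, (∑ i ∈ I, c' i • d i) * D = ∑ i ∈ I, c' i • d i := by
    intro c'
    have := sum_mul_sum_orth (c := c') (c' := fun _ => 1) I h1 h2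
    simpa using this
  have hs's : s' * s = D := by
    rw [hs, hs', sum_mul_sum_orth I h1 h2, hD]
    apply Finset.sum_congr rfl
    intro i hi
    rw [inv_mul_cancel₀ (hc0 i hi), one_smul]
  have hss' : s * s' = D := by
    rw [hs, hs', sum_mul_sum_orth I h1 h2, hD]
    apply Finset.sum_congr rfl
    intro i hi
    rw [mul_inv_cancel₀ (hc0 i hi), one_smul]
  set S := ∑ i, c i • d i with hS
  have hSD : S * D = s := by
    have e1 : S = s + ∑ i ∈ Finset.univ.filter (fun i => ¬ (2 * δ ≤ ‖c i‖)), c i • d i := by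
      rw [hS, hs, hI]; exact (Finset.sum_filter_add_sum_filter_not _ _ _).symm
    have e2 : (∑ i ∈ Finset.univ.filter (fun i => ¬ (2 * δ ≤ ‖c i‖)), c i • d i) * D = 0 := by
      rw [hD, Finset.sum_mul_sum]
      apply Finset.sum_eq_zero
      intro i hi
      apply Finset.sum_eq_zero
      intro j hj
      rw [smul_mul_assoc, h2 i j, smul_zero]
      rintro rfl
      rw [Finset.mem_filter] at hi
      rw [hI, Finset.mem_filter] at hj
      exact hi.2 hj.2
    rw [e1, add_mul, hDmul, e2, add_zero]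
  have hs'n : ‖s'‖ ≤ (2 * δ)⁻¹ := by
    apply norm_simple I h1 h2 (by positivity)
    intro i hi
    rw [norm_inv]
    rw [hI, Finset.mem_filter] at hi
    exact inv_anti₀ (by positivity) hi.2
  have hdiff : ‖T * D - s‖ ≤ δ := by
    have : T * D - s = (T - S) * D := by rw [sub_mul, hSD]
    rw [this]
    calc ‖(T - S) * D‖ ≤ ‖T - S‖ * ‖D‖ := norm_mul_le _ _
      _ ≤ ‖T - S‖ * 1 := mul_le_mul_of_nonneg_left hDP.norm_le (norm_nonneg _)
      _ ≤ δ := by rw [mul_one]; exact h5.le
  have hiso : Iso D D (s + (T * D - s)) := by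
    apply Iso.perturb (hmulD c) (hDmul c) (hmulD _) (hDmul _) hs's hss'
    · rw [mul_sub, ← mul_assoc, hDT, mul_assoc, hDP.i, hmulD]
    · rw [sub_mul, mul_assoc, hDP.i, hDmul]
    · calc ‖s' * (T * D - s)‖ ≤ ‖s'‖ * ‖T * D - s‖ := norm_mul_le _ _
        _ ≤ (2 * δ)⁻¹ * δ := by
            apply mul_le_mul hs'n hdiff (norm_nonneg _) (by positivity)
        _ < 1 := by
            rw [inv_mul_lt_iff₀ (by positivity)]; linarith
  rw [add_sub_cancel] at hiso
  have hTD : T * D = D * (star x * x) * D := by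
    rw [← hDP.i, ← mul_assoc, ← hDT]
    simp only [mul_assoc, hDP.i]
    rw [hT]
    simp only [mul_assoc, re hDe, heD]
  obtain ⟨-, -, m, m1, m2, m3, m4⟩ := hiso
  refine ⟨D, m, hDP, heD, m1, m2, ?_, ?_, ?_, ?_⟩
  · rintro T' rfl; exact hDT
  · rw [← hTD]; exact m3
  · rw [← hTD]; exact m4
  · -- norm estimate
    have hDeD : P (e - D) := hDP.sub he heD
    have e1 : star (x * (e - D)) * (x * (e - D)) = T * (e - D) := by
      rw [star_mul, hDeD.s]
      have e2 : T * (e - D) = (e - D) * T * (e - D) := by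
        rw [sub_mul e D T, heT, hDT, sub_mul, mul_sub (T * D), mul_assoc T D e, hDe, mul_assoc T D D,
          hDP.i, sub_self, sub_zero]
      rw [e2, hT]
      have e3 : (e - D) * e = e - D := by rw [sub_mul, he.i, hDe]
      have e4 : e * (e - D) = e - D := by rw [mul_sub, he.i, heD]
      simp only [mul_assoc, e4, re e3]
    have e5 : ‖T * (e - D)‖ ≤ 3 * δ := by
      have e6 : T * (e - D) = (T - S) * (e - D) +
          ∑ i ∈ Finset.univ.filter (fun i => ¬ (2 * δ ≤ ‖c i‖)), c i • d i := by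
        have e7 : S = s + ∑ i ∈ Finset.univ.filter (fun i => ¬ (2 * δ ≤ ‖c i‖)), c i • d i := by
          rw [hS, hs, hI]; exact (Finset.sum_filter_add_sum_filter_not _ _ _).symm
        have e8 : S * e = S := by
          rw [hS, Finset.sum_mul]
          apply Finset.sum_congr rfl
          intro i _
          rw [smul_mul_assoc, (h1 i).swap he (hed i)]
        rw [sub_mul, mul_sub S, e8, hSD, e7]; abel
      rw [e6]
      have n1 : ‖(T - S) * (e - D)‖ ≤ δ := by
        calc ‖(T - S) * (e - D)‖ ≤ ‖T - S‖ * ‖e - D‖ := norm_mul_le _ _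
          _ ≤ ‖T - S‖ * 1 := mul_le_mul_of_nonneg_left hDeD.norm_le (norm_nonneg _)
          _ ≤ δ := by rw [mul_one]; exact h5.le
      have n2 : ‖∑ i ∈ Finset.univ.filter (fun i => ¬ (2 * δ ≤ ‖c i‖)), c i • d i‖ ≤ 2 * δ := by
        apply norm_simple _ h1 h2 (by positivity)
        intro i hi
        rw [Finset.mem_filter] at hi
        exact (not_le.1 hi.2).le
      calc _ ≤ _ + _ := norm_add_le _ _
        _ ≤ δ + 2 * δ := add_le_add n1 n2
        _ = 3 * δ := by ring
    have e9 : ‖x * (e - D)‖ * ‖x * (e - D)‖ ≤ ε ^ 2 := by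
      rw [← CStarRing.norm_star_mul_self, e1]
      calc _ ≤ 3 * δ := e5
        _ = ε ^ 2 := by rw [hδ]; ring
    nlinarith [norm_nonneg (x * (e - D))]

end Pool.Agent.H54.AW
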