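import Mathlib

set_option autoImplicit false

namespace Pool.Agent.H54.AW

/-- `C` is a maximal commutative self-adjoint subalgebra of `A`. -/
def IsMasa {A : Type*} [CStarAlgebra A] (C : StarSubalgebra ℂ A) : Prop :=
  (∀ x ∈ C, ∀ y ∈ C, x * y = y * x) ∧
    ∀ D : StarSubalgebra ℂ A, (∀ x ∈ D, ∀ y ∈ D, x * y = y * x) → C ≤ D → D = C

/-- The unital C*-algebra `A` is an AW*-algebra (Kaplansky): every family of pairwise orthogonal
projections has a least upper bound in the partially ordered set of projections (where `p ≤ q`
means `q * p = p`), and every maximal commutative self-adjoint subalgebra is generated, as a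
norm-closed star subalgebra, by the projections it contains. -/
structure IsAWStar (A : Type*) [CStarAlgebra A] : Prop where
  exists_sup : ∀ S : Set A, (∀ p ∈ S, IsStarProjection p) →
    (∀ p ∈ S, ∀ q ∈ S, p ≠ q → p * q = 0) →
    ∃ s, IsStarProjection s ∧ (∀ p ∈ S, s * p = p) ∧
      ∀ t, IsStarProjection t → (∀ p ∈ S, t * p = p) → t * s = s
  masa : ∀ C : StarSubalgebra ℂ A, IsMasa C →
    C ≤ (StarAlgebra.adjoin ℂ {p : A | p ∈ C ∧ IsStarProjection p}).topologicalClosure

/-- `A` has trivial center: every central element is a complex multiple of the identity. -/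
def IsFactor (A : Type*) [CStarAlgebra A] : Prop :=
  ∀ z : A, (∀ a : A, z * a = a * z) → ∃ c : ℂ, z = c • (1 : A)

/-- The ring `R` is clean: every element is the sum of a unit and an idempotent. -/
def IsClean (R : Type*) [Ring R] : Prop :=
  ∀ x : R, ∃ u e : R, IsUnit u ∧ e * e = e ∧ x = u + e

end Pool.Agent.H54.AW
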