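import Pool.Agent.H54.AW.NS

set_option autoImplicit false
set_option linter.unusedSectionVars false

namespace Pool.Agent.H54.AW

universe u

variable {A : Type u} [CStarAlgebra A]

theorem norm_le_one_of_star {e w : A} (he : P e) (h : star w * w = e) : ‖w‖ ≤ 1 := by
  have : ‖w‖ * ‖w‖ ≤ 1 := by
    rw [← CStarRing.norm_star_mul_self, h]; exact he.norm_le
  nlinarith [norm_nonneg w]

/-- a perturbation of a nonzero scalar in a corner is invertible -/
theorem scalar_perturb {e d : A} {c : ℂ} (he : P e) (h1 : e * d = d) (h2 : d * e = d)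
    (hc : ‖d‖ < ‖c‖) : ∃ n, e * n = n ∧ n * e = n ∧ n * (c • e + d) = e ∧ (c • e + d) * n = e := by
  have hc0 : c ≠ 0 := by
    rintro rfl
    rw [norm_zero] at hc
    exact absurd hc (not_lt.2 (norm_nonneg d))
  obtain ⟨-, -, n, h3, h4, h5, h6⟩ := Iso.perturb (p := e) (q := e) (x := c • e) (y := c⁻¹ • e)
    (d := d) (by rw [mul_smul_comm, he.i]) (by rw [smul_mul_assoc, he.i])
    (by rw [mul_smul_comm, he.i]) (by rw [smul_mul_assoc, he.i])
    (by rw [smul_mul_smul_comm, he.i, inv_mul_cancel₀ hc0, one_smul])
    (by rw [smul_mul_smul_comm, he.i, mul_inv_cancel₀ hc0, one_smul]) h1 h2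
    (by
      rw [smul_mul_assoc, h1, norm_smul, norm_inv]
      have : 0 < ‖c‖ := norm_pos_iff.2 hc0
      rw [inv_mul_lt_iff₀ this, mul_one]; exact hc)
  exact ⟨n, h3, h4, h5, h6⟩

/-- dichotomy for self-adjoint elements -/
theorem dich_sa (hA : IsAWStar A) (hF : IsFactor A) {e T : A} (he : P e) (hPI : PI e)
    (he0 : e ≠ 0) (hT : star T = T) (hT1 : e * T = T) {ε : ℝ} (hε : 0 < ε) :
    NS e T ∨ ∃ (c : ℂ) (g : A), P g ∧ e * g = g ∧ ¬ Sub e g ∧
      ‖(e - g) * (T - c • e) * (e - g)‖ ≤ ε := by
  classical
  set δ : ℝ := ε / 5 with hδ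
  have hδ0 : 0 < δ := by positivity
  obtain ⟨ι, hι, d, c, h1, h2, h3, h4, h5⟩ := fd hA he hT hT1 hδ0
  obtain ⟨j, -, hj⟩ := exists_big hA hF he hPI he0 Finset.univ h1 h2
    (by rw [h3]; exact Sub.refl he)
  have hed : ∀ i, e * d i = d i := by
    intro i
    rw [← h3]
    exact sum_mul_mem Finset.univ h1 h2 (Finset.mem_univ i)
  have hde : ∀ i, d i * e = d i := fun i => (h1 i).swap he (hed i)
  set S := ∑ i, c i • d i with hS
  have hSd : ∀ i, S * d i = c i • d i := by
    intro i
    rw [hS, Finset.sum_mul, Finset.sum_eq_single i]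
    · rw [smul_mul_assoc, (h1 i).i]
    · intro k _ hk
      rw [smul_mul_assoc, h2 k i hk, smul_zero]
    · intro h; exact absurd (Finset.mem_univ i) h
  by_cases hk : ∃ k, 4 * δ < ‖c j - c k‖ ∧ Sub e (d k)
  · left
    obtain ⟨k, hck, hk⟩ := hk
    have hjk : j ≠ k := by
      rintro rfl
      rw [sub_self, norm_zero] at hck
      linarith
    obtain ⟨u, u1, u2⟩ := hj
    obtain ⟨v, v1, v2⟩ := hk
    have hue := mul_of_star_mul he u1
    have hve := mul_of_star_mul he v1
    have hus : star u * d j = star u := by
      have := congrArg star u2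
      rwa [star_mul, (h1 j).s] at this
    have hvs : star v * d k = star v := by
      have := congrArg star v2
      rwa [star_mul, (h1 k).s] at this
    have huv : star u * v = 0 := by
      rw [← hus, ← v2, mul_assoc, ← mul_assoc (d j), h2 j k hjk, zero_mul, mul_zero]
    have hvu : star v * u = 0 := by
      rw [← hvs, ← u2, mul_assoc, ← mul_assoc (d k), h2 k j hjk.symm, zero_mul, mul_zero]
    have huTv : star u * T * v = 0 := by
      calc star u * T * v = (star u * d j) * T * (d k * v) := by rw [hus, v2]
        _ = star u * ((d j * T) * d k) * v := by simp only [mul_assoc]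
        _ = 0 := by rw [h4 j, mul_assoc T, h2 j k hjk, mul_zero, mul_zero, zero_mul]
    have hvTu : star v * T * u = 0 := by
      calc star v * T * u = (star v * d k) * T * (d j * u) := by rw [hvs, u2]
        _ = star v * ((d k * T) * d j) * u := by simp only [mul_assoc]
        _ = 0 := by rw [h4 k, mul_assoc T, h2 k j hjk.symm, mul_zero, mul_zero, zero_mul]
    have hun := norm_le_one_of_star he u1
    have hvn := norm_le_one_of_star he v1
    have heu : e * u = u := by rw [← u2, ← mul_assoc, hed]
    have hev : e * v = v := by rw [← v2, ← mul_assoc, hed]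
    have heus : star u * e = star u := by
      have := congrArg star heu
      rwa [star_mul, he.s] at this
    have hevs : star v * e = star v := by
      have := congrArg star hev
      rwa [star_mul, he.s] at this
    have heus' : e * star u = star u := by
      have := congrArg star hue
      rwa [star_mul, he.s] at this
    have hevs' : e * star v = star v := by
      have := congrArg star hve
      rwa [star_mul, he.s] at this
    have hu3 : star u * T * u = c j • e + star u * (T - S) * u := by
      have : star u * S * u = c j • e := by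
        have hSu : S * u = c j • u := by
          calc S * u = (S * d j) * u := by rw [mul_assoc, u2]
            _ = c j • u := by rw [hSd, smul_mul_assoc, u2]
        rw [mul_assoc, hSu, mul_smul_comm, u1]
      rw [mul_sub, sub_mul, this]; abel
    have hv3 : star v * T * v = c k • e + star v * (T - S) * v := by
      have : star v * S * v = c k • e := by
        have hSv : S * v = c k • v := by
          calc S * v = (S * d k) * v := by rw [mul_assoc, v2]
            _ = c k • v := by rw [hSd, smul_mul_assoc, v2]
        rw [mul_assoc, hSv, mul_smul_comm, v1]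
      rw [mul_sub, sub_mul, this]; abel
    have hbound : ∀ w : A, ‖w‖ ≤ 1 → ‖star w * (T - S) * w‖ ≤ δ := by
      intro w hw
      calc ‖star w * (T - S) * w‖ ≤ ‖star w‖ * ‖T - S‖ * ‖w‖ :=
            (norm_mul_le _ _).trans (mul_le_mul_of_nonneg_right (norm_mul_le _ _) (norm_nonneg _))
        _ ≤ 1 * δ * 1 := by
            apply mul_le_mul _ hw (norm_nonneg _) (by positivity)
            apply mul_le_mul _ h5.le (norm_nonneg _) (by norm_num)
            rwa [norm_star]
        _ = δ := by ring
    set D := star u * (T - S) * u - star v * (T - S) * v with hD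
    have hDn : ‖D‖ < ‖c j - c k‖ := by
      calc ‖D‖ ≤ ‖star u * (T - S) * u‖ + ‖star v * (T - S) * v‖ := norm_sub_le _ _
        _ ≤ δ + δ := add_le_add (hbound u hun) (hbound v hvn)
        _ < 4 * δ := by linarith
        _ < _ := hck
    obtain ⟨n, n1, n2, n3, n4⟩ := scalar_perturb (c := c j - c k) (d := D) he
      (by rw [hD, mul_sub]; simp only [← mul_assoc, heus', hevs'])
      (by rw [hD, sub_mul]; simp only [mul_assoc, hue, hve]) hDn
    refine NS.of he (a := u + v) (b := n * (star u - star v)) ?_ ?_ ?_ ?_ ?_ ?_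
    · rw [mul_add, heu, hev]
    · rw [add_mul, hue, hve]
    · rw [← mul_assoc, n1]
    · rw [mul_assoc, sub_mul, heus, hevs]
    · rw [mul_assoc, sub_mul, mul_add, mul_add, u1, v1, huv, hvu, add_zero, zero_add, sub_self,
        mul_zero]
    · have e1 : (star u - star v) * T * (u + v) = (c j - c k) • e + D := by
        rw [sub_mul, sub_mul, mul_add, mul_add, huTv, hvTu, hu3, hv3, hD, sub_smul]
        abel
      calc n * (star u - star v) * T * (u + v) = n * ((star u - star v) * T * (u + v)) := by
            simp only [mul_assoc]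
        _ = e := by rw [e1, n3]
  · right
    push Not at hk
    set I : Finset ι := Finset.univ.filter (fun k => 4 * δ < ‖c j - c k‖) with hI
    refine ⟨c j, ∑ i ∈ I, d i, sum_proj I h1 h2, ?_, ?_, ?_⟩
    · rw [Finset.mul_sum]
      exact Finset.sum_congr rfl (fun i _ => hed i)
    · intro hsub
      obtain ⟨k, hkI, hk'⟩ := exists_big hA hF he hPI he0 I h1 h2 hsub
      rw [hI, Finset.mem_filter] at hkI
      exact hk k hkI.2 hk'
    · set I' : Finset ι := Finset.univ.filter (fun k => ¬ (4 * δ < ‖c j - c k‖)) with hI'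
      have he' : e - ∑ i ∈ I, d i = ∑ i ∈ I', d i := by
        rw [← h3, hI, hI', ← Finset.sum_filter_add_sum_filter_not Finset.univ
          (fun k => 4 * δ < ‖c j - c k‖)]
        abel
      rw [he']
      set h := ∑ i ∈ I', d i with hh
      have hhP : P h := sum_proj I' h1 h2
      have hSh : S * h = ∑ i ∈ I', c i • d i := by
        rw [hh, Finset.mul_sum]
        exact Finset.sum_congr rfl (fun i _ => hSd i)
      have hhS : h * ∑ i ∈ I', c i • d i = ∑ i ∈ I', c i • d i := by
        have := sum_mul_sum_orth (c := fun _ => 1) (c' := c) I' h1 h2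
        simpa using this
      have heh : h * e = h := by
        rw [hh, Finset.sum_mul]
        exact Finset.sum_congr rfl (fun i _ => hde i)
      have e1 : h * (T - c j • e) * h = h * (T - S) * h + ∑ i ∈ I', (c i - c j) • d i := by
        have e2 : ∑ i ∈ I', (c i - c j) • d i = h * S * h - c j • h := by
          rw [mul_assoc, hSh, hhS, hh, Finset.smul_sum, ← Finset.sum_sub_distrib]
          exact Finset.sum_congr rfl (fun i _ => sub_smul _ _ _)
        rw [e2, mul_sub, mul_sub, sub_mul, sub_mul, mul_smul_comm, heh, smul_mul_assoc, hhP.i]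
        abel
      rw [e1]
      have n1 : ‖h * (T - S) * h‖ ≤ δ := by
        calc ‖h * (T - S) * h‖ ≤ ‖h‖ * ‖T - S‖ * ‖h‖ :=
              (norm_mul_le _ _).trans
                (mul_le_mul_of_nonneg_right (norm_mul_le _ _) (norm_nonneg _))
          _ ≤ 1 * δ * 1 := by
              apply mul_le_mul _ hhP.norm_le (norm_nonneg _) (by positivity)
              exact mul_le_mul hhP.norm_le h5.le (norm_nonneg _) (by norm_num)
          _ = δ := by ring
      have n2 : ‖∑ i ∈ I', (c i - c j) • d i‖ ≤ 4 * δ := by
        apply norm_simple I' h1 h2 (by positivity)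
        intro i hi
        rw [hI', Finset.mem_filter] at hi
        rw [norm_sub_rev]
        exact not_lt.1 hi.2
      calc _ ≤ ‖h * (T - S) * h‖ + ‖∑ i ∈ I', (c i - c j) • d i‖ := norm_add_le _ _
        _ ≤ δ + 4 * δ := add_le_add n1 n2
        _ = ε := by rw [hδ]; ring

/-- dichotomy for general elements -/
theorem dich (hA : IsAWStar A) (hF : IsFactor A) {e T : A} (he : P e) (hPI : PI e)
    (he0 : e ≠ 0) (hT1 : e * T = T) (hT2 : T * e = T) {ε : ℝ} (hε : 0 < ε) :
    NS e T ∨ ∃ (c : ℂ) (g : A), P g ∧ e * g = g ∧ ¬ Sub e g ∧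
      ‖(e - g) * (T - c • e) * (e - g)‖ ≤ ε := by
  have hTs1 : e * star T = star T := by
    have := congrArg star hT2
    rwa [star_mul, he.s] at this
  rcases dich_sa hA hF he hPI he0 (T := T + star T) (by rw [star_add, star_star, add_comm])
    (by rw [mul_add, hT1, hTs1]) hε with h | ⟨c1, g1, a1, a2, a3, a4⟩
  · left; exact NS.of_re hA hF he hPI hT1 hT2 h
  have he' : P (e - g1) := a1.sub he a2
  have hg1e : g1 * e = g1 := a1.swap he a2
  have hbig : Sub e (e - g1) := by
    rcases big_or_big hA hF he hPI a1 he' (by rw [mul_sub, hg1e, a1.i, sub_self])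
      (by rw [add_sub_cancel]; exact Equ.refl he) with h | h
    · exact absurd h a3
    · exact h
  set e' := e - g1 with he'd
  have hee' : e * e' = e' := by rw [he'd, mul_sub, he.i, a2]
  have he'e : e' * e = e' := he'.swap he hee'
  have hE : Equ e e' := schroeder hA he he' hee' hbig
  have hPI' : PI e' := hPI.equ he hE
  have he'0 : e' ≠ 0 := by
    intro h
    rw [h] at hE
    exact he0 (equ_zero hE)
  -- the second part
  set U := Complex.I • (e' * T * e') with hU
  have hU1 : e' * U = U := by rw [hU, mul_smul_comm]; simp only [← mul_assoc, he'.i]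
  have hU2 : U * e' = U := by rw [hU, smul_mul_assoc]; simp only [mul_assoc, he'.i]
  have hUs1 : e' * star U = star U := by
    have := congrArg star hU2
    rwa [star_mul, he'.s] at this
  rcases dich_sa hA hF he' hPI' he'0 (T := U + star U) (by rw [star_add, star_star, add_comm])
    (by rw [mul_add, hU1, hUs1]) hε with h | ⟨c2, g2, b1, b2, b3, b4⟩
  · left
    have h1 := NS.of_re hA hF he' hPI' hU1 hU2 h
    have h2 : NS e' (e' * T * e') := NS.smul Complex.I_ne_zero h1
    exact NS.corner he he' hee' hE h2
  right
  have hg2e' : g2 * e' = g2 := b1.swap he' b2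
  have heg2 : e * g2 = g2 := by rw [← b2, ← mul_assoc, hee']
  have hg12 : g1 * g2 = 0 := by
    rw [← b2, ← mul_assoc, he'd, mul_sub, hg1e, a1.i, sub_self, zero_mul]
  have hgP : P (g1 + g2) := a1.add b1 hg12
  have heg : e * (g1 + g2) = g1 + g2 := by rw [mul_add, a2, heg2]
  refine ⟨(1 / 2 : ℂ) * (c1 - Complex.I * c2), g1 + g2, hgP, heg, ?_, ?_⟩
  · intro hsub
    have hEg : Equ e (g1 + g2) := schroeder hA he hgP heg hsub
    rcases big_or_big hA hF he hPI a1 b1 hg12 hEg with h | h
    · exact a3 h
    · exact b3 ((Sub.of_le he' hee').trans h)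
  · set h := e' - g2 with hh
    have heq : e - (g1 + g2) = h := by rw [hh, he'd]; abel
    rw [heq]
    have hhP : P h := b1.sub he' b2
    have hhe' : h * e' = h := by rw [hh, sub_mul, he'.i, hg2e']
    have he'h : e' * h = h := by rw [hh, mul_sub, he'.i, b2]
    have hhe : h * e = h := by rw [← hhe', mul_assoc, he'e]
    -- first estimate
    have n1 : ‖h * (T + star T - c1 • e) * h‖ ≤ ε := by
      have : h * (T + star T - c1 • e) * h = h * (e' * (T + star T - c1 • e) * e') * h := by
        calc h * (T + star T - c1 • e) * h = (h * e') * (T + star T - c1 • e) * (e' * h) := by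
              rw [hhe', he'h]
          _ = _ := by simp only [mul_assoc]
      rw [this]
      calc ‖h * (e' * (T + star T - c1 • e) * e') * h‖ ≤
            ‖h‖ * ‖e' * (T + star T - c1 • e) * e'‖ * ‖h‖ :=
              (norm_mul_le _ _).trans
                (mul_le_mul_of_nonneg_right (norm_mul_le _ _) (norm_nonneg _))
          _ ≤ 1 * ε * 1 := by
              apply mul_le_mul _ hhP.norm_le (norm_nonneg _) (by positivity)
              exact mul_le_mul hhP.norm_le a4 (norm_nonneg _) (by norm_num)
          _ = ε := by ring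
    have hUh : h * (U + star U - c2 • e') * h =
        h * (Complex.I • T - Complex.I • star T - c2 • e) * h := by
      have s1 : star U = -(Complex.I • (e' * star T * e')) := by
        rw [hU, star_smul, star_mul, star_mul, he'.s]
        simp [mul_assoc]
      rw [s1, hU]
      simp only [mul_sub, mul_add, sub_mul, add_mul, mul_neg, neg_mul, mul_smul_comm,
        smul_mul_assoc, ← mul_assoc, hhe', hhe]
      simp only [mul_assoc, he'h]
      abel
    rw [hUh] at b4
    have key : h * (T - ((1 / 2 : ℂ) * (c1 - Complex.I * c2)) • e) * h =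
        (1 / 2 : ℂ) • (h * (T + star T - c1 • e) * h) -
          ((1 / 2 : ℂ) * Complex.I) • (h * (Complex.I • T - Complex.I • star T - c2 • e) * h) := by
      simp only [mul_sub, mul_add, sub_mul, add_mul, mul_smul_comm, smul_mul_assoc, smul_sub,
        smul_add, smul_smul]
      have i1 : (1 / 2 : ℂ) * Complex.I * Complex.I = -(1 / 2) := by
        rw [mul_assoc, Complex.I_mul_I]; ring
      rw [i1]
      have i2 : h * T * h = (1 / 2 : ℂ) • (h * T * h) + (1 / 2 : ℂ) • (h * T * h) := by
        rw [← add_smul]; norm_num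
      have i3 : ((1 / 2 : ℂ) * c1 - (1 / 2 : ℂ) * (Complex.I * c2)) • (h * e * h) =
          ((1 / 2 : ℂ) * c1) • (h * e * h) -
            ((1 / 2 : ℂ) * Complex.I * c2) • (h * e * h) := by
        rw [← sub_smul]; congr 1; ring
      rw [i3]
      conv_lhs => rw [i2]
      rw [neg_smul]
      simp only [neg_smul]
      abel
    rw [key]
    calc _ ≤ ‖(1 / 2 : ℂ) • (h * (T + star T - c1 • e) * h)‖ +
          ‖((1 / 2 : ℂ) * Complex.I) • (h * (Complex.I • T - Complex.I • star T - c2 • e) * h)‖ :=
            norm_sub_le _ _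
      _ = (1 / 2) * ‖h * (T + star T - c1 • e) * h‖ +
          (1 / 2) * ‖h * (Complex.I • T - Complex.I • star T - c2 • e) * h‖ := by
            rw [norm_smul, norm_smul, norm_mul (1 / 2 : ℂ) Complex.I, Complex.norm_I]
            norm_num
      _ ≤ (1 / 2) * ε + (1 / 2) * ε := by
            have := mul_le_mul_of_nonneg_left n1 (by norm_num : (0 : ℝ) ≤ 1 / 2)
            have := mul_le_mul_of_nonneg_left b4 (by norm_num : (0 : ℝ) ≤ 1 / 2)
            linarith
      _ = ε := by ring

end Pool.Agent.H54.AW
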