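import Pool.Agent.H54.AW.Ring

set_option autoImplicit false
set_option linter.unusedSectionVars false

namespace Pool.Agent.H54.AW

theorem re {R : Type*} [Semigroup R] {a b c : R} (h : a * b = c) (t : R) :
    a * (b * t) = c * t := by rw [← mul_assoc, h]

variable {A : Type*} [CStarAlgebra A]

/-- short name for projections -/
abbrev P (p : A) : Prop := IsStarProjection p

theorem P.i {p : A} (h : P p) : p * p = p := h.isIdempotentElem
theorem P.s {p : A} (h : P p) : star p = p := h.isSelfAdjoint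

theorem P.mk' {p : A} (h : p * p = p) (h' : star p = p) : P p := ⟨h, h'⟩

/-- `p ≤ q` one way gives the other way -/
theorem P.swap {p q : A} (hp : P p) (hq : P q) (h : q * p = p) : p * q = p := by
  have := congrArg star h
  rwa [star_mul, hp.s, hq.s] at this

theorem P.swap' {p q : A} (hp : P p) (hq : P q) (h : p * q = p) : q * p = p := by
  have := congrArg star h
  rwa [star_mul, hp.s, hq.s] at this

theorem P.orth {p q : A} (hp : P p) (hq : P q) (h : p * q = 0) : q * p = 0 := by
  have := congrArg star h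
  rwa [star_mul, hp.s, hq.s, star_zero] at this

theorem P.sub {p q : A} (hp : P p) (hq : P q) (h : q * p = p) : P (q - p) :=
  hp.sub_of_mul_eq_right hq h

theorem P.add {p q : A} (hp : P p) (hq : P q) (h : p * q = 0) : P (p + q) :=
  IsStarProjection.add hp hq h

theorem star_mul_self_zero {x : A} (h : star x * x = 0) : x = 0 :=
  (CStarRing.star_mul_self_eq_zero_iff x).1 h

/-- `star v * v = p` a projection implies `v p = v`. -/
theorem mul_of_star_mul {v p : A} (hp : P p) (h : star v * v = p) : v * p = v := by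
  have h1 : star (v - v * p) * (v - v * p) = 0 := by
    rw [star_sub, star_mul, hp.s, sub_mul, mul_sub, mul_sub]
    simp only [mul_assoc, re h, h, hp.i]
    abel
  have := star_mul_self_zero h1
  rw [sub_eq_zero] at this
  exact this.symm

theorem P.of_star {v p : A} (hp : P p) (h : star v * v = p) : P (v * star v) := by
  refine P.mk' ?_ (by rw [star_mul, star_star])
  calc v * star v * (v * star v) = v * (star v * v) * star v := by simp only [mul_assoc]
    _ = v * star v := by rw [h, mul_of_star_mul hp h]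

/-- Murray-von Neumann equivalence -/
def Equ (p q : A) : Prop := ∃ v, star v * v = p ∧ v * star v = q

/-- subequivalence `p ≾ q` -/
def Sub (p q : A) : Prop := ∃ v, star v * v = p ∧ q * v = v

theorem Equ.refl {p : A} (hp : P p) : Equ p p := ⟨p, by rw [hp.s, hp.i], by rw [hp.s, hp.i]⟩

theorem Equ.symm {p q : A} (h : Equ p q) : Equ q p := by
  obtain ⟨v, h1, h2⟩ := h
  exact ⟨star v, by rw [star_star, h2], by rw [star_star, h1]⟩

theorem Equ.proj {p q : A} (hp : P p) (h : Equ p q) : P q := by
  obtain ⟨v, h1, h2⟩ := h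
  rw [← h2]; exact hp.of_star h1

theorem Equ.trans {p q r : A} (hp : P p) (h : Equ p q) (h' : Equ q r) : Equ p r := by
  obtain ⟨v, h1, h2⟩ := h
  obtain ⟨w, h3, h4⟩ := h'
  have hv := mul_of_star_mul hp h1
  have hq : P q := by rw [← h2]; exact hp.of_star h1
  have hw := mul_of_star_mul hq h3
  refine ⟨w * v, ?_, ?_⟩
  · calc star (w * v) * (w * v) = star v * (star w * w) * v := by
          rw [star_mul]; simp only [mul_assoc]
      _ = star v * (v * star v) * v := by rw [h3, h2]
      _ = (star v * v) * (star v * v) := by simp only [mul_assoc]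
      _ = p := by rw [h1, hp.i]
  · calc w * v * star (w * v) = w * (v * star v) * star w := by
          rw [star_mul]; simp only [mul_assoc]
      _ = r := by rw [h2, hw, h4]

theorem Equ.add {p q p' q' : A} (hp : P p) (hp' : P p') (hq : P q)
    (h : Equ p q) (h' : Equ p' q')
    (h1 : p * p' = 0) (h2 : q * q' = 0) : Equ (p + p') (q + q') := by
  obtain ⟨v, v1, v2⟩ := h
  obtain ⟨w, w1, w2⟩ := h'
  have hv := mul_of_star_mul hp v1
  have hw := mul_of_star_mul hp' w1
  have hv' : q * v = v := by rw [← v2, mul_assoc, v1, hv]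
  have hw' : q' * w = w := by rw [← w2, mul_assoc, w1, hw]
  have a1 : star v * w = 0 := by
    rw [← hv', ← hw', star_mul, hq.s]
    simp only [mul_assoc, re h2, zero_mul, mul_zero]
  have a2 : star w * v = 0 := by
    have := congrArg star a1
    rwa [star_mul, star_star, star_zero] at this
  have a3 : v * star w = 0 := by
    rw [← hv, ← hw, star_mul, hp'.s]
    simp only [mul_assoc, re h1, zero_mul, mul_zero]
  have a4 : w * star v = 0 := by
    have := congrArg star a3
    rwa [star_mul, star_star, star_zero] at this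
  refine ⟨v + w, ?_, ?_⟩
  · rw [star_add, add_mul, mul_add, mul_add, v1, w1, a1, a2]; abel
  · rw [star_add, add_mul, mul_add, mul_add, v2, w2, a3, a4]; abel

theorem Equ.sub {p q : A} (hp : P p) (h : Equ p q) : Sub p q := by
  obtain ⟨v, h1, h2⟩ := h
  exact ⟨v, h1, by rw [← h2, mul_assoc, h1, mul_of_star_mul hp h1]⟩

theorem Sub.iff {p q : A} (hp : P p) : Sub p q ↔ ∃ q', P q' ∧ q * q' = q' ∧ Equ p q' := by
  constructor
  · rintro ⟨v, h1, h2⟩
    exact ⟨v * star v, hp.of_star h1, by rw [← mul_assoc, h2], v, h1, rfl⟩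
  · rintro ⟨q', h1, h2, v, h3, h4⟩
    refine ⟨v, h3, ?_⟩
    have : q' * v = v := by rw [← h4, mul_assoc, h3, mul_of_star_mul hp h3]
    rw [← this, ← mul_assoc, h2]

theorem Sub.of_le {p q : A} (hp : P p) (h : q * p = p) : Sub p q :=
  ⟨p, by rw [hp.s, hp.i], h⟩

theorem Sub.refl {p : A} (hp : P p) : Sub p p := Sub.of_le hp hp.i

theorem Sub.trans {p q r : A} (h : Sub p q) (h' : Sub q r) : Sub p r := by
  obtain ⟨v, h1, h2⟩ := h
  obtain ⟨w, h3, h4⟩ := h'
  refine ⟨w * v, ?_, by rw [← mul_assoc, h4]⟩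
  calc star (w * v) * (w * v) = star v * ((star w * w) * v) := by
        rw [star_mul]; simp only [mul_assoc]
    _ = p := by rw [h3, h2, h1]

theorem Sub.add {p q p' q' : A} (hq : P q)
    (h : Sub p q) (h' : Sub p' q') (h2 : q * q' = 0) (h3 : q' * q = 0) :
    Sub (p + p') (q + q') := by
  obtain ⟨v, v1, v2⟩ := h
  obtain ⟨w, w1, w2⟩ := h'
  have a1 : star v * w = 0 := by
    rw [← v2, ← w2, star_mul, hq.s]
    simp only [mul_assoc, re h2, zero_mul, mul_zero]
  have a2 : star w * v = 0 := by
    have := congrArg star a1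
    rwa [star_mul, star_star, star_zero] at this
  refine ⟨v + w, ?_, ?_⟩
  · rw [star_add, add_mul, mul_add, mul_add, v1, w1, a1, a2]; abel
  · have b1 : q' * v = 0 := by rw [← v2, ← mul_assoc, h3, zero_mul]
    have b2 : q * w = 0 := by rw [← w2, ← mul_assoc, h2, zero_mul]
    rw [add_mul, mul_add, mul_add, v2, w2, b1, b2]; abel

theorem Sub.mono {p q r : A} (h : Sub p q) (h' : r * q = q) : Sub p r := by
  obtain ⟨v, h1, h2⟩ := h
  exact ⟨v, h1, by rw [← h2, ← mul_assoc, h']⟩

theorem Sub.mono_left {p q r : A} (hr : P r) (h : Sub p q) (h' : p * r = r) :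
    Sub r q := Sub.trans (Sub.of_le hr h') h

/-- perturbation of an isomorphism by a small element -/
theorem Iso.perturb {p q x y d : A} (h1 : q * x = x) (h2 : x * p = x) (h3 : p * y = y)
    (h4 : y * q = y) (h5 : y * x = p) (h6 : x * y = q) (hd1 : q * d = d) (hd2 : d * p = d)
    (hn : ‖y * d‖ < 1) : Iso p q (x + d) := by
  have hI : Iso p q x := ⟨h1, h2, y, h3, h4, h5, h6⟩
  have hp := hI.idem_left
  -- the unit `1 + y d`
  have hu : IsUnit (1 + y * d) := by
    have := isUnit_one_sub_of_norm_lt_one (x := -(y * d)) (by rwa [norm_neg])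
    rwa [sub_neg_eq_add] at this
  obtain ⟨u, hu⟩ := hu
  have c1 : (1 + y * d) * p = p + y * d := by rw [add_mul, one_mul, mul_assoc, hd2]
  have c2 : p * (1 + y * d) = p + y * d := by rw [mul_add, mul_one, ← mul_assoc, h3]
  have hcomm : (u : A) * p = p * u := by rw [hu, c1, c2]
  have hcomm' : (↑u⁻¹ : A) * p = p * ↑u⁻¹ := by
    have : (↑u⁻¹ : A) * (u * p) * ↑u⁻¹ = ↑u⁻¹ * (p * u) * ↑u⁻¹ := by rw [hcomm]
    rw [← mul_assoc, Units.inv_mul, one_mul, mul_assoc, mul_assoc p, Units.mul_inv, mul_one] at this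
    exact this.symm
  have hpy : Iso p p (p + y * d) := by
    refine ⟨by rw [mul_add, hp, ← mul_assoc, h3], by rw [add_mul, hp, mul_assoc, hd2],
      ↑u⁻¹ * p, ?_, ?_, ?_, ?_⟩
    · rw [hcomm', ← mul_assoc, hp]
    · rw [mul_assoc, hp]
    · calc (↑u⁻¹ : A) * p * (p + y * d) = ↑u⁻¹ * (p * p * u) := by
            rw [← c2, ← hu]; simp only [mul_assoc]
        _ = p := by rw [hp, ← hcomm, Units.inv_mul_cancel_left]
    · calc (p + y * d) * ((↑u⁻¹ : A) * p) = u * (p * ↑u⁻¹) * p := by
            rw [← c1, ← hu]; simp only [mul_assoc]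
        _ = p := by rw [← hcomm', Units.mul_inv_cancel_left, hp]
  have h := hpy.comp hI
  have e : x * (p + y * d) = x + d := by rw [mul_add, h2, ← mul_assoc, h6, hd1]
  rwa [e] at h

/-- polar decomposition of an element bounded below on `d` -/
theorem polar {d x m : A} (hd : P d) (hm : m * (d * (star x * x) * d) = d) :
    ∃ v c c', star v * v = d ∧ v = x * c ∧ x * d = v * c' ∧ d * c = c ∧ c * d = c ∧
      d * c' = c' ∧ c' * d = c' ∧ c * c' = d ∧ c' * c = d ∧ ∃ g, c' = star g * g := by
  letI := CStarAlgebra.spectralOrder A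
  haveI := CStarAlgebra.spectralOrderedRing A
  set h := d * (star x * x) * d with hh
  have hsa : star h = h := by
    rw [hh, star_mul, star_mul, star_mul, star_star, hd.s]; simp only [mul_assoc]
  have hdh : d * h = h := by rw [hh]; simp only [← mul_assoc, hd.i]
  have hhd : h * d = h := by rw [hh]; simp only [mul_assoc, hd.i]
  -- two sided inverse
  set n := d * m * d with hn
  have hdn : d * n = n := by rw [hn]; simp only [← mul_assoc, hd.i]
  have hnd : n * d = n := by rw [hn]; simp only [mul_assoc, hd.i]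
  have hnh : n * h = d := by
    rw [hn, mul_assoc, hdh, mul_assoc, hm, hd.i]
  have hhn' : h * star n = d := by
    have := congrArg star hnh
    rwa [star_mul, hsa, hd.s] at this
  have hns : star n = n := by
    calc star n = d * star n := by
          have := congrArg star hnd
          rw [star_mul, hd.s] at this; exact this.symm
      _ = n * (h * star n) := by rw [← mul_assoc, hnh]
      _ = n := by rw [hhn', hnd]
  have hhn : h * n = d := by rw [← hns, hhn']
  -- the positive invertible element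
  have hpos : 0 ≤ h := by
    have : h = star (x * d) * (x * d) := by
      rw [hh, star_mul, hd.s]; simp only [mul_assoc]
    rw [this]; exact star_mul_self_nonneg _
  have hd1 : P (1 - d) := hd.one_sub
  set k := h + (1 - d) with hk
  have hkpos : 0 ≤ k := add_nonneg hpos hd1.nonneg
  have hkd : k * d = h := by rw [hk, add_mul, hhd, sub_mul, one_mul, hd.i, sub_self, add_zero]
  have hdk : d * k = h := by rw [hk, mul_add, hdh, mul_sub, mul_one, hd.i, sub_self, add_zero]
  have hcomm : Commute k d := by rw [Commute, SemiconjBy, hkd, hdk]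
  have hkunit : IsUnit k := by
    refine ⟨⟨k, n + (1 - d), ?_, ?_⟩, rfl⟩
    · rw [hk, add_mul, mul_add, mul_add, hhn, mul_sub, mul_one, hhd, sub_mul, one_mul, hdn,
        hd1.i]; abel
    · rw [hk, add_mul, mul_add, mul_add, hnh, mul_sub, mul_one, hnd, sub_mul, one_mul, hdh,
        hd1.i]; abel
  set r := CFC.sqrt k with hr
  have hrr : r * r = k := CFC.sqrt_mul_sqrt_self k hkpos
  have hrs : star r = r := (CFC.sqrt_nonneg k).isSelfAdjoint
  have hru : IsUnit r := (CFC.isUnit_sqrt_iff k hkpos).2 hkunit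
  have hrd : Commute r d := by
    rw [hr, CFC.sqrt_eq_cfc]
    exact Commute.cfc_nnreal hcomm _
  obtain ⟨u, hu⟩ := hru
  have hus : star (↑u⁻¹ : A) = ↑u⁻¹ := by
    have h1 : star (u : A) * star (↑u⁻¹ : A) = 1 := by
      rw [← star_mul, Units.inv_mul, star_one]
    rw [hu, hrs, ← hu] at h1
    calc star (↑u⁻¹ : A) = (↑u⁻¹ * ↑u) * star (↑u⁻¹ : A) := by rw [Units.inv_mul, one_mul]
      _ = ↑u⁻¹ := by rw [mul_assoc, h1, mul_one]
  have hud : (↑u⁻¹ : A) * d = d * ↑u⁻¹ := by
    have h2 : (u : A) * d = d * u := by rw [hu]; exact hrd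
    have : (↑u⁻¹ : A) * (u * d) * ↑u⁻¹ = ↑u⁻¹ * (d * u) * ↑u⁻¹ := by rw [h2]
    rw [← mul_assoc, Units.inv_mul, one_mul, mul_assoc, mul_assoc d, Units.mul_inv, mul_one] at this
    exact this.symm
  have hud' : (u : A) * d = d * u := by rw [hu]; exact hrd
  refine ⟨x * (↑u⁻¹ * d), ↑u⁻¹ * d, u * d, ?_, rfl, ?_, ?_, ?_, ?_, ?_, ?_, ?_, ?_⟩
  · calc star (x * (↑u⁻¹ * d)) * (x * (↑u⁻¹ * d)) =
        d * ↑u⁻¹ * (star x * x) * (↑u⁻¹ * d) := by
          rw [star_mul, star_mul, hus, hd.s]; simp only [mul_assoc]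
      _ = ↑u⁻¹ * (d * (star x * x) * d) * ↑u⁻¹ := by
          rw [hud, ← hud]; 
          rw [show (↑u⁻¹ : A) * d = d * ↑u⁻¹ from hud]
          rw [show d * ↑u⁻¹ * (star x * x) * (d * ↑u⁻¹) =
            (d * ↑u⁻¹) * (star x * x) * (d * ↑u⁻¹) from rfl, ← hud]
          simp only [mul_assoc]
          rw [hud]
      _ = ↑u⁻¹ * (u * u * d) * ↑u⁻¹ := by
          rw [← hh, ← hkd, ← hrr, ← hu]
      _ = d := by
          rw [mul_assoc (u : A), hud', ← mul_assoc (u : A), hud', ← mul_assoc, ← mul_assoc,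
            hud]
          simp only [mul_assoc, Units.mul_inv, mul_one, Units.inv_mul_cancel_left]
  · calc x * d = x * (↑u⁻¹ * (d * (u * d))) := by
          rw [hud', ← mul_assoc d d, hd.i, ← hud', Units.inv_mul_cancel_left]
      _ = x * (↑u⁻¹ * d) * (u * d) := by simp only [mul_assoc]
  · rw [hud, ← mul_assoc, hd.i]
  · rw [mul_assoc, hd.i]
  · rw [hud', ← mul_assoc, hd.i]
  · rw [mul_assoc, hd.i]
  · rw [mul_assoc, hud', ← mul_assoc d, hd.i, ← hud', Units.inv_mul_cancel_left]
  · rw [mul_assoc, hud, ← mul_assoc d, hd.i, ← hud, ← mul_assoc, Units.mul_inv, one_mul]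
  · obtain ⟨g, hg⟩ := CStarAlgebra.nonneg_iff_eq_star_mul_self.1 (CFC.sqrt_nonneg k)
    refine ⟨g * d, ?_⟩
    rw [star_mul, hd.s]
    calc (u : A) * d = u * (d * d) := by rw [hd.i]
      _ = d * u * d := by rw [← mul_assoc, hud']
      _ = d * star g * (g * d) := by rw [hu, hr, hg]; simp only [mul_assoc]

end Pool.Agent.H54.AW
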