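import Pool.Agent.H54.AW.Defs
import Pool.Agent.H54.AW.Proj

set_option autoImplicit false
set_option linter.unusedSectionVars false

namespace Pool.Agent.H54.AW

variable {A : Type*} [CStarAlgebra A]

/-- Any star-closed pairwise commuting set is contained in a masa. -/
theorem exists_masa (X : Set A) (hX1 : ∀ x ∈ X, ∀ y ∈ X, x * y = y * x)
    (hX2 : ∀ x ∈ X, star x ∈ X) : ∃ C : StarSubalgebra ℂ A, IsMasa C ∧ X ⊆ C := by
  obtain ⟨M, hXM, hM⟩ := zorn_subset_nonempty
    {Y : Set A | (∀ x ∈ Y, ∀ y ∈ Y, x * y = y * x) ∧ (∀ x ∈ Y, star x ∈ Y)}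
    (by
      intro c hc hchain hne
      refine ⟨⋃₀ c, ⟨?_, ?_⟩, fun s hs => Set.subset_sUnion_of_mem hs⟩
      · rintro x ⟨s, hs, hx⟩ y ⟨t, ht, hy⟩
        rcases hchain.total hs ht with h | h
        · exact (hc ht).1 x (h hx) y hy
        · exact (hc hs).1 x hx y (h hy)
      · rintro x ⟨s, hs, hx⟩
        exact ⟨s, hs, (hc hs).2 x hx⟩) X ⟨hX1, hX2⟩
  have hM1 := hM.prop.1
  have hM2 := hM.prop.2
  -- an element commuting with `M` with star closed
  have key : ∀ z : A, (∀ x ∈ M, x * z = z * x) → z * star z = star z * z → z ∈ M := by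
    intro z hz hn
    have hz' : ∀ x ∈ M, x * star z = star z * x := by
      intro x hx
      have := congrArg star (hz (star x) (hM2 x hx))
      rw [star_mul, star_mul, star_star] at this
      exact this.symm
    have hY : (M ∪ {z, star z}) ∈ {Y : Set A | (∀ x ∈ Y, ∀ y ∈ Y, x * y = y * x) ∧
        (∀ x ∈ Y, star x ∈ Y)} := by
      refine ⟨?_, ?_⟩
      · rintro x (hx | rfl | rfl) y (hy | rfl | rfl)
        · exact hM1 x hx y hy
        · exact hz x hx
        · exact hz' x hx
        · exact (hz y hy).symm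
        · rfl
        · exact hn
        · exact (hz' y hy).symm
        · exact hn.symm
        · rfl
      · rintro x (hx | rfl | rfl)
        · exact Or.inl (hM2 x hx)
        · exact Or.inr (Or.inr rfl)
        · exact Or.inr (Or.inl (star_star _))
    have := hM.eq_of_subset hY Set.subset_union_left
    rw [this]
    exact Or.inr (Or.inl rfl)
  let C : StarSubalgebra ℂ A :=
    { carrier := M
      mul_mem' := by
        intro a b ha hb
        refine key _ ?_ ?_
        · intro x hx
          rw [← mul_assoc, hM1 x hx a ha, mul_assoc, hM1 x hx b hb, mul_assoc]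
        · have h1 := hM1 a ha b hb
          have h2 := hM1 a ha _ (hM2 a ha)
          have h3 := hM1 a ha _ (hM2 b hb)
          have h4 := hM1 b hb _ (hM2 a ha)
          have h5 := hM1 b hb _ (hM2 b hb)
          rw [star_mul]
          calc a * b * (star b * star a) = a * (b * star b) * star a := by simp only [mul_assoc]
            _ = star b * (a * b) * star a := by rw [h5, ← mul_assoc, h3]; simp only [mul_assoc]
            _ = star b * star a * (a * b) := by
                have : a * b * star a = star a * (a * b) := by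
                  rw [mul_assoc, h4, ← mul_assoc, h2, mul_assoc]
                rw [mul_assoc, this]; simp only [mul_assoc]
      one_mem' := key 1 (fun x _ => by rw [mul_one, one_mul]) (by simp)
      add_mem' := by
        intro a b ha hb
        refine key _ ?_ ?_
        · intro x hx
          rw [mul_add, add_mul, hM1 x hx a ha, hM1 x hx b hb]
        · rw [star_add, add_mul, mul_add, mul_add, add_mul, mul_add, mul_add,
            hM1 a ha _ (hM2 a ha), hM1 a ha _ (hM2 b hb), hM1 b hb _ (hM2 a ha),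
            hM1 b hb _ (hM2 b hb)]
          abel
      zero_mem' := key 0 (fun x _ => by simp) (by simp)
      algebraMap_mem' := by
        intro r
        refine key _ (fun x _ => (Algebra.commutes r x).symm) ?_
        exact Algebra.commutes r _
      star_mem' := fun {a} ha => hM2 a ha }
  refine ⟨C, ⟨hM1, ?_⟩, hXM⟩
  intro D hD hCD
  have : M = (D : Set A) := hM.eq_of_subset ⟨hD, fun x hx => star_mem hx⟩ hCD
  apply SetLike.coe_injective
  exact this.symm

/-- a simple element: complex combination of orthogonal projections of `C` with sum one. -/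
def Simple (C : StarSubalgebra ℂ A) (x : A) : Prop :=
  ∃ (ι : Type) (_ : Fintype ι) (d : ι → A) (c : ι → ℂ), (∀ i, d i ∈ C ∧ P (d i)) ∧
    (∀ i j, i ≠ j → d i * d j = 0) ∧ ∑ i, d i = 1 ∧ x = ∑ i, c i • d i

theorem Simple.binary {C : StarSubalgebra ℂ A} (hC : ∀ x ∈ C, ∀ y ∈ C, x * y = y * x)
    {x y : A} (hx : Simple C x) (hy : Simple C y) :
    ∃ (ι : Type) (_ : Fintype ι) (d : ι → A) (c c' : ι → ℂ), (∀ i, d i ∈ C ∧ P (d i)) ∧
    (∀ i j, i ≠ j → d i * d j = 0) ∧ ∑ i, d i = 1 ∧ x = ∑ i, c i • d i ∧ y = ∑ i, c' i • d i := by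
  obtain ⟨ι, _, d, c, h1, h2, h3, h4⟩ := hx
  obtain ⟨κ, _, d', c', h1', h2', h3', h4'⟩ := hy
  refine ⟨ι × κ, inferInstance, fun k => d k.1 * d' k.2, fun k => c k.1, fun k => c' k.2,
    ?_, ?_, ?_, ?_, ?_⟩
  · rintro ⟨i, j⟩
    exact ⟨mul_mem (h1 i).1 (h1' j).1, (h1 i).2.mul (h1' j).2 (hC _ (h1 i).1 _ (h1' j).1)⟩
  · rintro ⟨i, j⟩ ⟨i', j'⟩ hne
    change d i * d' j * (d i' * d' j') = 0
    have e : d i * d' j * (d i' * d' j') = (d i * d i') * (d' j * d' j') := by
      calc d i * d' j * (d i' * d' j') = d i * (d' j * d i') * d' j' := by simp only [mul_assoc]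
        _ = _ := by rw [hC _ (h1' j).1 _ (h1 i').1]; simp only [mul_assoc]
    rw [e]
    by_cases hi : i = i'
    · subst hi
      have hj : j ≠ j' := fun h => hne (by rw [h])
      rw [h2' j j' hj, mul_zero]
    · rw [h2 i i' hi, zero_mul]
  · rw [Fintype.sum_prod_type]
    simp only [← Finset.mul_sum, h3', mul_one, h3]
  · rw [Fintype.sum_prod_type, h4]
    simp only [← Finset.smul_sum, ← Finset.mul_sum, h3', mul_one]
  · rw [Fintype.sum_prod_type_right, h4']
    simp only [← Finset.smul_sum, ← Finset.sum_mul, h3, one_mul]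

theorem Simple.mul_aux {ι : Type} [Fintype ι] {d : ι → A} {c c' : ι → ℂ} (h1 : ∀ i, P (d i))
    (h2 : ∀ i j, i ≠ j → d i * d j = 0) :
    (∑ i, c i • d i) * (∑ i, c' i • d i) = ∑ i, (c i * c' i) • d i := by
  classical
  rw [Finset.sum_mul_sum]
  apply Finset.sum_congr rfl
  intro i _
  rw [Finset.sum_eq_single i]
  · rw [smul_mul_smul_comm, (h1 i).i]
  · intro j _ hj
    rw [smul_mul_smul_comm, h2 i j (Ne.symm hj), smul_zero]
  · intro h; exact absurd (Finset.mem_univ i) h

theorem simple_of_mem_adjoin {C : StarSubalgebra ℂ A} (hC : ∀ x ∈ C, ∀ y ∈ C, x * y = y * x)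
    {x : A} (hx : x ∈ StarAlgebra.adjoin ℂ {p : A | p ∈ C ∧ IsStarProjection p}) :
    Simple C x := by
  induction hx using StarAlgebra.adjoin_induction with
  | mem p hp =>
    refine ⟨Bool, inferInstance, fun b => if b then p else 1 - p, fun b => if b then 1 else 0,
      ?_, ?_, ?_, ?_⟩
    · intro b
      cases b
      · simpa using ⟨sub_mem (one_mem C) hp.1, hp.2.one_sub⟩
      · simpa using hp
    · intro b b' hne
      cases b <;> cases b' <;> simp_all [mul_sub, sub_mul, P.i]
    · simp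
    · simp
  | algebraMap r =>
    refine ⟨Unit, inferInstance, fun _ => 1, fun _ => r, ?_, ?_, ?_, ?_⟩
    · intro _; exact ⟨one_mem C, IsStarProjection.one A⟩
    · intro i j h; exact absurd (Subsingleton.elim i j) h
    · simp
    · simp [Algebra.algebraMap_eq_smul_one]
  | add x y _ _ hx hy =>
    obtain ⟨ι, _, d, c, c', h1, h2, h3, h4, h5⟩ := Simple.binary hC hx hy
    exact ⟨ι, _, d, fun i => c i + c' i, h1, h2, h3, by
      rw [h4, h5, ← Finset.sum_add_distrib]; simp only [add_smul]⟩
  | mul x y _ _ hx hy =>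
    obtain ⟨ι, _, d, c, c', h1, h2, h3, h4, h5⟩ := Simple.binary hC hx hy
    exact ⟨ι, _, d, fun i => c i * c' i, h1, h2, h3, by
      rw [h4, h5, Simple.mul_aux (fun i => (h1 i).2) h2]⟩
  | star x _ hx =>
    obtain ⟨ι, _, d, c, h1, h2, h3, h4⟩ := hx
    refine ⟨ι, _, d, fun i => star (c i), h1, h2, h3, ?_⟩
    rw [h4, star_sum]
    apply Finset.sum_congr rfl
    intro i _
    rw [star_smul, (h1 i).2.s]

/-- Finite decomposition lemma. -/
theorem fd (hA : IsAWStar A) {e T : A} (he : P e) (hT : star T = T) (h1 : e * T = T)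
    {ε : ℝ} (hε : 0 < ε) :
    ∃ (ι : Type) (_ : Fintype ι) (d : ι → A) (c : ι → ℂ), (∀ i, P (d i)) ∧
      (∀ i j, i ≠ j → d i * d j = 0) ∧ ∑ i, d i = e ∧ (∀ i, d i * T = T * d i) ∧
      ‖T - ∑ i, c i • d i‖ < ε := by
  have h2 : T * e = T := by
    have := congrArg star h1
    rwa [star_mul, he.s, hT] at this
  obtain ⟨C, hC, hXC⟩ := exists_masa {T, e}
    (by
      rintro x (rfl | rfl) y (rfl | rfl)
      · rfl
      · rw [h1, h2]
      · rw [h1, h2]
      · rfl)
    (by
      rintro x (rfl | rfl)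
      · left; exact hT
      · right; exact he.s)
  have hTC : T ∈ C := hXC (Or.inl rfl)
  have heC : e ∈ C := hXC (Or.inr rfl)
  have hcl := hA.masa C hC hTC
  have hcl' : T ∈ closure (↑(StarAlgebra.adjoin ℂ {p : A | p ∈ C ∧ IsStarProjection p}) : Set A) :=
    hcl
  obtain ⟨y, hy, hd⟩ := Metric.mem_closure_iff.1 hcl' ε hε
  obtain ⟨ι, hι, d, c, g1, g2, g3, g4⟩ := simple_of_mem_adjoin hC.1 hy
  refine ⟨ι, hι, fun i => d i * e, c, ?_, ?_, ?_, ?_, ?_⟩
  · intro i
    exact (g1 i).2.mul he (hC.1 _ (g1 i).1 _ heC)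
  · intro i j hij
    calc d i * e * (d j * e) = d i * (e * d j) * e := by simp only [mul_assoc]
      _ = (d i * d j) * (e * e) := by rw [hC.1 _ heC _ (g1 j).1]; simp only [mul_assoc]
      _ = 0 := by rw [g2 i j hij, zero_mul]
  · rw [← Finset.sum_mul, g3, one_mul]
  · intro i
    exact hC.1 _ (mul_mem (g1 i).1 heC) _ hTC
  · have e1 : T - ∑ i, c i • (d i * e) = (T - y) * e := by
      rw [sub_mul, h2, g4, Finset.sum_mul]
      simp only [smul_mul_assoc]
    rw [e1]
    calc ‖(T - y) * e‖ ≤ ‖T - y‖ * ‖e‖ := norm_mul_le _ _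
      _ ≤ ‖T - y‖ * 1 := by
          apply mul_le_mul_of_nonneg_left _ (norm_nonneg _)
          exact IsStarProjection.norm_le e he
      _ = ‖T - y‖ := mul_one _
      _ < ε := by rwa [← dist_eq_norm]

end Pool.Agent.H54.AW
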