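import Pool.Agent.H54.AW.Sup

set_option autoImplicit false
set_option linter.unusedSectionVars false

namespace Pool.Agent.H54.AW

variable {A : Type*} [CStarAlgebra A]

/-- A nonzero element dominates a nonzero partial isometry. -/
theorem exists_pisom (hA : IsAWStar A) {x p q : A} (hp : P p) (hxp : x * p = x) (hqx : q * x = x)
    (hx : x ≠ 0) : ∃ w, P (star w * w) ∧ w ≠ 0 ∧ p * (star w * w) = star w * w ∧ q * w = w := by
  have hpos : 0 < ‖x‖ := norm_pos_iff.2 hx
  obtain ⟨d, m, hd, hpd, -, -, -, hm, -, hn⟩ := cut hA x hp (ε := ‖x‖ / 2) (by positivity)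
  have hd0 : d ≠ 0 := by
    rintro rfl
    rw [sub_zero, hxp] at hn
    linarith
  obtain ⟨v, c, c', hv, hvx, -⟩ := polar hd hm
  refine ⟨v, by rw [hv]; exact hd, ?_, by rw [hv, hpd], by rw [hvx, ← mul_assoc, hqx]⟩
  rintro rfl
  rw [mul_zero] at hv
  exact hd0 hv.symm

/-- The central projection of the left annihilator of `A f`. -/
theorem exists_central (hA : IsAWStar A) (f : A) : ∃ h, P h ∧ (∀ a, h * a = a * h) ∧
    (∀ a, h * a * f = 0) ∧ ∀ x, (∀ a, x * a * f = 0) → x * h = x := by
  obtain ⟨S, hS⟩ := zorn_subset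
    {S : Set A | (∀ p ∈ S, P p ∧ p ≠ 0 ∧ ∀ a, p * a * f = 0) ∧
      (∀ p ∈ S, ∀ q ∈ S, p ≠ q → p * q = 0)}
    (by
      intro c hc hchain
      refine ⟨⋃₀ c, ⟨?_, ?_⟩, fun s hs => Set.subset_sUnion_of_mem hs⟩
      · rintro x ⟨s, hs, hx⟩
        exact (hc hs).1 x hx
      · rintro x ⟨s, hs, hx⟩ y ⟨t, ht, hy⟩
        rcases hchain.total hs ht with h | h
        · exact (hc ht).2 x (h hx) y hy
        · exact (hc hs).2 x hx y (h hy))
  have hS1 := hS.prop.1
  have hS2 := hS.prop.2
  obtain ⟨h, hh⟩ := exists_isSup hA (fun p : S => (p : A)) (fun p => (hS1 _ p.2).1)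
    (fun p q hpq => hS2 _ p.2 _ q.2 (fun h => hpq (Subtype.ext h)))
  have h1 : ∀ a, h * a * f = 0 := by
    intro a
    rw [mul_assoc]
    apply hh.ann' (fun p => (hS1 _ p.2).1)
    intro p
    rw [← mul_assoc]
    exact (hS1 _ p.2).2.2 a
  have h2 : ∀ x, (∀ a, x * a * f = 0) → x * h = x := by
    intro x hx
    by_contra hne
    have hy : x * (1 - h) ≠ 0 := by
      rw [mul_sub, mul_one]; exact fun h => hne (sub_eq_zero.1 h).symm
    set y := x * (1 - h) with hyd
    have hpos : 0 < ‖y‖ := norm_pos_iff.2 hy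
    have h1h : P (1 - h) := hh.proj.one_sub
    obtain ⟨d, m, hd, hpd, -, -, -, hm, -, hn⟩ := cut hA y h1h (ε := ‖y‖ / 2) (by positivity)
    have hd0 : d ≠ 0 := by
      rintro rfl
      rw [sub_zero, hyd, mul_assoc, h1h.i, ← hyd] at hn
      linarith
    have hhd : h * d = 0 := by
      rw [sub_mul, one_mul] at hpd
      exact sub_eq_self.1 hpd
    have hdS : ∀ a, d * a * f = 0 := by
      intro a
      have h3 : y * d * a * f = 0 := by
        have := hx ((1 - h) * d * a)
        rw [hyd]; rw [← this]; simp only [mul_assoc]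
      calc d * a * f = m * (d * (star y * y) * d) * a * f := by rw [hm]
        _ = m * (d * (star y * (y * d * a * f))) := by simp only [mul_assoc]
        _ = 0 := by rw [h3, mul_zero, mul_zero, mul_zero]
    have horth : ∀ p ∈ S, p * d = 0 := by
      intro p hp
      have : p * h = p := (hS1 p hp).1.swap hh.proj (hh.le ⟨p, hp⟩)
      rw [← this, mul_assoc, hhd, mul_zero]
    have hmem : S ∪ {d} ∈ {S : Set A | (∀ p ∈ S, P p ∧ p ≠ 0 ∧ ∀ a, p * a * f = 0) ∧
      (∀ p ∈ S, ∀ q ∈ S, p ≠ q → p * q = 0)} := by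
      refine ⟨?_, ?_⟩
      · rintro p (hp | rfl)
        · exact hS1 p hp
        · exact ⟨hd, hd0, hdS⟩
      · rintro p (hp | rfl) q (hq | rfl) hne
        · exact hS2 p hp q hq hne
        · exact horth p hp
        · exact (hS1 q hq).1.orth hd (horth q hq)
        · exact absurd rfl hne
    have heq := hS.eq_of_subset hmem Set.subset_union_left
    have hdS' : d ∈ S := by rw [heq]; exact Or.inr rfl
    have := horth d hdS'
    rw [hd.i] at this
    exact hd0 this
  refine ⟨h, hh.proj, ?_, h1, h2⟩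
  have h3 : ∀ a, h * a * h = h * a := fun a => h2 (h * a) (fun b => by
    rw [mul_assoc h a b]; exact h1 _)
  intro a
  have h4 := congrArg star (h3 (star a))
  rw [star_mul, star_mul, star_star, hh.proj.s] at h4
  rw [← h3 a, mul_assoc]; exact h4

/-- partial comparison of two orthogonal projections -/
theorem compare_orth (hA : IsAWStar A) {p q : A} (hp : P p) (hq : P q) (hpq : p * q = 0) :
    ∃ p0 q0, P p0 ∧ P q0 ∧ p * p0 = p0 ∧ q * q0 = q0 ∧ Equ p0 q0 ∧
      ∀ a, (q - q0) * a * (p - p0) = 0 := by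
  obtain ⟨V, hV⟩ := zorn_subset
    {V : Set A | (∀ v ∈ V, P (star v * v) ∧ p * (star v * v) = star v * v ∧ q * v = v ∧ v ≠ 0) ∧
      (∀ v ∈ V, ∀ w ∈ V, v ≠ w → v * star w = 0 ∧ star v * w = 0)}
    (by
      intro c hc hchain
      refine ⟨⋃₀ c, ⟨?_, ?_⟩, fun s hs => Set.subset_sUnion_of_mem hs⟩
      · rintro x ⟨s, hs, hx⟩
        exact (hc hs).1 x hx
      · rintro x ⟨s, hs, hx⟩ y ⟨t, ht, hy⟩
        rcases hchain.total hs ht with h | h
        · exact (hc ht).2 x (h hx) y hy
        · exact (hc hs).2 x hx y (h hy))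
  have hV1 := hV.prop.1
  have hV2 := hV.prop.2
  have hpv : ∀ v : V, P (star (v : A) * v) := fun v => (hV1 _ v.2).1
  have hqv : ∀ v : V, P ((v : A) * star (v : A)) := fun v => (hpv v).of_star rfl
  have horthp : ∀ v w : V, v ≠ w → star (v : A) * v * (star (w : A) * w) = 0 := fun v w hne => by
    have := (hV2 _ v.2 _ w.2 (fun h => hne (Subtype.ext h))).1
    rw [mul_assoc, ← mul_assoc (v : A), this, zero_mul, mul_zero]
  have horthq : ∀ v w : V, v ≠ w → (v : A) * star (v : A) * ((w : A) * star (w : A)) = 0 := fun v w hne => by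
    have := (hV2 _ v.2 _ w.2 (fun h => hne (Subtype.ext h))).2
    rw [mul_assoc, ← mul_assoc (star (v : A)), this, zero_mul, mul_zero]
  obtain ⟨p0, hp0⟩ := exists_isSup hA (fun v : V => star (v : A) * v) hpv horthp
  obtain ⟨q0, hq0⟩ := exists_isSup hA (fun v : V => (v : A) * star (v : A)) hqv horthq
  have hpp0 : p * p0 = p0 := hp0.le_of (fun v => (hV1 _ v.2).2.1)
  have hqq0 : q * q0 = q0 := hq0.le_of (fun v => by
    rw [← mul_assoc, (hV1 _ v.2).2.2.1])
  have hcross : ∀ v w : V, star (v : A) * v * ((w : A) * star (w : A)) = 0 := by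
    intro v w
    have h1 : star (v : A) * v = star (v : A) * v * p := (((hpv v).swap hp (hV1 _ v.2).2.1)).symm
    have h2 : p * (w : A) = 0 := by
      rw [← (hV1 _ w.2).2.2.1, ← mul_assoc, hpq, zero_mul]
    rw [h1, mul_assoc, ← mul_assoc p, h2, zero_mul, mul_zero]
  refine ⟨p0, q0, hp0.proj, hq0.proj, hpp0, hqq0,
    Equ.sup_orth hA hpv horthp horthq hcross (fun v => ⟨v, rfl, rfl⟩) hp0 hq0, ?_⟩
  intro a
  by_contra hne
  have hpp : P (p - p0) := hp0.proj.sub hp hpp0
  have hqq : P (q - q0) := hq0.proj.sub hq hqq0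
  obtain ⟨w, hw1, hw2, hw3, hw4⟩ := exists_pisom hA (x := (q - q0) * a * (p - p0)) (p := p - p0)
    (q := q - q0) hpp (by rw [mul_assoc, hpp.i]) (by rw [← mul_assoc, ← mul_assoc, hqq.i]) hne
  have hww : w * (star w * w) = w := mul_of_star_mul hw1 rfl
  have hwp : w * (p - p0) = w := by
    have : star w * w * (p - p0) = star w * w := hw1.swap hpp hw3
    rw [← hww, mul_assoc, this]
  have hp0w : w * p0 = 0 := by
    rw [← hwp, mul_assoc, sub_mul, hpp0, hp0.proj.i, sub_self, mul_zero]
  have hq0w : q0 * w = 0 := by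
    rw [← hw4, ← mul_assoc, mul_sub, hq0.proj.i, (hq0.proj.swap hq hqq0), sub_self, zero_mul]
  have hwv : ∀ v ∈ V, w * star v = 0 ∧ star w * v = 0 := by
    intro v hv
    have h1 : v * p0 = v := by
      have e1 := hp0.le ⟨v, hv⟩
      have e2 : star v * v * p0 = star v * v := (hpv ⟨v, hv⟩).swap hp0.proj e1
      have e3 : v * (star v * v) = v := mul_of_star_mul (hpv ⟨v, hv⟩) rfl
      calc v * p0 = v * (star v * v) * p0 := by rw [e3]
        _ = v * (star v * v * p0) := by rw [mul_assoc]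
        _ = v := by rw [e2, e3]
    have h2 : q0 * v = v := by
      have e1 : q0 * (v * star v) = v * star v := hq0.le ⟨v, hv⟩
      have e3 : v * (star v * v) = v := mul_of_star_mul (hpv ⟨v, hv⟩) rfl
      calc q0 * v = q0 * (v * (star v * v)) := by rw [e3]
        _ = q0 * (v * star v) * v := by simp only [mul_assoc]
        _ = v := by rw [e1, mul_assoc, e3]
    constructor
    · have : p0 * star v = star v := by
        have := congrArg star h1
        rwa [star_mul, hp0.proj.s] at this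
      rw [← this, ← mul_assoc, hp0w, zero_mul]
    · have : star w * q0 = 0 := by
        have := congrArg star hq0w
        rwa [star_mul, hq0.proj.s, star_zero] at this
      rw [← h2, ← mul_assoc, this, zero_mul]
  have hmem : V ∪ {w} ∈ {V : Set A | (∀ v ∈ V, P (star v * v) ∧ p * (star v * v) = star v * v ∧
      q * v = v ∧ v ≠ 0) ∧ (∀ v ∈ V, ∀ w ∈ V, v ≠ w → v * star w = 0 ∧ star v * w = 0)} := by
    refine ⟨?_, ?_⟩
    · rintro v (hv | rfl)
      · exact hV1 v hv
      · refine ⟨hw1, ?_, ?_, hw2⟩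
        · rw [← hw3, ← mul_assoc, mul_sub, hp.i, hpp0]
        · rw [← hw4, ← mul_assoc, mul_sub, hq.i, hqq0]
    · rintro v (hv | rfl) v' (hv' | rfl) hne
      · exact hV2 v hv v' hv' hne
      · have := hwv v hv
        have e1 := congrArg star this.1
        have e2 := congrArg star this.2
        rw [star_mul, star_star, star_zero] at e1 e2
        exact ⟨e1, e2⟩
      · exact hwv v' hv'
      · exact absurd rfl hne
  have heq := hV.eq_of_subset hmem Set.subset_union_left
  have hwV : w ∈ V := by rw [heq]; exact Or.inr rfl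
  have := (hwv w hwV).2
  rw [this] at hww
  rw [mul_zero] at hww
  exact hw2 hww.symm

/-- partial comparison of two arbitrary projections -/
theorem compare_gen (hA : IsAWStar A) {e f : A} (he : P e) (hf : P f) :
    ∃ e0 f0, P e0 ∧ P f0 ∧ e * e0 = e0 ∧ f * f0 = f0 ∧ Equ e0 f0 ∧
      ∀ a, (f - f0) * a * (e - e0) = 0 := by
  obtain ⟨d, m, hd, hed, -, -, -, hm, -, hn⟩ := cut hA ((1 - f) * e) he (ε := 1 / 2) (by norm_num)
  obtain ⟨v, c, c', hv, hvx, -⟩ := polar hd hm
  have hfv : f * v = 0 := by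
    rw [hvx, ← mul_assoc, ← mul_assoc, mul_sub, mul_one, hf.i, sub_self, zero_mul, zero_mul]
  have hde : d * e = d := hd.swap he hed
  have he' : P (e - d) := hd.sub he hed
  set e' := e - d with he'd
  -- the part under `f`
  have hee' : e * e' = e' := by rw [he'd, mul_sub, he.i, hed]
  have he'e : e' * e = e' := he'.swap he hee'
  have hde' : d * e' = 0 := by rw [he'd, mul_sub, hde, hd.i, sub_self]
  have hsmall : ‖e' * (1 - f) * e'‖ ≤ 1 / 4 := by
    have h1f : P (1 - f) := hf.one_sub
    have e1 : e' * (1 - f) * e' = star ((1 - f) * e * e') * ((1 - f) * e * e') := by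
      rw [mul_assoc (1 - f), hee', star_mul, he'.s, h1f.s]
      simp only [mul_assoc, re h1f.i]
    rw [e1, CStarRing.norm_star_mul_self]
    nlinarith [norm_nonneg ((1 - f) * e * e')]
  have hiso : Iso e' e' (e' + -(e' * (1 - f) * e')) := by
    apply Iso.perturb he'.i he'.i he'.i he'.i he'.i he'.i
    · rw [mul_neg]; simp only [← mul_assoc, he'.i]
    · rw [neg_mul]; simp only [mul_assoc, he'.i]
    · rw [mul_neg, norm_neg]
      have : e' * (e' * (1 - f) * e') = e' * (1 - f) * e' := by simp only [← mul_assoc, he'.i]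
      rw [this]; linarith
  obtain ⟨-, -, m', -, -, hm', -⟩ := hiso
  have hm'' : m' * (e' * (star (f * e') * (f * e')) * e') = e' := by
    have e1 : e' * (star (f * e') * (f * e')) * e' = e' + -(e' * (1 - f) * e') := by
      rw [star_mul, hf.s, he'.s]
      have e2 : e' * (1 - f) * e' = e' - e' * f * e' := by
        rw [mul_sub e' 1 f, mul_one, sub_mul e' _ e', he'.i]
      rw [e2]
      simp only [mul_assoc, re he'.i, re hf.i, he'.i]
      abel
    rw [e1, hm']
  obtain ⟨v', c1, c1', hv', hvx', -⟩ := polar he' hm''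
  have hfv' : f * v' = v' := by
    rw [hvx', ← mul_assoc, ← mul_assoc, hf.i]
  have hf1 : P (v' * star v') := he'.of_star hv'
  set f1 := v' * star v' with hf1d
  have hff1 : f * f1 = f1 := by rw [hf1d, ← mul_assoc, hfv']
  have hf2 : P (f - f1) := hf1.sub hf hff1
  have hd' : P (v * star v) := hd.of_star hv
  set d' := v * star v with hd'd
  have hfd' : f * d' = 0 := by rw [hd'd, ← mul_assoc, hfv, zero_mul]
  have hd'f : d' * f = 0 := hf.orth hd' hfd'
  have hf1f : f1 * f = f1 := hf1.swap hf hff1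
  have hd'f1 : d' * f1 = 0 := by rw [← hff1, ← mul_assoc, hd'f, zero_mul]
  obtain ⟨d0', f0', hd0', hf0', g1, g2, g3, g4⟩ := compare_orth hA hd' hf2
    (by rw [mul_sub, hd'f, hd'f1, sub_zero])
  have hvd : v * d = v := mul_of_star_mul hd hv
  have hd'v : d' * v = v := by rw [hd'd, mul_assoc, hv, hvd]
  -- pull back
  have hd0d : star v * d0' * v = star (d0' * v) * (d0' * v) := by
    rw [star_mul, hd0'.s]; simp only [mul_assoc, re hd0'.i]
  have hg1' : d0' * d' = d0' := hd0'.swap hd' g1
  have hd0eq : Equ (star v * d0' * v) d0' := by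
    refine ⟨d0' * v, hd0d.symm, ?_⟩
    rw [star_mul, hd0'.s]
    calc d0' * v * (star v * d0') = d0' * ((v * star v) * d0') := by simp only [mul_assoc]
      _ = d0' := by rw [← hd'd, g1, hd0'.i]
  have hd0 : P (star v * d0' * v) := Equ.proj hd0' hd0eq.symm
  have hdv : d * star v = star v := by
    have := congrArg star hvd
    rwa [star_mul, hd.s] at this
  have hdd0 : d * (star v * d0' * v) = star v * d0' * v := by
    rw [← mul_assoc, ← mul_assoc, hdv]
  have hff0 : f * f0' = f0' := by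
    rw [← g2, ← mul_assoc, mul_sub, hf.i, hff1]
  have hf1f0 : f1 * f0' = 0 := by
    rw [← g2, ← mul_assoc, mul_sub, hf1f, hf1.i, sub_self, zero_mul]
  have he'd0 : e' * (star v * d0' * v) = 0 := by
    rw [← hdd0, ← mul_assoc, hd.orth he' hde', zero_mul]
  refine ⟨e' + star v * d0' * v, f1 + f0', he'.add hd0 he'd0, hf1.add hf0' hf1f0, ?_, ?_, ?_, ?_⟩
  · rw [mul_add, hee', ← hdd0, ← mul_assoc e d, hed]
  · rw [mul_add, hff1, hff0]
  · exact Equ.add he' hd0 hf1 ⟨v', hv', rfl⟩ (hd0eq.trans hd0 g3) he'd0 hf1f0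
  · intro a
    have e1 : e - (e' + star v * d0' * v) = star v * (d' - d0') * v := by
      have : star v * d' * v = d := by
        rw [mul_assoc, hd'v, hv]
      rw [mul_sub, sub_mul, this, he'd]; abel
    have e2 : f - (f1 + f0') = f - f1 - f0' := by abel
    rw [e1, e2]
    calc (f - f1 - f0') * a * (star v * (d' - d0') * v) =
        ((f - f1 - f0') * (a * star v) * (d' - d0')) * v := by simp only [mul_assoc]
      _ = 0 := by rw [g4, zero_mul]

theorem IsFactor.prime (hA : IsAWStar A) (hF : IsFactor A) {x f : A}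
    (h : ∀ a, x * a * f = 0) : x = 0 ∨ f = 0 := by
  obtain ⟨z, hz, hc, h1, h2⟩ := exists_central hA f
  obtain ⟨c, rfl⟩ := hF z hc
  by_cases h0 : c = 0
  · left
    have := h2 x h
    rw [h0, zero_smul, mul_zero] at this
    exact this.symm
  · right
    have := h1 1
    rw [mul_one, smul_mul_assoc, one_mul] at this
    exact (smul_eq_zero.1 this).resolve_left h0

theorem compare (hA : IsAWStar A) (hF : IsFactor A) {e f : A} (he : P e) (hf : P f) :
    Sub e f ∨ Sub f e := by
  obtain ⟨e0, f0, he0, hf0, h1, h2, h3, h4⟩ := compare_gen hA he hf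
  rcases hF.prime hA h4 with h | h
  · right
    rw [sub_eq_zero] at h
    rw [h, Sub.iff hf0]
    exact ⟨e0, he0, h1, h3.symm⟩
  · left
    rw [sub_eq_zero] at h
    rw [h, Sub.iff he0]
    exact ⟨f0, hf0, h2, h3⟩

end Pool.Agent.H54.AW
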