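import Pool.Agent.H54.AW.Factor

set_option autoImplicit false
set_option linter.unusedSectionVars false

namespace Pool.Agent.H54.AW

variable {A : Type*} [CStarAlgebra A]

section shift

variable {e v : A}

/-- the elements `v ^ n * g`. -/
theorem shift_aux (he : P e) (hv : star v * v = e) (hev : e * v = v) (n : ℕ) :
    e * (v ^ n * (e - v * star v)) = v ^ n * (e - v * star v) := by
  cases n with
  | zero => rw [pow_zero, one_mul, mul_sub, he.i, ← mul_assoc, hev]
  | succ n => rw [pow_succ', mul_assoc, ← mul_assoc, hev]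

theorem shift_self (he : P e) (hv : star v * v = e) (hev : e * v = v) (n : ℕ) :
    star (v ^ n * (e - v * star v)) * (v ^ n * (e - v * star v)) = e - v * star v := by
  have hf : P (v * star v) := he.of_star hv
  have hg : P (e - v * star v) := hf.sub he (by rw [← mul_assoc, hev])
  induction n with
  | zero => rw [pow_zero, one_mul, hg.s, hg.i]
  | succ n ih =>
    have e1 : v ^ (n + 1) * (e - v * star v) = v * (v ^ n * (e - v * star v)) := by
      rw [pow_succ', mul_assoc]
    rw [e1, star_mul, mul_assoc, ← mul_assoc (star v), hv, shift_aux he hv hev, ih]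

theorem shift_orth (he : P e) (hv : star v * v = e) (hev : e * v = v) (m n : ℕ) (h : m ≠ n) :
    star (v ^ m * (e - v * star v)) * (v ^ n * (e - v * star v)) = 0 := by
  have hf : P (v * star v) := he.of_star hv
  have hve : v * e = v := mul_of_star_mul he hv
  have hg : P (e - v * star v) := hf.sub he (by rw [← mul_assoc, hev])
  have hgv : (e - v * star v) * v = 0 := by
    rw [sub_mul, hev, mul_assoc, hv, hve, sub_self]
  have key : ∀ m k : ℕ, star (v ^ m * (e - v * star v)) *
      (v ^ (m + (k + 1)) * (e - v * star v)) = 0 := by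
    intro m k
    induction m with
    | zero => rw [pow_zero, one_mul, hg.s, zero_add, pow_succ', mul_assoc, ← mul_assoc, hgv,
        zero_mul]
    | succ m ih =>
      have e1 : v ^ (m + 1) * (e - v * star v) = v * (v ^ m * (e - v * star v)) := by
        rw [pow_succ', mul_assoc]
      have e2 : v ^ (m + 1 + (k + 1)) * (e - v * star v) =
          v * (v ^ (m + (k + 1)) * (e - v * star v)) := by
        rw [show m + 1 + (k + 1) = (m + (k + 1)) + 1 by ring, pow_succ', mul_assoc]
      rw [e1, e2, star_mul, mul_assoc, ← mul_assoc (star v), hv, shift_aux he hv hev, ih]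
  rcases lt_or_gt_of_ne h with h | h
  · obtain ⟨k, rfl⟩ := Nat.exists_eq_add_of_lt h
    exact key m k
  · obtain ⟨k, rfl⟩ := Nat.exists_eq_add_of_lt h
    have := congrArg star (key n k)
    rwa [star_mul, star_star, star_zero] at this

theorem shift_proj (he : P e) (hv : star v * v = e) (hev : e * v = v) (n : ℕ) :
    P (v ^ n * (e - v * star v) * star (v ^ n * (e - v * star v))) := by
  have hf : P (v * star v) := he.of_star hv
  have hg : P (e - v * star v) := hf.sub he (by rw [← mul_assoc, hev])
  exact hg.of_star (shift_self he hv hev n)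

theorem shift_proj_orth (he : P e) (hv : star v * v = e) (hev : e * v = v) (m n : ℕ)
    (h : m ≠ n) : v ^ m * (e - v * star v) * star (v ^ m * (e - v * star v)) *
      (v ^ n * (e - v * star v) * star (v ^ n * (e - v * star v))) = 0 := by
  rw [mul_assoc, ← mul_assoc (star _), shift_orth he hv hev m n h, zero_mul, mul_zero]

end shift

/-- Schröder-Bernstein, special case -/
theorem schroeder (hA : IsAWStar A) {e f : A} (he : P e) (hf : P f) (hfe : e * f = f)
    (h : Sub e f) : Equ e f := by
  obtain ⟨v, hv, hfv⟩ := h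
  have hev : e * v = v := by rw [← hfv, ← mul_assoc, hfe]
  have hve : v * e = v := mul_of_star_mul he hv
  -- use the projection `g = e - v v*`, then enlarge by hand
  have hg : P (e - f) := hf.sub he hfe
  set g := e - f with hgd
  let u : ℕ → A := fun n => v ^ n * g
  have hgv : g * v = 0 := by rw [hgd, sub_mul, hev, hfv, sub_self]
  have heg : e * g = g := by rw [hgd, mul_sub, he.i, hfe]
  have hu1 : ∀ n, e * u n = u n := by
    intro n
    cases n with
    | zero => simp only [u, pow_zero, one_mul, heg]
    | succ n => simp only [u, pow_succ', mul_assoc]; rw [← mul_assoc, hev]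
  have husucc : ∀ n, u (n + 1) = v * u n := fun n => by simp only [u, pow_succ', mul_assoc]
  have hus : ∀ n, star (u n) * u n = g := by
    intro n
    induction n with
    | zero => simp only [u, pow_zero, one_mul, hg.s, hg.i]
    | succ n ih => rw [husucc, star_mul, mul_assoc, ← mul_assoc (star v), hv, hu1, ih]
  have huo : ∀ m k, star (u m) * u (m + (k + 1)) = 0 := by
    intro m k
    induction m with
    | zero =>
      rw [zero_add, husucc]
      simp only [u, pow_zero, one_mul, hg.s]
      rw [← mul_assoc, hgv, zero_mul]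
    | succ m ih =>
      rw [show m + 1 + (k + 1) = (m + (k + 1)) + 1 by ring, husucc, husucc, star_mul, mul_assoc,
        ← mul_assoc (star v), hv, hu1, ih]
  have huo' : ∀ m n, m ≠ n → star (u m) * u n = 0 := by
    intro m n h
    rcases lt_or_gt_of_ne h with h | h
    · obtain ⟨k, rfl⟩ := Nat.exists_eq_add_of_lt h
      exact huo m k
    · obtain ⟨k, rfl⟩ := Nat.exists_eq_add_of_lt h
      have := congrArg star (huo n k)
      rwa [star_mul, star_star, star_zero] at this
  let G : ℕ → A := fun n => u n * star (u n)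
  have hGP : ∀ n, P (G n) := fun n => hg.of_star (hus n)
  have hGo : ∀ m n, m ≠ n → G m * G n = 0 := fun m n h => by
    simp only [G]
    rw [mul_assoc, ← mul_assoc (star _), huo' m n h, zero_mul, mul_zero]
  have heG : ∀ n, e * G n = G n := fun n => by simp only [G]; rw [← mul_assoc, hu1]
  have hG0 : G 0 = g := by simp only [G, u, pow_zero, one_mul, hg.s, hg.i]
  have hGs : ∀ n, v * G n * star v = G (n + 1) := fun n => by
    simp only [G, husucc, star_mul]; simp only [mul_assoc]
  obtain ⟨s, hs⟩ := exists_isSup hA G hGP hGo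
  have hes : e * s = s := hs.le_of heG
  have hse : s * e = s := hs.proj.swap he hes
  have hsg : s * g = g := by rw [← hG0]; exact hs.le 0
  have hgs : g * s = g := hg.swap hs.proj hsg
  have h1 : IsSup (fun n => v * G n * star v) (v * s * star v) := hs.conj he hv heG hGP
  have h2 : IsSup (fun n => v * G n * star v) (s - g) := by
    refine ⟨hg.sub hs.proj hsg, ?_, ?_⟩
    · intro n
      change (s - g) * (v * G n * star v) = _
      rw [hGs, sub_mul, hs.le, ← hG0, hGo 0 (n + 1) (by omega), sub_zero]
    · intro y hy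
      have := hs.ann (y * (1 - g)) (fun n => by
        cases n with
        | zero => rw [hG0, mul_assoc, sub_mul, one_mul, hg.i, sub_self, mul_zero]
        | succ n =>
          have e1 : g * G (n + 1) = 0 := by rw [← hG0]; exact hGo 0 (n + 1) (by omega)
          have e2 := hy n
          change y * (v * G n * star v) = 0 at e2
          rw [hGs] at e2
          rw [mul_assoc, sub_mul, one_mul, e1, sub_zero, e2])
      rw [mul_assoc, sub_mul, one_mul, hgs] at this
      exact this
  have h3 : v * s * star v = s - g := h1.unique h2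
  have h4 : v * s = (s - g) * v := by
    rw [← h3]
    have : v * s * star v * v = v * s * (star v * v) := by simp only [mul_assoc]
    rw [this, hv, mul_assoc, hse]
  have h5 : (e - s) * (v * s) = 0 := by
    rw [h4, ← mul_assoc]
    have : (e - s) * (s - g) = 0 := by
      rw [sub_mul, mul_sub e s g, mul_sub s s g, hes, heg, hs.proj.i, hsg]; abel
    rw [this, zero_mul]
  have hes' : P (e - s) := hs.proj.sub he hes
  have h6 : star (v * s) * (e - s) = 0 := by
    have := congrArg star h5
    rwa [star_mul, hes'.s, star_zero] at this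
  have h7 : (v * s) * (e - s) = 0 := by
    rw [mul_assoc, mul_sub, hse, hs.proj.i, sub_self, mul_zero]
  have h8 : (e - s) * star (v * s) = 0 := by
    have := congrArg star h7
    rwa [star_mul, hes'.s, star_zero] at this
  refine ⟨v * s + (e - s), ?_, ?_⟩
  · rw [star_add, hes'.s, add_mul, mul_add, mul_add, h5, h6, hes'.i, star_mul, hs.proj.s]
    have : s * star v * (v * s) = s := by
      rw [mul_assoc, ← mul_assoc (star v), hv, hes, hs.proj.i]
    rw [this]; abel
  · rw [star_add, hes'.s, add_mul, mul_add, mul_add, h7, h8, hes'.i, star_mul, hs.proj.s]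
    have : v * s * (s * star v) = s - g := by
      rw [← h3]; simp only [mul_assoc, re hs.proj.i]
    rw [this, hgd]; abel

theorem schroeder' (hA : IsAWStar A) {e f : A} (he : P e) (hf : P f) (h1 : Sub e f)
    (h2 : Sub f e) : Equ e f := by
  rw [Sub.iff hf] at h2
  obtain ⟨e', he', h3, h4⟩ := h2
  have h5 : Sub e e' := h1.trans (h4.sub hf)
  exact (schroeder hA he he' h3 h5).trans he h4.symm

/-- Infinite projections. -/
def Infinite' (e : A) : Prop := ∃ v, star v * v = e ∧ e * v = v ∧ v * star v ≠ e

/-- Properly infinite projections. -/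
def PI (e : A) : Prop :=
  ∃ a b, star a * a = e ∧ star b * b = e ∧ star a * b = 0 ∧ e * a = a ∧ e * b = b

theorem PI.equ {e f : A} (he : P e) (h : PI e) (hef : Equ e f) : PI f := by
  obtain ⟨a, b, h1, h2, h3, h4, h5⟩ := h
  obtain ⟨w, hw1, hw2⟩ := hef
  have hwe := mul_of_star_mul he hw1
  have hfw : f * w = w := by rw [← hw2, mul_assoc, hw1, hwe]
  refine ⟨w * a * star w, w * b * star w, ?_, ?_, ?_, ?_, ?_⟩
  · rw [star_mul, star_mul, star_star]
    calc w * (star a * star w) * (w * a * star w) =
        w * (star a * ((star w * w) * a)) * star w := by simp only [mul_assoc]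
      _ = f := by rw [hw1, h4, h1, hwe, hw2]
  · rw [star_mul, star_mul, star_star]
    calc w * (star b * star w) * (w * b * star w) =
        w * (star b * ((star w * w) * b)) * star w := by simp only [mul_assoc]
      _ = f := by rw [hw1, h5, h2, hwe, hw2]
  · rw [star_mul, star_mul, star_star]
    calc w * (star a * star w) * (w * b * star w) =
        w * (star a * ((star w * w) * b)) * star w := by simp only [mul_assoc]
      _ = 0 := by rw [hw1, h5, h3, mul_zero, zero_mul]
  · rw [← mul_assoc, ← mul_assoc, hfw]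
  · rw [← mul_assoc, ← mul_assoc, hfw]

theorem exists_sum_equiv (J : Type*) [Infinite J] : Nonempty (J ⊕ J ≃ J) := by
  have h : Cardinal.mk (J ⊕ J) = Cardinal.mk J := by
    rw [Cardinal.mk_sum, Cardinal.lift_id]
    exact Cardinal.add_eq_self (Cardinal.aleph0_le_mk J)
  exact Cardinal.eq.1 h

theorem halving (hA : IsAWStar A) (hF : IsFactor A) {e : A} (he : P e) (hinf : Infinite' e) :
    PI e := by
  obtain ⟨v, hv, hev, hne⟩ := hinf
  have hf : P (v * star v) := he.of_star hv
  have hg : P (e - v * star v) := hf.sub he (by rw [← mul_assoc, hev])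
  have hg0 : e - v * star v ≠ 0 := fun h => hne (sub_eq_zero.1 h).symm
  set g := e - v * star v with hgd
  let G0 : ℕ → A := fun n => v ^ n * g * star (v ^ n * g)
  have hG0P : ∀ n, P (G0 n) := shift_proj he hv hev
  have hG0e : ∀ n, Equ g (G0 n) := fun n => ⟨v ^ n * g, shift_self he hv hev n, rfl⟩
  have hG0o : ∀ m n, m ≠ n → G0 m * G0 n = 0 := shift_proj_orth he hv hev
  have hne0 : ∀ p, Equ g p → p ≠ 0 := by
    rintro p ⟨w, hw1, hw2⟩ rfl
    have : star w * w = 0 := by
      have h1 : star (star w) * star w = 0 := by rw [star_star]; exact hw2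
      have h2 : star w = 0 := star_mul_self_zero h1
      rw [h2, zero_mul]
    rw [hw1] at this; exact hg0 this
  obtain ⟨S, hXS, hS⟩ := zorn_subset_nonempty
    {S : Set A | (∀ p ∈ S, P p ∧ e * p = p ∧ Equ g p) ∧ (∀ p ∈ S, ∀ q ∈ S, p ≠ q → p * q = 0)}
    (by
      intro c hc hchain _
      refine ⟨⋃₀ c, ⟨?_, ?_⟩, fun s hs => Set.subset_sUnion_of_mem hs⟩
      · rintro x ⟨s, hs, hx⟩
        exact (hc hs).1 x hx
      · rintro x ⟨s, hs, hx⟩ y ⟨t, ht, hy⟩
        rcases hchain.total hs ht with h | h
        · exact (hc ht).2 x (h hx) y hy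
        · exact (hc hs).2 x hx y (h hy)) (Set.range G0)
    ⟨by
      rintro _ ⟨n, rfl⟩
      refine ⟨hG0P n, ?_, hG0e n⟩
      simp only [G0]
      rw [← mul_assoc, shift_aux he hv hev], by
      rintro _ ⟨m, rfl⟩ _ ⟨n, rfl⟩ h
      exact hG0o m n (fun h' => h (by rw [h']))⟩
  have hS1 := hS.prop.1
  have hS2 := hS.prop.2
  have hinj : Function.Injective G0 := by
    intro m n h
    by_contra hne
    have h1 := hG0o m n hne
    rw [← h, (hG0P m).i] at h1
    exact hne0 _ (hG0e m) h1
  haveI : Infinite S := by
    have : (Set.range G0).Infinite := Set.infinite_range_of_injective hinj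
    exact (this.mono hXS).to_subtype
  obtain ⟨φ⟩ := exists_sum_equiv S
  let a : S → A := fun j => (φ (Sum.inl j) : A)
  let b : S → A := fun j => (φ (Sum.inr j) : A)
  have hgP : ∀ j : S, P (j : A) := fun j => (hS1 _ j.2).1
  have hgo : ∀ i j : S, i ≠ j → (i : A) * (j : A) = 0 := fun i j h =>
    hS2 _ i.2 _ j.2 (fun h' => h (Subtype.ext h'))
  have hge : ∀ i j : S, Equ (i : A) (j : A) := fun i j =>
    (hS1 _ i.2).2.2.symm.trans (hgP i) (hS1 _ j.2).2.2
  have hao : ∀ i j, i ≠ j → a i * a j = 0 := fun i j h => hgo _ _ (fun h' => h (by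
    have := φ.injective h'; exact Sum.inl_injective this))
  have hbo : ∀ i j, i ≠ j → b i * b j = 0 := fun i j h => hgo _ _ (fun h' => h (by
    have := φ.injective h'; exact Sum.inr_injective this))
  have habo : ∀ i j, a i * b j = 0 := fun i j => hgo _ _ (fun h' => by
    have := φ.injective h'; exact Sum.inl_ne_inr this)
  obtain ⟨Ga, hGa⟩ := exists_isSup hA a (fun j => hgP _) hao
  obtain ⟨Gb, hGb⟩ := exists_isSup hA b (fun j => hgP _) hbo
  have hGab : Ga * Gb = 0 := hGa.orth_sup hGb (fun j => hgP _) habo
  have hsum : IsSup (Sum.elim a b) (Ga + Gb) := hGa.sum_elim hGb hGab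
  have hG : IsSup (fun j : S => (j : A)) (Ga + Gb) := by
    have := hsum.reindex φ.symm φ.symm.surjective
    convert this using 1
    funext j
    obtain ⟨k, rfl⟩ := φ.surjective j
    rw [Equiv.symm_apply_apply]
    cases k <;> rfl
  have hEab : Equ Ga Gb := Equ.sup_orth hA (fun j => hgP _) hao hbo habo
    (fun j => hge _ _) hGa hGb
  -- split `Ga`
  let aa : S → A := fun j => a (φ (Sum.inl j))
  let ab : S → A := fun j => a (φ (Sum.inr j))
  have haao : ∀ i j, i ≠ j → aa i * aa j = 0 := fun i j h => hao _ _ (fun h' => h (by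
    have := φ.injective h'; exact Sum.inl_injective this))
  have habo' : ∀ i j, i ≠ j → ab i * ab j = 0 := fun i j h => hao _ _ (fun h' => h (by
    have := φ.injective h'; exact Sum.inr_injective this))
  have haab : ∀ i j, aa i * ab j = 0 := fun i j => hao _ _ (fun h' => by
    have := φ.injective h'; exact Sum.inl_ne_inr this)
  obtain ⟨Gaa, hGaa⟩ := exists_isSup hA aa (fun j => hgP _) haao
  obtain ⟨Gab', hGab'⟩ := exists_isSup hA ab (fun j => hgP _) habo'
  have ho2 : Gaa * Gab' = 0 := hGaa.orth_sup hGab' (fun j => hgP _) haab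
  have hsum2 : IsSup a (Gaa + Gab') := by
    have := (hGaa.sum_elim hGab' ho2).reindex φ.symm φ.symm.surjective
    convert this using 1
    funext j
    obtain ⟨k, rfl⟩ := φ.surjective j
    rw [Equiv.symm_apply_apply]
    cases k <;> rfl
  have hGaeq : Ga = Gaa + Gab' := hGa.unique hsum2
  have hE1 : Equ Gaa Gb := Equ.sup_orth hA (fun j => hgP _) haao hbo (fun i j => habo _ _)
    (fun j => hge _ _) hGaa hGb
  have hE2 : Equ Gab' Gb := Equ.sup_orth hA (fun j => hgP _) habo' hbo (fun i j => habo _ _)
    (fun j => hge _ _) hGab' hGb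
  have hEG : Equ Ga (Ga + Gb) := by
    have := Equ.add hGaa.proj hGab'.proj hGa.proj (hE1.trans hGaa.proj hEab.symm) hE2 ho2 hGab
    rwa [← hGaeq] at this
  have heG : e * (Ga + Gb) = Ga + Gb := hG.le_of (fun j => (hS1 _ j.2).2.1)
  have hGP : P (Ga + Gb) := hG.proj
  have hh : P (e - (Ga + Gb)) := hGP.sub he heG
  obtain ⟨j0⟩ : Nonempty S := inferInstance
  have hsub : Sub (e - (Ga + Gb)) g := by
    rcases compare hA hF hh hg with h | h
    · exact h
    · exfalso
      rw [Sub.iff hg] at h
      obtain ⟨g', hg', h1, h2⟩ := h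
      have hGg : (Ga + Gb) * g' = 0 := by
        rw [← h1, ← mul_assoc, mul_sub, hGP.i, hGP.swap he heG, sub_self, zero_mul]
      have horth : ∀ p ∈ S, p * g' = 0 := by
        intro p hp
        have : p * (Ga + Gb) = p := (hS1 p hp).1.swap hGP (hG.le ⟨p, hp⟩)
        rw [← this, mul_assoc, hGg, mul_zero]
      have hmem : S ∪ {g'} ∈ {S : Set A | (∀ p ∈ S, P p ∧ e * p = p ∧ Equ g p) ∧
          (∀ p ∈ S, ∀ q ∈ S, p ≠ q → p * q = 0)} := by
        refine ⟨?_, ?_⟩
        · rintro p (hp | rfl)
          · exact hS1 p hp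
          · refine ⟨hg', ?_, h2⟩
            rw [← h1, ← mul_assoc, mul_sub, he.i, heG]
        · rintro p (hp | rfl) q (hq | rfl) hne
          · exact hS2 p hp q hq hne
          · exact horth p hp
          · exact (hS1 q hq).1.orth hg' (horth q hq)
          · exact absurd rfl hne
      have heq := hS.eq_of_subset hmem Set.subset_union_left
      have hgS : g' ∈ S := by rw [heq]; exact Or.inr rfl
      have := horth g' hgS
      rw [hg'.i] at this
      exact hne0 _ h2 this
  have hsub2 : Sub (e - (Ga + Gb)) Gb := by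
    have h1 : Sub g (b j0) := ((hS1 _ (φ (Sum.inr j0)).2).2.2).sub hg
    exact (hsub.trans h1).mono (hGb.le j0)
  have hGba : Gb * Ga = 0 := hGa.proj.orth hGb.proj hGab
  have hsub3 : Sub e (Ga + Gb) := by
    have := Sub.add hGa.proj (hEG.symm.sub hGP) hsub2 hGab hGba
    rwa [add_sub_cancel] at this
  have hfin : Equ e (Ga + Gb) := schroeder hA he hGP heG hsub3
  have hEa : Equ e Ga := hfin.trans he hEG.symm
  have hEb : Equ e Gb := hEa.trans he hEab
  obtain ⟨x, hx1, hx2⟩ := hEa
  obtain ⟨y, hy1, hy2⟩ := hEb
  have hxG : Ga * x = x := by rw [← hx2, mul_assoc, hx1, mul_of_star_mul he hx1]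
  have hyG : Gb * y = y := by rw [← hy2, mul_assoc, hy1, mul_of_star_mul he hy1]
  have heGa : e * Ga = Ga := by
    have : (Ga + Gb) * Ga = Ga := by rw [add_mul, hGa.proj.i, hGba, add_zero]
    rw [← this, ← mul_assoc, heG]
  have heGb : e * Gb = Gb := by
    have : (Ga + Gb) * Gb = Gb := by rw [add_mul, hGb.proj.i, hGab, zero_add]
    rw [← this, ← mul_assoc, heG]
  refine ⟨x, y, hx1, hy1, ?_, ?_, ?_⟩
  · rw [← hxG, ← hyG, star_mul, hGa.proj.s, mul_assoc, ← mul_assoc Ga, hGab, zero_mul, mul_zero]
  · rw [← hxG, ← mul_assoc, heGa]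
  · rw [← hyG, ← mul_assoc, heGb]

end Pool.Agent.H54.AW
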