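import Pool.Agent.H54.AW.Finite

set_option autoImplicit false
set_option linter.unusedSectionVars false

namespace Pool.Agent.H54.AW

universe u

variable {A : Type u} [CStarAlgebra A]

/-- reduction to a small corner -/
theorem clean_of_small {e g x : A} {c : ℂ} (he : P e) (hg : P g) (heg : e * g = g)
    (hx1 : e * x = x) (hx2 : x * e = x) (hc : 1 / 2 ≤ ‖c‖)
    (hn : ‖(e - g) * (x - c • e) * (e - g)‖ ≤ 1 / 4)
    (h : ∀ y, g * y = y → y * g = y → CleanIn g y) : CleanIn e x := by
  have hge := hg.swap he heg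
  have hk : P (e - g) := hg.sub he heg
  have hkg : (e - g) * g = 0 := by rw [sub_mul, heg, hg.i, sub_self]
  have hgk := hg.orth hk (hk.orth hg hkg)
  have hgk' : g * (e - g) = 0 := hk.orth hg hkg
  set k := e - g with hkd
  clear_value k
  have hke : k * e = k := by rw [hkd, sub_mul, he.i, hge]
  have hkk : k * x * k = c • k + k * (x - c • e) * k := by
    rw [mul_sub, sub_mul, mul_smul_comm, hke, smul_mul_assoc, hk.i]; abel
  obtain ⟨m, m1, m2, m3, m4⟩ := scalar_perturb (c := c) (d := k * (x - c • e) * k) hk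
    (by simp only [← mul_assoc, hk.i]) (by simp only [mul_assoc, hk.i])
    (lt_of_le_of_lt hn (by linarith))
  rw [← hkk] at m3 m4
  have hsum : k + g = e := by rw [hkd]; abel
  have := CleanIn.schur (k := k) (g := g) (x := x) (m := m) hk.i hg.i hkg hgk' (by rw [hsum, hx1])
    (by rw [hsum, hx2]) m1 m2 m3 m4 (h _ (by
      rw [mul_sub]; simp only [← mul_assoc, hg.i]) (by
      rw [sub_mul]; simp only [mul_assoc, hg.i]))
  rwa [hsum] at this

theorem clean_corner (hA : IsAWStar A) (hF : IsFactor A) : ∀ e : A, P e →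
    ∀ x, e * x = x → x * e = x → CleanIn e x := by
  apply size_induction hA hF
  · intro e he hfin x h1 h2
    exact clean_of_finite hA hF he hfin h1 h2
  · intro e he hPI he0 ih x h1 h2
    rcases dich hA hF he hPI he0 h1 h2 (ε := 1 / 4) (by norm_num) with h | ⟨c, g, g1, g2, g3, g4⟩
    · exact h.clean hA he hPI h1 h2
    · by_cases hc : 1 / 2 ≤ ‖c‖
      · exact clean_of_small he g1 g2 h1 h2 hc g4 (ih g g1 g2 g3)
      · apply CleanIn.compl he.i
        apply clean_of_small (c := 1 - c) he g1 g2 (by rw [mul_sub, he.i, h1])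
          (by rw [sub_mul, he.i, h2]) ?_ ?_ (ih g g1 g2 g3)
        · rw [not_le] at hc
          have : (1 : ℝ) ≤ ‖(1 : ℂ) - c‖ + ‖c‖ := by
            calc (1 : ℝ) = ‖(1 : ℂ)‖ := by norm_num
              _ = ‖(1 - c) + c‖ := by ring_nf
              _ ≤ _ := norm_add_le _ _
          linarith
        · have e1 : e - x - (1 - c) • e = -(x - c • e) := by
            rw [sub_smul, one_smul]; abel
          rw [e1, mul_neg, neg_mul, norm_neg]
          exact g4

/-- Every AW*-factor is clean. -/
theorem main (hA : IsAWStar A) (hF : IsFactor A) : IsClean A := by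
  intro x
  obtain ⟨f, h1, -, -, -, -, y, -, -, h5, h6⟩ := clean_corner hA hF 1 (IsStarProjection.one A) x
    (one_mul x) (mul_one x)
  exact ⟨x - f, f, ⟨⟨x - f, y, h6, h5⟩, rfl⟩, h1, by rw [sub_add_cancel]⟩

end Pool.Agent.H54.AW
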