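import Pool.Agent.H54.AW.Size

set_option autoImplicit false
set_option linter.unusedSectionVars false

namespace Pool.Agent.H54.AW

universe u

variable {A : Type u} [CStarAlgebra A]

/-- An element with a left inverse is bounded below. -/
theorem exists_inv_of_left {e a l : A} (he : P e) (hae : a * e = a) (hl : l * a = e) :
    ∃ m, m * (e * (star a * a) * e) = e := by
  let _ := CStarAlgebra.spectralOrder A
  have _ := CStarAlgebra.spectralOrderedRing A
  have hea : e * star a = star a := by
    have := congrArg star hae
    rwa [star_mul, he.s] at this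
  set c : ℝ := ‖l‖ ^ 2 + 1 with hc
  have hc1 : (1 : ℝ) ≤ c := by rw [hc]; nlinarith [sq_nonneg ‖l‖]
  have hc0 : (0 : ℝ) < c := by linarith
  have h1 : star l * l ≤ algebraMap ℝ A (‖l‖ ^ 2) := CStarAlgebra.star_mul_le_algebraMap_norm_sq
  have h2 : e ≤ (‖l‖ ^ 2) • (star a * a) := by
    have h3 : star a * (star l * l) * a ≤ star a * algebraMap ℝ A (‖l‖ ^ 2) * a :=
      star_left_conjugate_le_conjugate h1 a
    have h4 : star a * (star l * l) * a = e := by
      calc star a * (star l * l) * a = star (l * a) * (l * a) := by
            rw [star_mul]; simp only [mul_assoc]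
        _ = e := by rw [hl, he.s, he.i]
    have h5 : star a * algebraMap ℝ A (‖l‖ ^ 2) * a = (‖l‖ ^ 2) • (star a * a) := by
      rw [Algebra.algebraMap_eq_smul_one, mul_smul_comm, mul_one, smul_mul_assoc]
    rwa [h4, h5] at h3
  have h1e : P (1 - e) := he.one_sub
  set k := star a * a + (1 - e) with hk
  have h6 : (1 : A) ≤ c • k := by
    have h7 : e ≤ c • (star a * a) := by
      refine h2.trans ?_
      apply smul_le_smul_of_nonneg_right _ (star_mul_self_nonneg a)
      rw [hc]; linarith
    have h8 : (1 - e) ≤ c • (1 - e) := by
      have := smul_le_smul_of_nonneg_right hc1 h1e.nonneg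
      rwa [one_smul] at this
    calc (1 : A) = e + (1 - e) := by abel
      _ ≤ c • (star a * a) + c • (1 - e) := add_le_add h7 h8
      _ = c • k := by rw [hk, smul_add]
  have h9 : IsUnit (c • k) := CStarAlgebra.isUnit_of_le 1 h6 (by
    exact isStrictlyPositive_one)
  obtain ⟨w, hw⟩ := h9
  have hke : k * e = star a * a := by
    rw [hk, add_mul, mul_assoc, hae, sub_mul, one_mul, he.i, sub_self, add_zero]
  refine ⟨c • (↑w⁻¹ : A), ?_⟩
  have h10 : e * (star a * a) * e = k * e := by
    rw [hke, ← mul_assoc e, hea, mul_assoc, hae]
  rw [h10, smul_mul_assoc]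
  have h11 : c • ((↑w⁻¹ : A) * (k * e)) = ↑w⁻¹ * ((c • k) * e) := by
    rw [smul_mul_assoc, mul_smul_comm]
  rw [h11, ← hw, Units.inv_mul_cancel_left]

/-- `T` is not a scalar modulo small projections, in the corner of `e`. -/
def NS (e T : A) : Prop := ∃ a b y, star a * a = e ∧ star b * b = e ∧ e * a = a ∧ e * b = b ∧
  star b * a = 0 ∧ e * y = y ∧ y * e = y ∧ y * (star b * T * a) = e ∧ (star b * T * a) * y = e

theorem NS.of {e T a b : A} (he : P e) (h1 : e * a = a) (h2 : a * e = a) (h3 : e * b = b)
    (h4 : b * e = b) (h5 : b * a = 0) (h6 : b * T * a = e) : NS e T := by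
  obtain ⟨m, hm⟩ := exists_inv_of_left he h2 h6
  obtain ⟨v, c, c', v1, v2, v3, v4, v5, v6, v7, v8, v9, -⟩ := polar he hm
  have h2' : star b * e = star b := by
    have := congrArg star h3
    rwa [star_mul, he.s] at this
  have h6' : star (T * a) * star b = e := by
    rw [← star_mul, ← mul_assoc, h6, he.s]
  obtain ⟨n, hn⟩ := exists_inv_of_left he h2' h6'
  obtain ⟨w, g, g', w1, w2, w3, w4, w5, w6, w7, w8, w9, -⟩ := polar he hn
  have hws : star w = star g * b := by rw [w2, star_mul, star_star]
  have hgs : star g * e = star g := by
    have := congrArg star w4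
    rwa [star_mul, he.s] at this
  have hgs' : e * star g' = star g' := by
    have := congrArg star w7
    rwa [star_mul, he.s] at this
  have hgg : star g' * star g = e := by rw [← star_mul, w8, he.s]
  have hgg' : star g * star g' = e := by rw [← star_mul, w9, he.s]
  have hmain : star w * T * v = star g * c := by
    rw [hws, v2]
    calc star g * b * T * (a * c) = star g * (b * T * a) * c := by simp only [mul_assoc]
      _ = star g * c := by rw [h6, hgs]
  refine ⟨v, w, c' * star g', v1, w1, ?_, ?_, ?_, ?_, ?_, ?_, ?_⟩
  · rw [v2, ← mul_assoc, h1]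
  · rw [w2, ← mul_assoc]
    have : e * star b = star b := by
      have := congrArg star h4
      rwa [star_mul, he.s] at this
    rw [this]
  · rw [hws, v2, mul_assoc, ← mul_assoc b, h5, zero_mul, mul_zero]
  · rw [← mul_assoc, v6]
  · rw [mul_assoc]
    have : star g' * e = star g' := by
      have := congrArg star w6
      rwa [star_mul, he.s] at this
    rw [this]
  · rw [hmain]
    calc c' * star g' * (star g * c) = c' * ((star g' * star g) * c) := by simp only [mul_assoc]
      _ = e := by rw [hgg, v4, v9]
  · rw [hmain]
    calc star g * c * (c' * star g') = star g * ((c * c') * star g') := by simp only [mul_assoc]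
      _ = e := by rw [v8, hgs', hgg']

theorem NS.smul {e T : A} {c : ℂ} (hc : c ≠ 0) (h : NS e (c • T)) : NS e T := by
  obtain ⟨a, b, y, h1, h2, h3, h4, h5, h6, h7, h8, h9⟩ := h
  refine ⟨a, b, c • y, h1, h2, h3, h4, h5, ?_, ?_, ?_, ?_⟩
  · rw [mul_smul_comm, h6]
  · rw [smul_mul_assoc, h7]
  · rw [mul_smul_comm, smul_mul_assoc, mul_smul_comm] at h8
    rw [smul_mul_assoc]; exact h8
  · rw [mul_smul_comm, smul_mul_assoc, smul_mul_assoc] at h9
    rw [mul_smul_comm]; exact h9

theorem NS.corner {e e' T : A} (he : P e) (he' : P e') (hee : e * e' = e') (hE : Equ e e')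
    (h : NS e' (e' * T * e')) : NS e T := by
  obtain ⟨a, b, y, h1, h2, h3, h4, h5, h6, h7, h8, h9⟩ := h
  obtain ⟨w, w1, w2⟩ := hE
  have hwe := mul_of_star_mul he w1
  have hew : e' * w = w := by rw [← w2, mul_assoc, w1, hwe]
  have hwe' : star w * e' = star w := by
    have := congrArg star hew
    rwa [star_mul, he'.s] at this
  have hews : e * star w = star w := by
    have := congrArg star hwe
    rwa [star_mul, he.s] at this
  have hbe : star b * e' = star b := by
    have := congrArg star h4
    rwa [star_mul, he'.s] at this
  have hT : star b * (e' * T * e') * a = star b * T * a := by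
    calc star b * (e' * T * e') * a = (star b * e') * T * (e' * a) := by simp only [mul_assoc]
      _ = _ := by rw [hbe, h3]
  rw [hT] at h8 h9
  refine ⟨a * w, b * w, star w * y * w, ?_, ?_, ?_, ?_, ?_, ?_, ?_, ?_, ?_⟩
  · rw [star_mul, mul_assoc, ← mul_assoc (star a), h1, hew, w1]
  · rw [star_mul, mul_assoc, ← mul_assoc (star b), h2, hew, w1]
  · rw [← h3, ← mul_assoc, ← mul_assoc, hee]
  · rw [← h4, ← mul_assoc, ← mul_assoc, hee]
  · rw [star_mul, mul_assoc, ← mul_assoc (star b), h5, zero_mul, mul_zero]
  · rw [← mul_assoc, ← mul_assoc, hews]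
  · rw [mul_assoc, hwe]
  · rw [star_mul]
    calc star w * y * w * (star w * star b * T * (a * w)) =
        star w * (y * ((w * star w) * star b * T * a)) * w := by simp only [mul_assoc]
      _ = star w * (y * (star b * T * a)) * w := by
          rw [w2]
          have : e' * star b = star b := by
            have h10 : b * e' = b := mul_of_star_mul he' h2
            have := congrArg star h10
            rwa [star_mul, he'.s] at this
          rw [this]
      _ = e := by rw [h8, hwe', w1]
  · rw [star_mul]
    calc star w * star b * T * (a * w) * (star w * y * w) =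
        star w * (star b * T * (a * (w * star w))) * (y * w) := by simp only [mul_assoc]
      _ = star w * ((star b * T * a) * y) * w := by
          rw [w2]
          have h10 : a * e' = a := mul_of_star_mul he' h1
          rw [h10]; simp only [mul_assoc]
      _ = e := by rw [h9, hwe', w1]

/-- a perturbation of the identity of the corner has a left inverse in the corner -/
theorem exists_left_inv_of_small {e d : A} (he : P e) (h1 : e * d = d) (h2 : d * e = d)
    (hd : ‖d‖ < 1) : ∃ n, e * n = n ∧ n * e = n ∧ n * (e + d) = e ∧ (e + d) * n = e := by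
  obtain ⟨-, -, n, h3, h4, h5, h6⟩ := Iso.perturb he.i he.i he.i he.i he.i he.i h1 h2
    (by rwa [h1])
  exact ⟨n, h3, h4, h5, h6⟩

theorem NS.of_re (hA : IsAWStar A) (hF : IsFactor A) {e T : A} (he : P e) (hPI : PI e)
    (hT1 : e * T = T) (hT2 : T * e = T) (h : NS e (T + star T)) : NS e T := by
  obtain ⟨a, b, y, h1, h2, h3, h4, h5, h6, h7, h8, -⟩ := h
  have hae : a * e = a := mul_of_star_mul he h1
  have hbe : b * e = b := mul_of_star_mul he h2
  have hebs : e * star b = star b := by
    have := congrArg star hbe
    rwa [star_mul, he.s] at this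
  have hbse : star b * e = star b := by
    have := congrArg star h4
    rwa [star_mul, he.s] at this
  have h5' : star a * b = 0 := by
    have := congrArg star h5
    rwa [star_mul, star_star, star_zero] at this
  set X := star b * T * a with hX
  set Y := star b * star T * a with hY
  have hXY : star b * (T + star T) * a = X + Y := by
    rw [mul_add, add_mul]
  rw [hXY] at h8
  have heX : e * X = X := by rw [hX, ← mul_assoc, ← mul_assoc, hebs]
  have hXe : X * e = X := by rw [hX, mul_assoc, hae]
  have heY : e * Y = Y := by rw [hY, ← mul_assoc, ← mul_assoc, hebs]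
  have hYe : Y * e = Y := by rw [hY, mul_assoc, hae]
  set ε : ℝ := 1 / (2 * (‖y‖ + 1)) with hε
  have hε0 : 0 < ε := by positivity
  obtain ⟨d, m, hd, hed, hdm, hmd, -, hm, -, hn⟩ := cut hA X he hε0
  have hde : d * e = d := hd.swap he hed
  have hd' : P (e - d) := hd.sub he hed
  rcases big_or_big hA hF he hPI hd hd' (by rw [mul_sub, hde, hd.i, sub_self])
    (by rw [add_sub_cancel]; exact Equ.refl he) with hbig | hbig
  · obtain ⟨w, w1, w2⟩ := hbig
    have hwe := mul_of_star_mul he w1
    have hwd : star w * d = star w := by
      have := congrArg star w2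
      rwa [star_mul, hd.s] at this
    refine NS.of he (a := a * w) (b := star w * m * star X * star b) ?_ ?_ ?_ ?_ ?_ ?_
    · rw [← mul_assoc, h3]
    · rw [mul_assoc, hwe]
    · have : e * star w = star w := by
        have := congrArg star hwe
        rwa [star_mul, he.s] at this
      rw [← mul_assoc, ← mul_assoc, ← mul_assoc, this]
    · rw [mul_assoc, hbse]
    · calc star w * m * star X * star b * (a * w) =
          star w * m * star X * ((star b * a) * w) := by simp only [mul_assoc]
        _ = 0 := by rw [h5, zero_mul, mul_zero]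
    · calc star w * m * star X * star b * T * (a * w) =
          star w * m * star X * (star b * T * a) * w := by simp only [mul_assoc]
        _ = star w * (m * d) * star X * X * (d * w) := by
            rw [← hX, hmd, w2]
        _ = star w * (m * (d * (star X * X) * d)) * w := by simp only [mul_assoc]
        _ = e := by rw [hm, hwd, w1]
  · obtain ⟨w, w1, w2⟩ := hbig
    have hwe := mul_of_star_mul he w1
    have hews : e * star w = star w := by
      have := congrArg star hwe
      rwa [star_mul, he.s] at this
    have hwn : ‖w‖ ≤ 1 := by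
      have : ‖w‖ * ‖w‖ ≤ 1 := by
        rw [← CStarRing.norm_star_mul_self, w1]; exact he.norm_le
      nlinarith [norm_nonneg w]
    have hXw : ‖X * w‖ ≤ ε := by
      have : X * w = X * (e - d) * w := by rw [mul_assoc X, w2]
      rw [this]
      calc ‖X * (e - d) * w‖ ≤ ‖X * (e - d)‖ * ‖w‖ := norm_mul_le _ _
        _ ≤ ε * 1 := mul_le_mul hn hwn (norm_nonneg _) hε0.le
        _ = ε := mul_one _
    have hsm : ‖-(star w * y * (X * w))‖ < 1 := by
      rw [norm_neg]
      calc ‖star w * y * (X * w)‖ ≤ ‖star w * y‖ * ‖X * w‖ := norm_mul_le _ _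
        _ ≤ (‖star w‖ * ‖y‖) * ‖X * w‖ :=
            mul_le_mul_of_nonneg_right (norm_mul_le _ _) (norm_nonneg _)
        _ ≤ (1 * ‖y‖) * ε := by
            apply mul_le_mul _ hXw (norm_nonneg _) (by positivity)
            apply mul_le_mul_of_nonneg_right _ (norm_nonneg _)
            rwa [norm_star]
        _ < 1 := by
            rw [one_mul, hε, mul_one_div, div_lt_one (by positivity)]
            linarith [norm_nonneg y]
    obtain ⟨n, n1, n2, n3, n4⟩ := exists_left_inv_of_small he (d := -(star w * y * (X * w)))
      (by rw [mul_neg]; simp only [← mul_assoc, hews]) (by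
        rw [neg_mul]; simp only [mul_assoc, hwe]) hsm
    have hkey : star w * y * (Y * w) = e + -(star w * y * (X * w)) := by
      have e1 : star w * y * (Y * w) + star w * y * (X * w) = star w * (y * (X + Y)) * w := by
        rw [mul_add y X Y]; rw [mul_add, add_mul]; simp only [mul_assoc]; abel
      have e2 : star w * (y * (X + Y)) * w = e := by
        have hew : e * w = w := by
          have : e * (e - d) = e - d := by rw [mul_sub, he.i, hed]
          rw [← w2, ← mul_assoc, this]
        rw [h8, mul_assoc, hew, w1]
      rw [← e2, ← e1]; abel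
    set Y' := Y * w with hY'
    have hY'e : Y' * e = Y' := by rw [hY', mul_assoc, hwe]
    have hl : (n * (star w * y)) * Y' = e := by
      rw [mul_assoc, hkey, n3]
    obtain ⟨m', hm'⟩ := exists_inv_of_left he hY'e hl
    have hY'e' : e * star Y' = star Y' := by
      have := congrArg star hY'e
      rwa [star_mul, he.s] at this
    have hYY : e * (star Y' * Y') * e = star Y' * Y' := by
      rw [← mul_assoc, hY'e', mul_assoc, hY'e]
    rw [hYY] at hm'
    have hm2 : star Y' * Y' * star m' = e := by
      have := congrArg star hm'
      rwa [star_mul, star_mul, star_star, he.s] at this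
    have hYs : star Y' = star (a * w) * T * b := by
      rw [hY', hY, star_mul, star_mul, star_mul, star_mul, star_star, star_star]
      simp only [mul_assoc]
    refine NS.of he (a := b * Y' * star m' * e) (b := star (a * w)) ?_ ?_ ?_ ?_ ?_ ?_
    · rw [← mul_assoc, ← mul_assoc, ← mul_assoc, h4]
    · rw [mul_assoc, he.i]
    · rw [star_mul, ← mul_assoc, hews]
    · have : e * (a * w) = a * w := by rw [← mul_assoc, h3]
      have := congrArg star this
      rwa [star_mul, he.s] at this
    · rw [star_mul]
      calc star w * star a * (b * Y' * star m' * e) =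
          star w * ((star a * b) * (Y' * star m' * e)) := by simp only [mul_assoc]
        _ = 0 := by rw [h5', zero_mul, mul_zero]
    · calc star (a * w) * T * (b * Y' * star m' * e) =
          ((star (a * w) * T * b) * Y' * star m') * e := by simp only [mul_assoc]
        _ = e := by rw [← hYs, hm2, he.i]

end Pool.Agent.H54.AW
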