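import Mathlib

set_option autoImplicit false
set_option linter.unusedSectionVars false

namespace Pool.Agent.H54.AW

section Ring

variable {R : Type*} [Ring R]

/-- `x` is an isomorphism from the idempotent `p` to the idempotent `q`
(where morphisms `p → q` are the elements of `q R p`). -/
def Iso (p q x : R) : Prop :=
  q * x = x ∧ x * p = x ∧ ∃ y, p * y = y ∧ y * q = y ∧ y * x = p ∧ x * y = q

theorem Iso.idem_left {p q x : R} (h : Iso p q x) : p * p = p := by
  obtain ⟨-, -, y, h1, -, h3, -⟩ := h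
  calc p * p = p * (y * x) := by rw [h3]
    _ = (p * y) * x := by rw [mul_assoc]
    _ = p := by rw [h1, h3]

theorem Iso.idem_right {p q x : R} (h : Iso p q x) : q * q = q := by
  obtain ⟨h1, -, y, -, -, -, h4⟩ := h
  calc q * q = q * (x * y) := by rw [h4]
    _ = (q * x) * y := by rw [mul_assoc]
    _ = q := by rw [h1, h4]

theorem Iso.refl {p : R} (hp : p * p = p) : Iso p p p :=
  ⟨hp, hp, p, hp, hp, hp, hp⟩

theorem Iso.comp {p q r x z : R} (h : Iso p q x) (h' : Iso q r z) : Iso p r (z * x) := by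
  obtain ⟨a1, a2, y, a3, a4, a5, a6⟩ := h
  obtain ⟨b1, b2, w, b3, b4, b5, b6⟩ := h'
  refine ⟨by rw [← mul_assoc, b1], by rw [mul_assoc, a2], y * w, by rw [← mul_assoc, a3],
    by rw [mul_assoc, b4], ?_, ?_⟩
  · calc y * w * (z * x) = y * (w * z) * x := by simp only [mul_assoc]
      _ = p := by rw [b5, a4, a5]
  · calc z * x * (y * w) = z * (x * y) * w := by simp only [mul_assoc]
      _ = r := by rw [a6, b2, b6]

/-- the inverse -/
theorem Iso.symm {p q x : R} (h : Iso p q x) : ∃ y, Iso q p y ∧ y * x =p ∧ x * y = q := by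
  obtain ⟨a1, a2, y, a3, a4, a5, a6⟩ := h
  exact ⟨y, ⟨a3, a4, x, a1, a2, a6, a5⟩, a5, a6⟩

theorem Iso.neg {p q x : R} (h : Iso p q x) : Iso p q (-x) := by
  obtain ⟨a1, a2, y, a3, a4, a5, a6⟩ := h
  exact ⟨by rw [mul_neg, a1], by rw [neg_mul, a2], -y, by rw [mul_neg, a3], by rw [neg_mul, a4],
    by rw [neg_mul_neg, a5], by rw [neg_mul_neg, a6]⟩

theorem Iso.add {p1 p2 q1 q2 x1 x2 : R} (h1 : Iso p1 q1 x1) (h2 : Iso p2 q2 x2)
    (hp : p1 * p2 = 0) (hp' : p2 * p1 = 0) (hq : q1 * q2 = 0) (hq' : q2 * q1 = 0) :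
    Iso (p1 + p2) (q1 + q2) (x1 + x2) := by
  obtain ⟨a1, a2, y, a3, a4, a5, a6⟩ := h1
  obtain ⟨b1, b2, w, b3, b4, b5, b6⟩ := h2
  have c1 : q1 * x2 = 0 := by rw [← b1, ← mul_assoc, hq, zero_mul]
  have c2 : q2 * x1 = 0 := by rw [← a1, ← mul_assoc, hq', zero_mul]
  have c3 : x1 * p2 = 0 := by rw [← a2, mul_assoc, hp, mul_zero]
  have c4 : x2 * p1 = 0 := by rw [← b2, mul_assoc, hp', mul_zero]
  have d1 : p1 * w = 0 := by rw [← b3, ← mul_assoc, hp, zero_mul]
  have d2 : p2 * y = 0 := by rw [← a3, ← mul_assoc, hp', zero_mul]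
  have d3 : y * q2 = 0 := by rw [← a4, mul_assoc, hq, mul_zero]
  have d4 : w * q1 = 0 := by rw [← b4, mul_assoc, hq', mul_zero]
  have e1 : y * x2 = 0 := by rw [← b1, ← mul_assoc, d3, zero_mul]
  have e2 : w * x1 = 0 := by rw [← a1, ← mul_assoc, d4, zero_mul]
  have e3 : x1 * w = 0 := by rw [← b3, ← mul_assoc, c3, zero_mul]
  have e4 : x2 * y = 0 := by rw [← a3, ← mul_assoc, c4, zero_mul]
  refine ⟨?_, ?_, y + w, ?_, ?_, ?_, ?_⟩
  · rw [add_mul, mul_add, mul_add, a1, b1, c1, c2]; abel
  · rw [add_mul, mul_add, mul_add, a2, b2, c3, c4]; abel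
  · rw [add_mul, mul_add, mul_add, a3, b3, d1, d2]; abel
  · rw [add_mul, mul_add, mul_add, a4, b4, d3, d4]; abel
  · rw [add_mul, mul_add, mul_add, a5, b5, e1, e2]; abel
  · rw [add_mul, mul_add, mul_add, a6, b6, e3, e4]; abel

theorem Iso.unipotent {p n : R} (hp : p * p = p) (h1 : p * n = n) (h2 : n * p = n)
    (h3 : n * n = 0) : Iso p p (p + n) := by
  refine ⟨by rw [mul_add, hp, h1], by rw [add_mul, hp, h2], p - n, ?_, ?_, ?_, ?_⟩
  · rw [mul_sub, hp, h1]
  · rw [sub_mul, hp, h2]
  · rw [sub_mul, mul_add, mul_add, hp, h1, h2, h3]; abel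
  · rw [add_mul, mul_sub, mul_sub, hp, h1, h2, h3]; abel

/-- block triangular elements with invertible diagonal are invertible. -/
theorem Iso.triangular {p1 p2 q1 q2 x1 x2 z : R} (h1 : Iso p1 q1 x1) (h2 : Iso p2 q2 x2)
    (hp : p1 * p2 = 0) (hp' : p2 * p1 = 0) (hq : q1 * q2 = 0) (hq' : q2 * q1 = 0)
    (hz1 : q1 * z = z) (hz2 : z * p2 = z) :
    Iso (p1 + p2) (q1 + q2) (x1 + x2 + z) := by
  have hsum := Iso.add h1 h2 hp hp' hq hq'
  have ip1 := h1.idem_left
  have ip2 := h2.idem_left
  obtain ⟨a1, a2, y, a3, a4, a5, a6⟩ := h1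
  obtain ⟨b1, b2, w, b3, b4, b5, b6⟩ := h2
  have hn1 : (p1 + p2) * (y * z) = y * z := by
    have : p2 * y = 0 := by rw [← a3, ← mul_assoc, hp', zero_mul]
    rw [add_mul, ← mul_assoc, ← mul_assoc, a3, this, zero_mul, add_zero]
  have hzp1 : z * p1 = 0 := by rw [← hz2, mul_assoc, hp', mul_zero]
  have hn2 : (y * z) * (p1 + p2) = y * z := by
    rw [mul_add, mul_assoc, mul_assoc, hz2, hzp1, mul_zero, zero_add]
  have hzy : z * y = 0 := by rw [← a3, ← mul_assoc, hzp1, zero_mul]
  have hn3 : (y * z) * (y * z) = 0 := by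
    calc (y * z) * (y * z) = y * (z * y) * z := by simp only [mul_assoc]
      _ = 0 := by rw [hzy, mul_zero, zero_mul]
  have hP : (p1 + p2) * (p1 + p2) = p1 + p2 := by
    rw [add_mul, mul_add, mul_add, ip1, ip2, hp, hp']; abel
  have hu := Iso.unipotent hP hn1 hn2 hn3
  have := hu.comp hsum
  have e : (x1 + x2) * (p1 + p2 + y * z) = x1 + x2 + z := by
    have c3 : x1 * p2 = 0 := by rw [← a2, mul_assoc, hp, mul_zero]
    have c4 : x2 * p1 = 0 := by rw [← b2, mul_assoc, hp', mul_zero]
    have e4 : x2 * y = 0 := by rw [← a3, ← mul_assoc, c4, zero_mul]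
    have e5 : x1 * (y * z) = z := by rw [← mul_assoc, a6, hz1]
    have e6 : x2 * (y * z) = 0 := by rw [← mul_assoc, e4, zero_mul]
    rw [add_mul, mul_add, mul_add, mul_add, mul_add, a2, b2, c3, c4, e5, e6]; abel
  rwa [e] at this

/-- `x` is clean in the corner of the idempotent `e`. -/
def CleanIn (e x : R) : Prop := ∃ f, f * f = f ∧ e * f = f ∧ f * e = f ∧ Iso e e (x - f)

theorem CleanIn.compl {e x : R} (he : e * e = e) (h : CleanIn e (e - x)) : CleanIn e x := by
  obtain ⟨f, h1, h2, h3, h4⟩ := h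
  refine ⟨e - f, ?_, ?_, ?_, ?_⟩
  · rw [sub_mul, mul_sub, mul_sub, he, h1, h2, h3]; abel
  · rw [mul_sub, he, h2]
  · rw [sub_mul, he, h3]
  · have := h4.neg
    have e1 : -(e - x - f) = x - (e - f) := by abel
    rwa [e1] at this

theorem CleanIn.conj {e x w w' : R} (hw1 : e * w = w) (hw2 : w * e = w) (hw3 : e * w' = w')
    (hw4 : w' * e = w') (hww' : w * w' = e) (hw'w : w' * w = e) (hx1 : e * x = x) (hx2 : x * e = x)
    (h : CleanIn e (w' * x * w)) : CleanIn e x := by
  obtain ⟨f, h1, h2, h3, h4⟩ := h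
  have iw : Iso e e w := ⟨hw1, hw2, w', hw3, hw4, hw'w, hww'⟩
  have iw' : Iso e e w' := ⟨hw3, hw4, w, hw1, hw2, hww', hw'w⟩
  refine ⟨w * f * w', ?_, ?_, ?_, ?_⟩
  · calc w * f * w' * (w * f * w') = w * f * (w' * w) * f * w' := by simp only [mul_assoc]
      _ = w * f * w' := by rw [hw'w, mul_assoc w f e, h3, mul_assoc w f f, h1]
  · rw [← mul_assoc, ← mul_assoc, hw1]
  · rw [mul_assoc, hw4]
  · have h5 := (iw'.comp h4).comp iw
    have e1 : w * ((w' * x * w - f) * w') = x - w * f * w' := by
      calc w * ((w' * x * w - f) * w') = (w * w') * x * (w * w') - w * f * w' := by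
            rw [sub_mul, mul_sub]; simp only [mul_assoc]
        _ = x - w * f * w' := by rw [hww', hx1, hx2]
    rwa [e1] at h5

/-- Schur complement reduction. -/
theorem CleanIn.schur {k g x m : R} (hk : k * k = k) (hg : g * g = g) (hkg : k * g = 0)
    (hgk : g * k = 0) (hx1 : (k + g) * x = x) (hx2 : x * (k + g) = x)
    (hm1 : k * m = m) (hm2 : m * k = m) (hm3 : m * (k * x * k) = k) (hm4 : (k * x * k) * m = k)
    (h : CleanIn g (g * x * g - g * x * m * x * g)) : CleanIn (k + g) x := by
  obtain ⟨f, h1, h2, h3, h4⟩ := h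
  have hkf : k * f = 0 := by rw [← h2, ← mul_assoc, hkg, zero_mul]
  have hfk : f * k = 0 := by rw [← h3, mul_assoc, hgk, mul_zero]
  have hgm : g * m = 0 := by rw [← hm1, ← mul_assoc, hgk, zero_mul]
  have hmg : m * g = 0 := by rw [← hm2, mul_assoc, hkg, mul_zero]
  refine ⟨f, h1, by rw [add_mul, hkf, h2, zero_add], by rw [mul_add, hfk, h3, zero_add], ?_⟩
  have ik : Iso k k (k * x * k) :=
    ⟨by rw [← mul_assoc, ← mul_assoc, hk], by rw [mul_assoc, hk], m, hm1, hm2, hm3, hm4⟩
  have isum := Iso.add ik h4 hkg hgk hkg hgk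
  have hkk : (k + g) * (k + g) = k + g := by
    rw [add_mul, mul_add, mul_add, hk, hg, hkg, hgk]; abel
  -- left unipotent `k + g + g x m`, right unipotent `k + g + m x g`
  have iL : Iso (k + g) (k + g) (k + g + g * x * m) := by
    apply Iso.unipotent hkk
    · rw [add_mul]
      have : k * (g * x * m) = 0 := by rw [← mul_assoc, ← mul_assoc, hkg, zero_mul, zero_mul]
      rw [this, zero_add, ← mul_assoc, ← mul_assoc, hg]
    · rw [mul_add]
      have : g * x * m * g = 0 := by rw [mul_assoc, hmg, mul_zero]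
      rw [this, add_zero, mul_assoc, hm2]
    · calc g * x * m * (g * x * m) = g * x * (m * g) * (x * m) := by simp only [mul_assoc]
        _ = 0 := by rw [hmg, mul_zero, zero_mul]
  have iR : Iso (k + g) (k + g) (k + g + m * x * g) := by
    apply Iso.unipotent hkk
    · rw [add_mul]
      have : g * (m * x * g) = 0 := by rw [← mul_assoc, ← mul_assoc, hgm, zero_mul, zero_mul]
      rw [this, add_zero, ← mul_assoc, ← mul_assoc, hm1]
    · rw [mul_add]
      have : m * x * g * k = 0 := by rw [mul_assoc, hgk, mul_zero]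
      rw [this, zero_add, mul_assoc, hg]
    · calc m * x * g * (m * x * g) = m * x * (g * m) * (x * g) := by simp only [mul_assoc]
        _ = 0 := by rw [hgm, mul_zero, zero_mul]
  have key := (iR.comp isum).comp iL
  have e1 : (k + g + g * x * m) * ((k * x * k + (g * x * g - g * x * m * x * g - f)) *
      (k + g + m * x * g)) = x - f := by
    have hx : x = k * x * k + k * x * g + g * x * k + g * x * g := by
      calc x = (k + g) * x * (k + g) := by rw [hx1, hx2]
        _ = _ := by rw [add_mul, add_mul, mul_add, mul_add]; abel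
    have hfm : f * m = 0 := by rw [← hm1, ← mul_assoc, hfk, zero_mul]
    have hmf : m * f = 0 := by rw [← hm2, mul_assoc, hkf, mul_zero]
    have s1 : (k * x * k + (g * x * g - g * x * m * x * g - f)) * (k + g + m * x * g) =
        k * x * k + k * x * g + (g * x * g - g * x * m * x * g - f) := by
      have a1 : k * x * k * k = k * x * k := by rw [mul_assoc, hk]
      have a2 : k * x * k * g = 0 := by rw [mul_assoc, hkg, mul_zero]
      have a3 : k * x * k * (m * x * g) = k * x * g := by
        calc k * x * k * (m * x * g) = (k * x * k * m) * (x * g) := by simp only [mul_assoc]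
          _ = k * x * g := by rw [hm4, mul_assoc]
      have a4 : (g * x * g - g * x * m * x * g - f) * k = 0 := by
        rw [sub_mul, sub_mul, hfk, mul_assoc, hgk, mul_zero, mul_assoc (g * x * m * x), hgk,
          mul_zero]; abel
      have a5 : (g * x * g - g * x * m * x * g - f) * g = g * x * g - g * x * m * x * g - f := by
        rw [sub_mul, sub_mul, h3, mul_assoc, hg, mul_assoc (g * x * m * x), hg]
      have a6 : (g * x * g - g * x * m * x * g - f) * (m * x * g) = 0 := by
        have : (g * x * g - g * x * m * x * g - f) * m = 0 := by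
          rw [sub_mul, sub_mul, hfm, mul_assoc, hgm, mul_zero, mul_assoc (g * x * m * x), hgm,
            mul_zero]; abel
        calc (g * x * g - g * x * m * x * g - f) * (m * x * g) =
            ((g * x * g - g * x * m * x * g - f) * m) * (x * g) := by simp only [mul_assoc]
          _ = 0 := by rw [this, zero_mul]
      rw [add_mul, mul_add, mul_add, mul_add, mul_add, a1, a2, a3, a4, a5, a6]
      abel
    rw [s1]
    have b1 : (k + g) * (k * x * k + k * x * g + (g * x * g - g * x * m * x * g - f)) =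
        k * x * k + k * x * g + (g * x * g - g * x * m * x * g - f) := by
      have c1 : k * (k * x * k) = k * x * k := by rw [← mul_assoc, ← mul_assoc, hk]
      have c2 : k * (k * x * g) = k * x * g := by rw [← mul_assoc, ← mul_assoc, hk]
      have c3 : g * (k * x * k) = 0 := by rw [← mul_assoc, ← mul_assoc, hgk, zero_mul, zero_mul]
      have c4 : g * (k * x * g) = 0 := by rw [← mul_assoc, ← mul_assoc, hgk, zero_mul, zero_mul]
      have c5 : k * (g * x * g - g * x * m * x * g - f) = 0 := by
        rw [mul_sub, mul_sub, hkf]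
        simp only [← mul_assoc, hkg, zero_mul]; abel
      have c6 : g * (g * x * g - g * x * m * x * g - f) = g * x * g - g * x * m * x * g - f := by
        rw [mul_sub, mul_sub, h2]
        simp only [← mul_assoc, hg]
      rw [add_mul, mul_add, mul_add, mul_add, mul_add, c1, c2, c3, c4, c5, c6]
      abel
    have b2 : g * x * m * (k * x * k + k * x * g + (g * x * g - g * x * m * x * g - f)) =
        g * x * k + g * x * m * x * g := by
      have c1 : g * x * m * (k * x * k) = g * x * k := by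
        calc g * x * m * (k * x * k) = g * x * (m * (k * x * k)) := by simp only [mul_assoc]
          _ = g * x * k := by rw [hm3]
      have c2 : g * x * m * (k * x * g) = g * x * m * x * g := by
        calc g * x * m * (k * x * g) = g * x * (m * k) * x * g := by simp only [mul_assoc]
          _ = g * x * m * x * g := by rw [hm2]
      have c3 : g * x * m * (g * x * g - g * x * m * x * g - f) = 0 := by
        have : m * (g * x * g - g * x * m * x * g - f) = 0 := by
          rw [mul_sub, mul_sub, hmf]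
          simp only [← mul_assoc, hmg, zero_mul]; abel
        rw [mul_assoc (g * x), this, mul_zero]
      rw [mul_add, mul_add, c1, c2, c3]; abel
    rw [add_mul, b1, b2]
    conv_rhs => rw [hx]
    abel
  rwa [e1] at key

end Ring

end Pool.Agent.H54.AW
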