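import Pool.Agent.H54.AW.Small

set_option autoImplicit false
set_option linter.unusedSectionVars false

namespace Pool.Agent.H54.AW

universe u

variable {A : Type u} [CStarAlgebra A]

theorem PI.sub_add {q p p' : A} (hq : P q) (hPI : PI q) (h : Sub p q) (h' : Sub p' q) :
    Sub (p + p') q := by
  obtain ⟨a, b, ha, hb, hab, hea, heb⟩ := hPI
  have hPa : P (a * star a) := hq.of_star ha
  have hPb : P (b * star b) := hq.of_star hb
  have hab' : a * star a * (b * star b) = 0 := by
    rw [mul_assoc, ← mul_assoc (star a), hab, zero_mul, mul_zero]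
  have e1 : Sub q (a * star a) := Equ.sub hq ⟨a, ha, rfl⟩
  have e2 : Sub q (b * star b) := Equ.sub hq ⟨b, hb, rfl⟩
  have e3 := Sub.add hPa (h.trans e1) (h'.trans e2) hab' (hPa.orth hPb hab')
  refine e3.mono ?_
  rw [mul_add, ← mul_assoc, ← mul_assoc, hea, heb]

theorem PI.sub_sum {q : A} (hq : P q) (hPI : PI q) {ι : Type*} (I : Finset ι) {d : ι → A}
    (h : ∀ i, Sub (d i) q) : Sub (∑ i ∈ I, d i) q := by
  classical
  induction I using Finset.induction_on with
  | empty =>
    rw [Finset.sum_empty]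
    exact ⟨0, by rw [mul_zero], by rw [mul_zero]⟩
  | insert i I hi ih =>
    rw [Finset.sum_insert hi]
    exact PI.sub_add hq hPI (h i) ih

/-- `e` is the sum of `J` many copies of `q` -/
def Mult (e : A) (J : Type u) (q : A) : Prop :=
  ∃ p : J → A, (∀ j, P (p j)) ∧ (∀ i j, i ≠ j → p i * p j = 0) ∧ (∀ j, Equ q (p j)) ∧ IsSup p e

theorem equ_zero {q : A} (h : Equ q 0) : q = 0 := by
  obtain ⟨w, hw1, hw2⟩ := h
  have h1 : star (star w) * star w = 0 := by rw [star_star]; exact hw2
  have h2 : star w = 0 := star_mul_self_zero h1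
  rw [← hw1, h2, zero_mul]

theorem exists_mult (hA : IsAWStar A) (hF : IsFactor A) {e q : A} (he : P e) (hq : P q)
    (hqPI : PI q) (hq0 : q ≠ 0) (hns : ¬ Sub e q) :
    ∃ J : Type u, Infinite J ∧ Mult e J q := by
  classical
  obtain ⟨S, hS⟩ := zorn_subset
    {S : Set A | (∀ p ∈ S, P p ∧ e * p = p ∧ Equ q p) ∧ (∀ p ∈ S, ∀ q ∈ S, p ≠ q → p * q = 0)}
    (by
      intro c hc hchain
      refine ⟨⋃₀ c, ⟨?_, ?_⟩, fun s hs => Set.subset_sUnion_of_mem hs⟩
      · rintro x ⟨s, hs, hx⟩
        exact (hc hs).1 x hx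
      · rintro x ⟨s, hs, hx⟩ y ⟨t, ht, hy⟩
        rcases hchain.total hs ht with h | h
        · exact (hc ht).2 x (h hx) y hy
        · exact (hc hs).2 x hx y (h hy))
  have hS1 := hS.prop.1
  have hS2 := hS.prop.2
  have hP : ∀ j : S, P (j : A) := fun j => (hS1 _ j.2).1
  have hO : ∀ i j : S, i ≠ j → (i : A) * (j : A) = 0 := fun i j h =>
    hS2 _ i.2 _ j.2 (fun h' => h (Subtype.ext h'))
  obtain ⟨G, hG⟩ := exists_isSup hA (fun j : S => (j : A)) hP hO
  have heG : e * G = G := hG.le_of (fun j => (hS1 _ j.2).2.1)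
  have hGe : G * e = G := hG.proj.swap he heG
  have hh : P (e - G) := hG.proj.sub he heG
  have hsub : Sub (e - G) q := by
    rcases compare hA hF hh hq with h | h
    · exact h
    · exfalso
      rw [Sub.iff hq] at h
      obtain ⟨g', hg', h1, h2⟩ := h
      have hGg : G * g' = 0 := by
        rw [← h1, ← mul_assoc, mul_sub, hG.proj.i, hGe, sub_self, zero_mul]
      have horth : ∀ p ∈ S, p * g' = 0 := by
        intro p hp
        have : p * G = p := (hS1 p hp).1.swap hG.proj (hG.le ⟨p, hp⟩)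
        rw [← this, mul_assoc, hGg, mul_zero]
      have hmem : S ∪ {g'} ∈ {S : Set A | (∀ p ∈ S, P p ∧ e * p = p ∧ Equ q p) ∧
          (∀ p ∈ S, ∀ q ∈ S, p ≠ q → p * q = 0)} := by
        refine ⟨?_, ?_⟩
        · rintro p (hp | rfl)
          · exact hS1 p hp
          · refine ⟨hg', ?_, h2⟩
            rw [← h1, ← mul_assoc, mul_sub, he.i, heG]
        · rintro p (hp | rfl) q (hq | rfl) hne
          · exact hS2 p hp q hq hne
          · exact horth p hp
          · exact (hS1 q hq).1.orth hg' (horth q hq)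
          · exact absurd rfl hne
      have heq := hS.eq_of_subset hmem Set.subset_union_left
      have hgS : g' ∈ S := by rw [heq]; exact Or.inr rfl
      have := horth g' hgS
      rw [hg'.i] at this
      rw [this] at h2
      exact hq0 (equ_zero h2)
  have hSub1 : ∀ j : S, Sub (j : A) q := fun j => ((hS1 _ j.2).2.2.symm).sub (hP j)
  rcases finite_or_infinite S with hfin | hinf
  · exfalso
    haveI := Fintype.ofFinite S
    have h1 : IsSup (fun j : S => (j : A)) (∑ j : S, (j : A)) := by
      refine ⟨sum_proj _ hP hO, fun j => sum_mul_mem _ hP hO (Finset.mem_univ j), ?_⟩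
      intro y hy
      rw [Finset.mul_sum]
      exact Finset.sum_eq_zero (fun j _ => hy j)
    have h2 : G = ∑ j : S, (j : A) := hG.unique h1
    have h3 : Sub G q := by rw [h2]; exact PI.sub_sum hq hqPI _ hSub1
    have h4 := PI.sub_add hq hqPI h3 hsub
    rw [add_sub_cancel] at h4
    exact hns h4
  · obtain ⟨j0⟩ : Nonempty S := inferInstance
    have hGj : ∀ j : S, G * (j : A) = j := hG.le
    have hjG : ∀ j : S, (j : A) * G = j := fun j => (hP j).swap hG.proj (hGj j)
    have hje : ∀ j : S, (j : A) * e = j := fun j => (hP j).swap he (hS1 _ j.2).2.1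
    have hjh : ∀ j : S, (j : A) * (e - G) = 0 := fun j => by rw [mul_sub, hje, hjG, sub_self]
    have hhj : ∀ j : S, (e - G) * (j : A) = 0 := fun j => (hP j).orth hh (hjh j)
    let p : S → A := fun j => if j = j0 then (j0 : A) + (e - G) else j
    have hp0 : p j0 = (j0 : A) + (e - G) := by simp only [p, if_true]
    have hp1 : ∀ j, j ≠ j0 → p j = j := fun j hj => by simp only [p, if_neg hj]
    refine ⟨S, hinf, p, ?_, ?_, ?_, ?_⟩
    · intro j
      by_cases hj : j = j0
      · rw [hj, hp0]; exact (hP j0).add hh (hjh j0)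
      · rw [hp1 j hj]; exact hP j
    · intro i j hij
      by_cases hj : j = j0
      · subst hj
        rw [hp0, hp1 i hij, mul_add, hO i j hij, hjh, add_zero]
      · by_cases hi : i = j0
        · subst hi
          rw [hp0, hp1 j hj, add_mul, hO i j hij, hhj, add_zero]
        · rw [hp1 i hi, hp1 j hj, hO i j hij]
    · intro j
      by_cases hj : j = j0
      · rw [hj, hp0]
        apply schroeder' hA hq ((hP j0).add hh (hjh j0))
        · refine ((hS1 _ j0.2).2.2.sub hq).mono ?_
          rw [add_mul, (hP j0).i, hhj, add_zero]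
        · exact PI.sub_add hq hqPI (hSub1 j0) hsub
      · rw [hp1 j hj]; exact (hS1 _ j.2).2.2
    · refine ⟨he, ?_, ?_⟩
      · intro j
        by_cases hj : j = j0
        · rw [hj, hp0, mul_add, (hS1 _ j0.2).2.1, mul_sub, he.i, heG]
        · rw [hp1 j hj]; exact (hS1 _ j.2).2.1
      · intro y hy
        have h0 : y * ((j0 : A) + (e - G)) = 0 := by rw [← hp0]; exact hy j0
        have h1 : y * (j0 : A) = 0 := by
          have : y * ((j0 : A) + (e - G)) * (j0 : A) = y * (j0 : A) := by
            rw [mul_assoc, add_mul, (hP j0).i, hhj, add_zero]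
          rw [← this, h0, zero_mul]
        have h2 : y * (e - G) = 0 := by
          rw [mul_add, h1, zero_add] at h0
          exact h0
        have h3 : y * G = 0 := by
          apply hG.ann
          intro j
          by_cases hj : j = j0
          · rw [hj]; exact h1
          · have := hy j
            rwa [hp1 j hj] at this
        rw [mul_sub, h3, sub_zero] at h2
        exact h2

theorem mult_lt (hA : IsAWStar A) {e q1 q2 : A} (he : P e) (hPI : PI e) (hq1 : P q1)
    (hq2 : P q2) (heq : e * q1 = q1) {J0 J1 : Type u} [Infinite J0] [Infinite J1]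
    (h0 : Mult e J0 q1) (h1 : Mult q1 J1 q2) (hns : ¬ Sub e q1) :
    Cardinal.mk J1 < Cardinal.mk J0 := by
  by_contra hlt
  rw [not_lt] at hlt
  obtain ⟨p, p1, p2, p3, p4⟩ := h0
  obtain ⟨r, r1, r2, r3, r4⟩ := h1
  choose w hw1 hw2 using p3
  have hcard : Cardinal.mk (Σ _ : J0, J1) = Cardinal.mk J1 := by
    rw [Cardinal.mk_sigma, Cardinal.sum_const']
    exact Cardinal.mul_eq_right (Cardinal.aleph0_le_mk J1) hlt (Cardinal.mk_ne_zero J0)
  obtain ⟨φ⟩ := Cardinal.eq.1 hcard
  have hq1r : ∀ k, q1 * r k = r k := r4.le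
  have hepj : ∀ j, e * p j = p j := p4.le
  have hwq : ∀ j, w j * q1 = w j := fun j => mul_of_star_mul hq1 (hw1 j)
  have hpw : ∀ j, p j * w j = w j := fun j => by
    rw [← hw2, mul_assoc, hw1, hwq]
  have hpp : ∀ j, w j * q1 * star (w j) = p j := fun j => by rw [hwq, hw2]
  have hsup1 : ∀ j, IsSup (fun k => w j * r k * star (w j)) (p j) := fun j => by
    have := r4.conj hq1 (hw1 j) hq1r r1
    rwa [hpp] at this
  have hsup : IsSup (fun x : Σ _ : J0, J1 => w x.1 * r x.2 * star (w x.1)) e := by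
    have := p4.sigma (κ := fun _ : J0 => J1) (G := fun j k => w j * r k * star (w j)) hsup1
    exact this
  have hsup' : IsSup (fun x => r (φ x)) q1 := r4.reindex φ φ.surjective
  have hE : Equ e q1 := by
    refine Equ.sup hA he hPI ?_ ?_ ?_ ?_ ?_ ?_ hsup hsup'
    · rintro ⟨j, k⟩
      exact (equ_move hq1 (hw1 j) (r1 k) (hq1r k)).proj (r1 k)
    · rintro ⟨j, k⟩
      exact hsup.le _
    · intro x
      rw [← hq1r, ← mul_assoc, heq]
    · rintro ⟨j, k⟩ ⟨j', k'⟩ hne
      change w j * r k * star (w j) * (w j' * r k' * star (w j')) = 0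
      by_cases hj : j = j'
      · subst hj
        have hk : k ≠ k' := fun h => hne (by rw [h])
        calc w j * r k * star (w j) * (w j * r k' * star (w j)) =
            w j * (r k * ((star (w j) * w j) * r k')) * star (w j) := by simp only [mul_assoc]
          _ = 0 := by rw [hw1, hq1r, r2 k k' hk, mul_zero, zero_mul]
      · have h3 : star (w j) * w j' = 0 := by
          have h4 : star (w j) * p j = star (w j) := by
            have := congrArg star (hpw j)
            rwa [star_mul, (p1 j).s] at this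
          rw [← h4, ← hpw j', mul_assoc, ← mul_assoc (p j), p2 j j' hj, zero_mul, mul_zero]
        calc w j * r k * star (w j) * (w j' * r k' * star (w j')) =
            w j * (r k * ((star (w j) * w j') * r k')) * star (w j') := by simp only [mul_assoc]
          _ = 0 := by rw [h3, zero_mul, mul_zero, mul_zero, zero_mul]
    · intro x y hxy
      exact r2 _ _ (fun h => hxy (φ.injective h))
    · rintro ⟨j, k⟩
      have h3 : Equ (r k) (w j * r k * star (w j)) := equ_move hq1 (hw1 j) (r1 k) (hq1r k)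
      have h4 := h3.proj (r1 k)
      exact (h3.symm.trans h4 (r3 k).symm).trans h4 (r3 _)
  exact hns (hE.sub he)

/-- induction on the size of projections in an AW*-factor -/
theorem size_induction (hA : IsAWStar A) (hF : IsFactor A) (Q : A → Prop)
    (hfin : ∀ e, P e → ¬ Infinite' e → Q e)
    (hstep : ∀ e, P e → PI e → e ≠ 0 → (∀ g, P g → e * g = g → ¬ Sub e g → Q g) → Q e) :
    ∀ e, P e → Q e := by
  by_contra hcon
  push Not at hcon
  obtain ⟨e0, he0, hbad0⟩ := hcon
  have hb : ∀ e, P e → ¬ Q e → PI e ∧ e ≠ 0 := by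
    intro e he hQ
    have hi : Infinite' e := by
      by_contra h; exact hQ (hfin e he h)
    refine ⟨halving hA hF he hi, ?_⟩
    rintro rfl
    obtain ⟨v, -, h1, h2⟩ := hi
    rw [zero_mul] at h1
    rw [← h1] at h2
    exact h2 (by rw [zero_mul])
  have hnext : ∀ e, P e → ¬ Q e → ∃ g, P g ∧ ¬ Q g ∧ e * g = g ∧ ¬ Sub e g := by
    intro e he hQ
    by_contra h
    push Not at h
    refine hQ (hstep e he (hb e he hQ).1 (hb e he hQ).2 ?_)
    intro g hg heg hns
    by_contra hQg
    exact hns (h g hg hQg heg)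
  let C : Set Cardinal.{u} := {c | ∃ e g : A, P e ∧ P g ∧ ¬ Q g ∧ PI e ∧ e * g = g ∧ ¬ Sub e g ∧
    ∃ J : Type u, Infinite J ∧ Mult e J g ∧ Cardinal.mk J = c}
  have hmk : ∀ e, P e → ¬ Q e → ∃ g, P g ∧ ¬ Q g ∧ e * g = g ∧ ¬ Sub e g ∧
      ∃ J : Type u, Infinite J ∧ Mult e J g := by
    intro e he hQ
    obtain ⟨g, hg, hQg, heg, hns⟩ := hnext e he hQ
    obtain ⟨J, hJ, hM⟩ := exists_mult hA hF he hg (hb g hg hQg).1 (hb g hg hQg).2 hns
    exact ⟨g, hg, hQg, heg, hns, J, hJ, hM⟩
  have hCne : C.Nonempty := by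
    obtain ⟨g, hg, hQg, heg, hns, J, hJ, hM⟩ := hmk e0 he0 hbad0
    exact ⟨Cardinal.mk J, e0, g, he0, hg, hQg, (hb e0 he0 hbad0).1, heg, hns, J, hJ, hM, rfl⟩
  obtain ⟨e, g, he, hg, hQg, hPI, heg, hns, J, hJ, hM, hc⟩ := WellFounded.min_mem
    (Cardinal.lt_wf) C hCne
  obtain ⟨g', hg', hQg', hgg', hns', J', hJ', hM'⟩ := hmk g hg hQg
  have hlt : Cardinal.mk J' < Cardinal.mk J :=
    mult_lt hA he hPI hg hg' heg hM hM' hns
  have hmem : Cardinal.mk J' ∈ C :=
    ⟨g, g', hg, hg', hQg', (hb g hg hQg).1, hgg', hns', J', hJ', hM', rfl⟩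
  have := WellFounded.not_lt_min (Cardinal.lt_wf) C hmem
  rw [← hc] at this
  exact this hlt

end Pool.Agent.H54.AW
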