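import Pool.Agent.H54.AW.Infinite

set_option autoImplicit false
set_option linter.unusedSectionVars false

namespace Pool.Agent.H54.AW

variable {A : Type*} [CStarAlgebra A]

/-- moving a projection by an isometry of `e` -/
theorem equ_move {e a p : A} (he : P e) (ha : star a * a = e) (hp : P p) (hep : e * p = p) :
    Equ p (a * p * star a) := by
  refine ⟨a * p, ?_, ?_⟩
  · rw [star_mul, hp.s, mul_assoc, ← mul_assoc (star a), ha, hep, hp.i]
  · rw [star_mul, hp.s]; simp only [mul_assoc, re hp.i]

/-- general additivity below a properly infinite projection -/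
theorem Equ.sup (hA : IsAWStar A) {e : A} (he : P e) (hPI : PI e) {ι : Type*} {p q : ι → A}
    {s t : A} (hp : ∀ i, P (p i)) (hep : ∀ i, e * p i = p i) (heq : ∀ i, e * q i = q i)
    (hpp : ∀ i j, i ≠ j → p i * p j = 0) (hqq : ∀ i j, i ≠ j → q i * q j = 0)
    (hpq : ∀ i, Equ (p i) (q i)) (hs : IsSup p s) (ht : IsSup q t) : Equ s t := by
  obtain ⟨a, b, ha, hb, hab, hea, heb⟩ := hPI
  have hq : ∀ i, P (q i) := fun i => (hpq i).proj (hp i)
  have hpe : ∀ i, p i * e = p i := fun i => (hp i).swap he (hep i)
  have hqe : ∀ i, q i * e = q i := fun i => (hq i).swap he (heq i)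
  have h1 := hs.conj he ha hep hp
  have h2 := ht.conj he hb heq hq
  have hes : e * s = s := hs.le_of hep
  have het : e * t = t := ht.le_of heq
  have h3 : Equ (a * s * star a) (b * t * star b) := by
    refine Equ.sup_orth hA (p := fun i => a * p i * star a) (q := fun i => b * q i * star b)
      ?_ ?_ ?_ ?_ ?_ h1 h2
    · intro i
      exact (equ_move he ha (hp i) (hep i)).proj (hp i)
    · intro i j hij
      calc a * p i * star a * (a * p j * star a) =
          a * (p i * ((star a * a) * p j)) * star a := by simp only [mul_assoc]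
        _ = 0 := by rw [ha, hep, hpp i j hij, mul_zero, zero_mul]
    · intro i j hij
      calc b * q i * star b * (b * q j * star b) =
          b * (q i * ((star b * b) * q j)) * star b := by simp only [mul_assoc]
        _ = 0 := by rw [hb, heq, hqq i j hij, mul_zero, zero_mul]
    · intro i j
      calc a * p i * star a * (b * q j * star b) =
          a * (p i * ((star a * b) * q j)) * star b := by simp only [mul_assoc]
        _ = 0 := by rw [hab, zero_mul, mul_zero, mul_zero, zero_mul]
    · intro i
      exact ((equ_move he ha (hp i) (hep i)).symm.trans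
        ((equ_move he ha (hp i) (hep i)).proj (hp i)) (hpq i)).trans
        ((equ_move he ha (hp i) (hep i)).proj (hp i)) (equ_move he hb (hq i) (heq i))
  have h4 := equ_move he ha hs.proj hes
  have h5 := equ_move he hb ht.proj het
  exact (h4.trans hs.proj h3).trans hs.proj h5.symm

/-- right and left projections are equivalent, below a properly infinite projection -/
theorem rplp (hA : IsAWStar A) {e : A} (he : P e) (hPI : PI e) {x : A} (hx1 : e * x = x)
    (hx2 : x * e = x) : ∃ p q, P p ∧ P q ∧ e * p = p ∧ e * q = q ∧ Equ p q ∧ x * p = x ∧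
      q * x = x ∧ (∀ y, x * y = 0 → p * y = 0) ∧ (∀ y, y * x = 0 → y * q = 0) := by
  obtain ⟨S, hS⟩ := zorn_subset
    {S : Set A | (∀ d ∈ S, P d ∧ e * d = d ∧ d ≠ 0 ∧ d * (star x * x) = star x * x * d ∧
      ∃ m, m * (d * (star x * x) * d) = d) ∧ (∀ p ∈ S, ∀ q ∈ S, p ≠ q → p * q = 0)}
    (by
      intro c hc hchain
      refine ⟨⋃₀ c, ⟨?_, ?_⟩, fun s hs => Set.subset_sUnion_of_mem hs⟩
      · rintro x ⟨s, hs, hx⟩
        exact (hc hs).1 x hx
      · rintro x ⟨s, hs, hx⟩ y ⟨t, ht, hy⟩
        rcases hchain.total hs ht with h | h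
        · exact (hc ht).2 x (h hx) y hy
        · exact (hc hs).2 x hx y (h hy))
  have hS1 := hS.prop.1
  have hS2 := hS.prop.2
  have hd : ∀ d : S, P (d : A) := fun d => (hS1 _ d.2).1
  have hdo : ∀ i j : S, i ≠ j → (i : A) * (j : A) = 0 := fun i j h =>
    hS2 _ i.2 _ j.2 (fun h' => h (Subtype.ext h'))
  obtain ⟨p, hp⟩ := exists_isSup hA (fun d : S => (d : A)) hd hdo
  have hep : e * p = p := hp.le_of (fun d => (hS1 _ d.2).2.1)
  have hpe : p * e = p := hp.proj.swap he hep
  have hcomm : star x * x * p = p * (star x * x) :=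
    hp.comm hd (fun d => (hS1 _ d.2).2.2.2.1.symm)
  -- `x p = x`
  have hxp : x * p = x := by
    by_contra hne
    have hy : x * (e - p) ≠ 0 := by
      rw [mul_sub, hx2]; exact fun h => hne (sub_eq_zero.1 h).symm
    set y := x * (e - p) with hyd
    have hpos : 0 < ‖y‖ := norm_pos_iff.2 hy
    have hep' : P (e - p) := hp.proj.sub he hep
    obtain ⟨d, m, hdP, hpd, -, -, hdc, hm, -, hn⟩ := cut hA y hep' (ε := ‖y‖ / 2) (by positivity)
    have hd0 : d ≠ 0 := by
      rintro rfl
      rw [sub_zero, hyd, mul_assoc, hep'.i, ← hyd] at hn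
      linarith
    have hpd0 : p * d = 0 := by
      rw [← hpd, ← mul_assoc, mul_sub, hpe, hp.proj.i, sub_self, zero_mul]
    have hed : e * d = d := by
      rw [sub_mul, hpd0, sub_zero] at hpd
      exact hpd
    have hyd' : y * d = x * d := by rw [hyd, mul_assoc, hpd]
    have hdy : d * star y = d * star x := by
      calc d * star y = star (y * d) := by rw [star_mul y d, hdP.s]
        _ = star (x * d) := by rw [hyd']
        _ = d * star x := by rw [star_mul, hdP.s]
    have hT := hdc _ rfl
    have hdp' : d * (e - p) = d := hdP.swap hep' hpd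
    have hyy : star y * y = (e - p) * (star x * x) * (e - p) := by
      rw [hyd, star_mul, hep'.s]; simp only [mul_assoc]
    have hxx : star x * x * (e - p) = (e - p) * (star x * x) := by
      have h1 : star x * x * e = star x * x := by rw [mul_assoc, hx2]
      have h2 : e * (star x * x) = star x * x := by
        have := congrArg star hx2
        rw [star_mul, he.s] at this
        rw [← mul_assoc, this]
      rw [mul_sub, sub_mul, hcomm, h1, h2]
    have hyy2 : star y * y = star x * x * (e - p) := by
      rw [hyy, ← hxx, mul_assoc, hep'.i]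
    have hT2 : (e - p) * (star y * y) * (e - p) = star x * x * (e - p) := by
      rw [hyy2, mul_assoc (e - p), mul_assoc (star x * x), hep'.i, ← mul_assoc (e - p), ← hxx,
        mul_assoc, hep'.i]
    have hdcomm : d * (star x * x) = star x * x * d := by
      rw [hT2] at hT
      have e1 : d * (star x * x * (e - p)) = d * (star x * x) := by
        rw [hxx, ← mul_assoc, hdp']
      have e2 : star x * x * (e - p) * d = star x * x * d := by rw [mul_assoc, hpd]
      rw [e1, e2] at hT
      exact hT
    have hm' : m * (d * (star x * x) * d) = d := by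
      have : d * (star x * x) * d = d * (star y * y) * d := by
        calc d * (star x * x) * d = (d * star x) * (x * d) := by simp only [mul_assoc]
          _ = (d * star y) * (y * d) := by rw [hyd', hdy]
          _ = _ := by simp only [mul_assoc]
      rw [this, hm]
    have horth : ∀ q ∈ S, q * d = 0 := by
      intro q hq
      have : q * p = q := (hS1 q hq).1.swap hp.proj (hp.le ⟨q, hq⟩)
      rw [← this, mul_assoc, hpd0, mul_zero]
    have hmem : S ∪ {d} ∈ {S : Set A | (∀ d ∈ S, P d ∧ e * d = d ∧ d ≠ 0 ∧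
        d * (star x * x) = star x * x * d ∧
        ∃ m, m * (d * (star x * x) * d) = d) ∧ (∀ p ∈ S, ∀ q ∈ S, p ≠ q → p * q = 0)} := by
      refine ⟨?_, ?_⟩
      · rintro q (hq | rfl)
        · exact hS1 q hq
        · exact ⟨hdP, hed, hd0, hdcomm, m, hm'⟩
      · rintro q (hq | rfl) r (hr | rfl) hne
        · exact hS2 q hq r hr hne
        · exact horth q hq
        · exact (hS1 r hr).1.orth hdP (horth r hr)
        · exact absurd rfl hne
    have heq := hS.eq_of_subset hmem Set.subset_union_left
    have hdS : d ∈ S := by rw [heq]; exact Or.inr rfl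
    have := horth d hdS
    rw [hdP.i] at this
    exact hd0 this
  -- polar parts
  have hpol : ∀ d : S, ∃ v c c', star v * v = (d : A) ∧ v = x * c ∧ x * (d : A) = v * c' ∧
      (d : A) * c = c := by
    intro d
    obtain ⟨m, hm⟩ := (hS1 _ d.2).2.2.2.2
    obtain ⟨v, c, c', g1, g2, g3, g4, -⟩ := polar (hd d) hm
    exact ⟨v, c, c', g1, g2, g3, g4⟩
  choose v c c' g1 g2 g3 g4 using hpol
  have hqP : ∀ d : S, P (v d * star (v d)) := fun d => (hd d).of_star (g1 d)
  have hvv : ∀ i j : S, i ≠ j → star (v i) * v j = 0 := by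
    intro i j hij
    rw [g2 i, g2 j, star_mul]
    have e1 : star (c i) * (i : A) = star (c i) := by
      have := congrArg star (g4 i)
      rwa [star_mul, (hd i).s] at this
    calc star (c i) * star x * (x * c j) = star (c i) * (i : A) * (star x * x) * ((j : A) * c j) := by
          rw [e1, g4 j]; simp only [mul_assoc]
      _ = star (c i) * (((i : A) * (star x * x)) * (j : A)) * c j := by simp only [mul_assoc]
      _ = 0 := by
          rw [(hS1 _ i.2).2.2.2.1, mul_assoc (star x * x), hdo i j hij, mul_zero, mul_zero,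
            zero_mul]
  have hqo : ∀ i j : S, i ≠ j → v i * star (v i) * (v j * star (v j)) = 0 := fun i j hij => by
    rw [mul_assoc, ← mul_assoc (star (v i)), hvv i j hij, zero_mul, mul_zero]
  obtain ⟨q, hq⟩ := exists_isSup hA (fun d : S => v d * star (v d)) hqP hqo
  have heq' : ∀ d : S, e * (v d * star (v d)) = v d * star (v d) := fun d => by
    rw [← mul_assoc]
    conv_lhs => rw [g2 d]
    rw [← mul_assoc e, hx1, ← g2 d]
  refine ⟨p, q, hp.proj, hq.proj, hep, hq.le_of heq', ?_, hxp, ?_, ?_, ?_⟩
  · exact Equ.sup hA he hPI hd (fun d => (hS1 _ d.2).2.1) heq' hdo hqo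
      (fun d => ⟨v d, g1 d, rfl⟩) hp hq
  · have h1 : (1 - q) * x * p = 0 := by
      apply hp.ann
      intro d
      have h2 : q * v d = v d := by
        have e1 := hq.le d
        have e2 := mul_of_star_mul (hd d) (g1 d)
        calc q * v d = q * (v d * (star (v d) * v d)) := by rw [g1 d, e2]
          _ = q * (v d * star (v d)) * v d := by simp only [mul_assoc]
          _ = v d := by rw [e1, mul_assoc, g1 d, e2]
      rw [mul_assoc, g3 d, ← mul_assoc, sub_mul, one_mul, h2, sub_self, zero_mul]
    rw [mul_assoc, hxp, sub_mul, one_mul, sub_eq_zero] at h1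
    exact h1.symm
  · intro y hy
    apply hp.ann' hd
    intro d
    obtain ⟨m, hm⟩ := (hS1 _ d.2).2.2.2.2
    calc (d : A) * y = m * ((d : A) * (star x * x) * (d : A)) * y := by rw [hm]
      _ = m * ((d : A) * ((d : A) * (star x * (x * y)))) := by
          rw [mul_assoc (d : A) (star x * x), ← (hS1 _ d.2).2.2.2.1]; simp only [mul_assoc]
      _ = 0 := by rw [hy, mul_zero, mul_zero, mul_zero, mul_zero]
  · intro y hy
    apply hq.ann
    intro d
    rw [g2 d, ← mul_assoc, ← mul_assoc, hy, zero_mul, zero_mul]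

/-- (I1) -/
theorem big_or_big (hA : IsAWStar A) (hF : IsFactor A) {e g1 g2 : A} (he : P e) (hPI : PI e)
    (h1 : P g1) (h2 : P g2) (h12 : g1 * g2 = 0) (hE : Equ e (g1 + g2)) : Sub e g1 ∨ Sub e g2 := by
  set f := g1 + g2 with hf
  have hfP : P f := h1.add h2 h12
  have h21 := h1.orth h2 h12
  have hfPI : PI f := hPI.equ he hE
  have hfg1 : f * g1 = g1 := by rw [hf, add_mul, h1.i, h21, add_zero]
  have hfg2 : f * g2 = g2 := by rw [hf, add_mul, h2.i, h12, zero_add]
  obtain ⟨a, b, ha, hb, hab, hfa, hfb⟩ := id hfPI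
  have hp : P (a * star a) := hfP.of_star ha
  have hq : P (b * star b) := hfP.of_star hb
  set p := a * star a with hpd
  set q := b * star b with hqd
  have hpq : p * q = 0 := by
    rw [hpd, hqd, mul_assoc, ← mul_assoc (star a), hab, zero_mul, mul_zero]
  have hqp := hp.orth hq hpq
  have hfp : f * p = p := by rw [hpd, ← mul_assoc, hfa]
  have hfq : f * q = q := by rw [hqd, ← mul_assoc, hfb]
  have hEp : Equ f p := ⟨a, ha, rfl⟩
  have hEq : Equ f q := ⟨b, hb, rfl⟩
  -- g1 + g2 = 1 on p and q
  have hsp : g1 * p + g2 * p = p := by rw [← add_mul, hfp]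
  have hsq : g1 * q + g2 * q = q := by rw [← add_mul, hfq]
  obtain ⟨q2, f2, a1, a2, a3, a4, a5, a6, a7, a8, a9⟩ := rplp hA hfP hfPI (x := g2 * q)
    (by rw [← mul_assoc, hfg2]) (by rw [mul_assoc, hq.swap hfP hfq])
  obtain ⟨p1, f1, b1, b2, b3, b4, b5, b6, b7, b8, b9⟩ := rplp hA hfP hfPI (x := g1 * p)
    (by rw [← mul_assoc, hfg1]) (by rw [mul_assoc, hp.swap hfP hfp])
  -- `q2 ≤ q`
  have hq2 : q2 * q = q2 := by
    have := a8 (f - q) (by rw [mul_assoc, mul_sub, hq.i, hq.swap hfP hfq, sub_self, mul_zero])
    rw [mul_sub, a1.swap hfP a3, sub_eq_zero] at this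
    exact this.symm
  have hp1 : p1 * p = p1 := by
    have := b8 (f - p) (by rw [mul_assoc, mul_sub, hp.i, hp.swap hfP hfp, sub_self, mul_zero])
    rw [mul_sub, b1.swap hfP b3, sub_eq_zero] at this
    exact this.symm
  have hq2' := a1.swap' hq hq2
  have hp1' := b1.swap' hp hp1
  have hq1P : P (q - q2) := a1.sub hq hq2'
  have hp2P : P (p - p1) := b1.sub hp hp1'
  set q1 := q - q2 with hq1d
  set p2 := p - p1 with hp2d
  have hqq1 : q * q1 = q1 := by rw [hq1d, mul_sub, hq.i, hq2']
  have hpp2 : p * p2 = p2 := by rw [hp2d, mul_sub, hp.i, hp1']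
  have hg2q1 : g2 * q1 = 0 := by
    have h3 : g2 * q * q1 = 0 := by
      rw [hq1d, mul_sub, a6, mul_assoc, hq.i, sub_self]
    rwa [mul_assoc, hqq1] at h3
  have hg1p2 : g1 * p2 = 0 := by
    have h3 : g1 * p * p2 = 0 := by
      rw [hp2d, mul_sub, b6, mul_assoc, hp.i, sub_self]
    rwa [mul_assoc, hpp2] at h3
  have hg1q1 : g1 * q1 = q1 := by
    have : f * q1 = q1 := by rw [← hqq1, ← mul_assoc, hfq]
    rwa [hf, add_mul, hg2q1, add_zero] at this
  have hg2p2 : g2 * p2 = p2 := by
    have : f * p2 = p2 := by rw [← hpp2, ← mul_assoc, hfp]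
    rwa [hf, add_mul, hg1p2, zero_add] at this
  have hg2f2 : g2 * f2 = f2 := by
    have := a9 (f - g2) (by rw [← mul_assoc, sub_mul, h2.i, hfg2, sub_self, zero_mul])
    rw [sub_mul, a4, sub_eq_zero] at this
    exact this.symm
  have hg1f1 : g1 * f1 = f1 := by
    have := b9 (f - g1) (by rw [← mul_assoc, sub_mul, h1.i, hfg1, sub_self, zero_mul])
    rw [sub_mul, b4, sub_eq_zero] at this
    exact this.symm
  have hq1f1 : q1 * f1 = 0 := by
    apply b9
    have : q1 * g1 = q1 := hq1P.swap h1 hg1q1
    rw [← mul_assoc, this]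
    have : q1 * q = q1 := hq1P.swap hq hqq1
    rw [← this, mul_assoc, hqp, mul_zero]
  have hp2f2 : p2 * f2 = 0 := by
    apply a9
    have : p2 * g2 = p2 := hp2P.swap h2 hg2p2
    rw [← mul_assoc, this]
    have : p2 * p = p2 := hp2P.swap hp hpp2
    rw [← this, mul_assoc, hpq, mul_zero]
  rcases compare hA hF hp2P hq1P with h | h
  · left
    have h3 : Sub (p1 + p2) (f1 + q1) :=
      Sub.add b2 (b5.sub b1) h (hq1P.orth b2 hq1f1) hq1f1
    have h4 : p1 + p2 = p := by rw [hp2d]; abel
    rw [h4] at h3
    have h5 : g1 * (f1 + q1) = f1 + q1 := by rw [mul_add, hg1f1, hg1q1]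
    exact ((hE.sub he).trans (hEp.sub hfP)).trans (h3.mono h5)
  · right
    have h3 : Sub (q2 + q1) (f2 + p2) :=
      Sub.add a2 (a5.sub a1) h (hp2P.orth a2 hp2f2) hp2f2
    have h4 : q2 + q1 = q := by rw [hq1d]; abel
    rw [h4] at h3
    have h5 : g2 * (f2 + p2) = f2 + p2 := by rw [mul_add, hg2f2, hg2p2]
    exact ((hE.sub he).trans (hEq.sub hfP)).trans (h3.mono h5)

/-- If `e` is properly infinite and equivalent to a finite orthogonal sum, one of the summands
is large. -/
theorem exists_big (hA : IsAWStar A) (hF : IsFactor A) {e : A} (he : P e) (hPI : PI e)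
    (he0 : e ≠ 0) {ι : Type*} (I : Finset ι) {d : ι → A} (h1 : ∀ i, P (d i))
    (h2 : ∀ i j, i ≠ j → d i * d j = 0) (hE : Sub e (∑ i ∈ I, d i)) : ∃ i ∈ I, Sub e (d i) := by
  classical
  induction I using Finset.induction_on with
  | empty =>
    exfalso
    rw [Finset.sum_empty] at hE
    obtain ⟨v, hv, hv'⟩ := hE
    rw [zero_mul] at hv'
    rw [← hv', mul_zero] at hv
    exact he0 hv.symm
  | insert i I hi ih =>
    by_cases hsub : Sub e (d i)
    · exact ⟨i, Finset.mem_insert_self i I, hsub⟩
    · have hsub' : Sub (d i) e := (compare hA hF he (h1 i)).resolve_left hsub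
      have hDP : P (∑ i ∈ I, d i) := sum_proj I h1 h2
      by_cases hsub2 : Sub e (∑ i ∈ I, d i)
      · obtain ⟨j, hj, h⟩ := ih hsub2
        exact ⟨j, Finset.mem_insert_of_mem hj, h⟩
      · exfalso
        have hsub2' : Sub (∑ i ∈ I, d i) e := (compare hA hF he hDP).resolve_left hsub2
        have horth : d i * ∑ j ∈ I, d j = 0 := by
          rw [Finset.mul_sum]
          apply Finset.sum_eq_zero
          intro j hj
          exact h2 i j (fun h => hi (by rw [h]; exact hj))
        have horth' := (h1 i).orth hDP horth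
        have hSP : P (d i + ∑ j ∈ I, d j) := (h1 i).add hDP horth
        rw [Finset.sum_insert hi] at hE
        -- upper bound
        have hup : Sub (d i + ∑ j ∈ I, d j) e := by
          obtain ⟨a, b, ha, hb, hab, hea, heb⟩ := hPI
          have hPa : P (a * star a) := he.of_star ha
          have hPb : P (b * star b) := he.of_star hb
          have hab' : a * star a * (b * star b) = 0 := by
            rw [mul_assoc, ← mul_assoc (star a), hab, zero_mul, mul_zero]
          have e1 : Sub e (a * star a) := Equ.sub he ⟨a, ha, rfl⟩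
          have e2 : Sub e (b * star b) := Equ.sub he ⟨b, hb, rfl⟩
          have e3 := Sub.add hPa (hsub'.trans e1) (hsub2'.trans e2) hab' (hPa.orth hPb hab')
          refine e3.mono ?_
          rw [mul_add, ← mul_assoc, ← mul_assoc, hea, heb]
        have hEq : Equ e (d i + ∑ j ∈ I, d j) := schroeder' hA he hSP hE hup
        rcases big_or_big hA hF he hPI (h1 i) hDP horth hEq with h | h
        · exact hsub h
        · exact hsub2 h

end Pool.Agent.H54.AW
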