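import Pool.Agent.H54.AW.Cut

set_option autoImplicit false
set_option linter.unusedSectionVars false

namespace Pool.Agent.H54.AW

variable {A : Type*} [CStarAlgebra A]

/-- `s` is the supremum of the projections `g i`. -/
structure IsSup {ι : Type*} (g : ι → A) (s : A) : Prop where
  proj : P s
  le : ∀ i, s * g i = g i
  ann : ∀ y, (∀ i, y * g i = 0) → y * s = 0

theorem exists_isSup (hA : IsAWStar A) {ι : Type*} (g : ι → A) (hg : ∀ i, P (g i))
    (hg' : ∀ i j, i ≠ j → g i * g j = 0) : ∃ s, IsSup g s := by
  obtain ⟨s, hs, hle, hmin⟩ := hA.exists_sup (Set.range g)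
    (by rintro _ ⟨i, rfl⟩; exact hg i)
    (by
      rintro _ ⟨i, rfl⟩ _ ⟨j, rfl⟩ hne
      exact hg' i j (fun h => hne (by rw [h])))
  refine ⟨s, hs, fun i => hle _ ⟨i, rfl⟩, ?_⟩
  intro y hy
  by_contra hne
  have hpos : 0 < ‖y * s‖ := norm_pos_iff.2 hne
  obtain ⟨d, m, hd, hsd, -, -, hcomm, hm, -, hn⟩ := cut hA y hs (ε := ‖y * s‖ / 2) (by positivity)
  have hds : d * s = d := hd.swap hs hsd
  have hcomm' := hcomm _ rfl
  have hdg : ∀ i, d * g i = 0 := by
    intro i
    have h1 : s * (star y * y) * s * g i = 0 := by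
      rw [mul_assoc, hle _ ⟨i, rfl⟩, mul_assoc, mul_assoc, hy i, mul_zero, mul_zero]
    calc d * g i = m * (d * (star y * y) * d) * g i := by rw [hm]
      _ = m * (d * (s * (star y * y) * s) * d) * g i := by
          simp only [mul_assoc, re hds, hsd]
      _ = m * (d * (d * (s * (star y * y) * s * g i))) := by
          rw [mul_assoc d (s * (star y * y) * s) d, ← hcomm']; simp only [mul_assoc]
      _ = 0 := by rw [h1, mul_zero, mul_zero, mul_zero]
  have hsd' : P (s - d) := hd.sub hs hsd
  have h2 : (s - d) * s = s := by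
    apply hmin _ hsd'
    rintro _ ⟨i, rfl⟩
    rw [sub_mul, hle _ ⟨i, rfl⟩, hdg, sub_zero]
  have h3 : d = 0 := by
    rw [sub_mul, P.i hs, hds] at h2
    have := sub_eq_self.1 h2
    exact this
  rw [h3, sub_zero] at hn
  linarith

namespace IsSup

variable {ι κ : Type*} {g : ι → A} {s : A}

theorem ann' (h : IsSup g s) (hg : ∀ i, P (g i)) {z : A} (hz : ∀ i, g i * z = 0) : s * z = 0 := by
  have h1 : star z * s = 0 := h.ann _ (fun i => by
    have := congrArg star (hz i)
    rwa [star_mul, (hg i).s, star_zero] at this)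
  have := congrArg star h1
  rwa [star_mul, star_star, h.proj.s, star_zero] at this

theorem le_of (h : IsSup g s) {q : A} (hq : ∀ i, q * g i = g i) : q * s = s := by
  have := h.ann (1 - q) (fun i => by rw [sub_mul, one_mul, hq, sub_self])
  rw [sub_mul, one_mul, sub_eq_zero] at this
  exact this.symm

theorem unique (h : IsSup g s) {t : A} (h' : IsSup g t) : s = t := by
  have h1 := h.le_of h'.le
  have h2 := h'.le_of h.le
  rw [← h1]
  exact h'.proj.swap h.proj h2

theorem comm (h : IsSup g s) (hg : ∀ i, P (g i)) {y : A} (hy : ∀ i, y * g i = g i * y) :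
    y * s = s * y := by
  have h1 : (1 - s) * y * s = 0 := by
    apply h.ann
    intro i
    rw [mul_assoc, hy, ← mul_assoc, sub_mul, one_mul, h.le, sub_self, zero_mul]
  have h2 : s * (y * (1 - s)) = 0 := by
    apply h.ann' hg
    intro i
    rw [← mul_assoc, ← hy, mul_assoc, mul_sub, mul_one]
    have : g i * s = g i := (hg i).swap h.proj (h.le i)
    rw [this, sub_self, mul_zero]
  rw [sub_mul, sub_mul, one_mul, sub_eq_zero] at h1
  rw [mul_sub, mul_one, mul_sub, sub_eq_zero] at h2
  rw [h1, mul_assoc]; exact h2.symm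

theorem reindex {κ : Type*} (h : IsSup g s) (f : κ → ι) (hf : Function.Surjective f) :
    IsSup (fun k => g (f k)) s :=
  ⟨h.proj, fun _ => h.le _, fun y hy => h.ann y (fun i => by
    obtain ⟨k, rfl⟩ := hf i; exact hy k)⟩

/-- transport along a partial isometry -/
theorem conj (h : IsSup g s) {v p : A} (hp : P p) (hv : star v * v = p)
    (hgp : ∀ i, p * g i = g i) (hg : ∀ i, P (g i)) :
    IsSup (fun i => v * g i * star v) (v * s * star v) := by
  have hps : p * s = s := h.le_of hgp
  have hvp := mul_of_star_mul hp hv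
  refine ⟨?_, ?_, ?_⟩
  · refine P.mk' ?_ ?_
    · calc v * s * star v * (v * s * star v) = v * (s * ((star v * v) * s)) * star v := by
            simp only [mul_assoc]
        _ = v * s * star v := by rw [hv, hps, h.proj.i]
    · rw [star_mul, star_mul, star_star, h.proj.s, mul_assoc]
  · intro i
    calc v * s * star v * (v * g i * star v) = v * (s * ((star v * v) * g i)) * star v := by
          simp only [mul_assoc]
      _ = v * g i * star v := by rw [hv, hgp, h.le]
  · intro y hy
    have : y * v * s = 0 := by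
      apply h.ann
      intro i
      calc y * v * g i = (y * (v * g i * star v)) * v := by
            have e : g i * p = g i := (hg i).swap hp (hgp i)
            simp only [mul_assoc, hv, e]
        _ = 0 := by rw [hy, zero_mul]
    rw [← mul_assoc, ← mul_assoc, this, zero_mul]

theorem sum_elim {g' : κ → A} {s' : A} (h : IsSup g s) (h' : IsSup g' s')
    (ho : s * s' = 0) : IsSup (Sum.elim g g') (s + s') := by
  have ho' : s' * s = 0 := h.proj.orth h'.proj ho
  refine ⟨h.proj.add h'.proj ho, ?_, ?_⟩
  · rintro (i | i)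
    · simp only [Sum.elim_inl]
      rw [add_mul, h.le, ← h.le i, ← mul_assoc, ho', zero_mul, add_zero]
    · simp only [Sum.elim_inr]
      rw [add_mul, h'.le, ← h'.le i, ← mul_assoc, ho, zero_mul, zero_add]
  · intro y hy
    rw [mul_add, h.ann y (fun i => hy (Sum.inl i)), h'.ann y (fun i => hy (Sum.inr i)), add_zero]

theorem orth_sup {g' : κ → A} {s' : A} (h : IsSup g s) (h' : IsSup g' s') (hg : ∀ i, P (g i))
    (ho : ∀ i j, g i * g' j = 0) : s * s' = 0 := by
  apply h'.ann
  intro j
  apply h.ann' hg
  intro i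
  exact ho i j

theorem sigma {κ : ι → Type*} {G : ∀ i, κ i → A} (h : IsSup g s)
    (h' : ∀ i, IsSup (G i) (g i)) : IsSup (fun x : Σ i, κ i => G x.1 x.2) s := by
  refine ⟨h.proj, ?_, ?_⟩
  · rintro ⟨i, k⟩
    change s * G i k = G i k
    rw [← (h' i).le k, ← mul_assoc, h.le]
  · intro y hy
    exact h.ann y (fun i => (h' i).ann y (fun k => hy ⟨i, k⟩))

end IsSup

/-- additivity of equivalence for mutually orthogonal families -/
theorem Equ.sup_orth (hA : IsAWStar A) {ι : Type*} {p q : ι → A} {s t : A} (hp : ∀ i, P (p i))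
    (hpp : ∀ i j, i ≠ j → p i * p j = 0) (hqq : ∀ i j, i ≠ j → q i * q j = 0)
    (hpq : ∀ i j, p i * q j = 0) (he : ∀ i, Equ (p i) (q i)) (hs : IsSup p s) (ht : IsSup q t) :
    Equ s t := by
  choose v hv1 hv2 using he
  have hq : ∀ i, P (q i) := fun i => by rw [← hv2]; exact (hp i).of_star (hv1 i)
  have hqp : ∀ i j, q i * p j = 0 := fun i j => (hp j).orth (hq i) (hpq j i)
  have vp : ∀ i, v i * p i = v i := fun i => mul_of_star_mul (hp i) (hv1 i)
  have qv : ∀ i, q i * v i = v i := fun i => by rw [← hv2, mul_assoc, hv1, vp]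
  have pv : ∀ i, p i * star (v i) = star (v i) := fun i => by
    have := congrArg star (vp i); rwa [star_mul, (hp i).s] at this
  have vq : ∀ i, star (v i) * q i = star (v i) := fun i => by
    have := congrArg star (qv i); rwa [star_mul, (hq i).s] at this
  have vp0 : ∀ i j, i ≠ j → v i * p j = 0 := fun i j hij => by
    rw [← vp i, mul_assoc, hpp i j hij, mul_zero]
  have vq0 : ∀ i j, v i * q j = 0 := fun i j => by
    rw [← vp i, mul_assoc, hpq, mul_zero]
  have vp0' : ∀ i j, star (v i) * p j = 0 := fun i j => by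
    rw [← vq i, mul_assoc, hqp, mul_zero]
  have vq0' : ∀ i j, i ≠ j → star (v i) * q j = 0 := fun i j hij => by
    rw [← vq i, mul_assoc, hqq i j hij, mul_zero]
  have pv0 : ∀ i j, p i * v j = 0 := fun i j => by rw [← qv j, ← mul_assoc, hpq, zero_mul]
  have qv0 : ∀ i j, i ≠ j → q i * v j = 0 := fun i j hij => by
    rw [← qv j, ← mul_assoc, hqq i j hij, zero_mul]
  have pv0' : ∀ i j, i ≠ j → p i * star (v j) = 0 := fun i j hij => by
    rw [← pv j, ← mul_assoc, hpp i j hij, zero_mul]
  have qv0' : ∀ i j, q i * star (v j) = 0 := fun i j => by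
    rw [← pv j, ← mul_assoc, hqp, zero_mul]
  have vv0 : ∀ i j, v i * v j = 0 := fun i j => by rw [← qv j, ← mul_assoc, vq0, zero_mul]
  have vv0' : ∀ i j, star (v i) * star (v j) = 0 := fun i j => by
    rw [← pv j, ← mul_assoc, vp0', zero_mul]
  have vsv0 : ∀ i j, i ≠ j → v i * star (v j) = 0 := fun i j hij => by
    rw [← pv j, ← mul_assoc, vp0 i j hij, zero_mul]
  have svv0 : ∀ i j, i ≠ j → star (v i) * v j = 0 := fun i j hij => by
    rw [← qv j, ← mul_assoc, vq0' i j hij, zero_mul]
  -- the reflection projections, multiplied by two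
  let R : ι → A := fun i => p i + v i + star (v i) + q i
  let r : ι → A := fun i => (1 / 2 : ℂ) • R i
  have hRR : ∀ i, R i * R i = (2 : ℂ) • R i := by
    intro i
    simp only [R, add_mul, mul_add, (hp i).i, (hq i).i, vp, qv, pv, vq, hpq, hqp, vq0, vp0', pv0,
      qv0', vv0, vv0', hv1, hv2, two_smul]
    abel
  have hRR0 : ∀ i j, i ≠ j → R i * R j = 0 := by
    intro i j hij
    simp only [R, add_mul, mul_add, hpp i j hij, hqq i j hij, hpq, hqp, vp0 i j hij, vq0, vp0',
      vq0' i j hij, pv0, qv0 i j hij, pv0' i j hij, qv0', vv0, vv0', vsv0 i j hij, svv0 i j hij,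
      add_zero]
  have hRs : ∀ i, star (R i) = R i := by
    intro i
    simp only [R, star_add, star_star, (hp i).s, (hq i).s]; abel
  have hr : ∀ i, P (r i) := by
    intro i
    refine P.mk' ?_ ?_
    · simp only [r, smul_mul_smul_comm, hRR, smul_smul]; norm_num
    · simp only [r, star_smul, hRs]
      congr 1
      simp
  have hrr : ∀ i j, i ≠ j → r i * r j = 0 := by
    intro i j hij
    simp only [r, smul_mul_smul_comm, hRR0 i j hij, smul_zero]
  obtain ⟨u, hu⟩ := exists_isSup hA r hr hrr
  have hst : s * t = 0 := hs.orth_sup ht hp hpq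
  have hts : t * s = 0 := hs.proj.orth ht.proj hst
  have hg : P (s + t) := hs.proj.add ht.proj hst
  have hgp : ∀ i, (s + t) * p i = p i := fun i => by
    rw [add_mul, hs.le, ← hs.le i, ← mul_assoc, hts, zero_mul, add_zero]
  have hgq : ∀ i, (s + t) * q i = q i := fun i => by
    rw [add_mul, ht.le, ← ht.le i, ← mul_assoc, hst, zero_mul, zero_add]
  have hgr : ∀ i, (s + t) * r i = r i := fun i => by
    have h1 : (s + t) * v i = v i := by rw [← qv, ← mul_assoc, hgq]
    have h2 : (s + t) * star (v i) = star (v i) := by rw [← pv, ← mul_assoc, hgp]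
    simp only [r, R, mul_smul_comm, mul_add, hgp, hgq, h1, h2]
  have hgu : (s + t) * u = u := hu.le_of hgr
  have hug : u * (s + t) = u := hu.proj.swap hg hgu
  -- the symmetry
  have key : ∀ i, ∀ z, (∀ j, j ≠ i → r j * z = 0) → u * z = r i * z := by
    intro i z hz
    have h1 : u * (z - r i * z) = 0 := by
      apply hu.ann' hr
      intro j
      by_cases hj : j = i
      · subst hj
        rw [mul_sub, ← mul_assoc, (hr j).i, sub_self]
      · rw [mul_sub, hz j hj, ← mul_assoc, hrr j i hj, zero_mul, sub_zero]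
    rw [mul_sub, ← mul_assoc, hu.le, sub_eq_zero] at h1
    exact h1
  have hup : ∀ i, (2 : ℂ) • (u * p i) = p i + v i := by
    intro i
    rw [key i (p i)]
    · simp only [r, R, smul_mul_assoc, add_mul, (hp i).i, vp, vp0', hqp, smul_smul, add_zero]
      norm_num
    · intro j hj
      simp only [r, R, smul_mul_assoc, add_mul, hpp j i hj, vp0 j i hj, vp0', hqp, add_zero,
        smul_zero]
  have huq : ∀ i, (2 : ℂ) • (u * q i) = q i + star (v i) := by
    intro i
    rw [key i (q i)]
    · simp only [r, R, smul_mul_assoc, add_mul, (hq i).i, vq, vq0, hpq, smul_smul, zero_add]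
      norm_num
      abel
    · intro j hj
      simp only [r, R, smul_mul_assoc, add_mul, hqq j i hj, vq0, vq0' j i hj, hpq, add_zero,
        smul_zero]
  set w : A := (2 : ℂ) • u - (s + t) with hw
  have hwp : ∀ i, w * p i = v i := by
    intro i
    rw [hw, sub_mul, smul_mul_assoc, hup, hgp]; abel
  have hwq : ∀ i, w * q i = star (v i) := by
    intro i
    rw [hw, sub_mul, smul_mul_assoc, huq, hgq]; abel
  have hws : star w = w := by
    rw [hw, star_sub, star_smul, hu.proj.s, hg.s]; simp
  have hww : w * w = s + t := by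
    rw [hw, sub_mul, mul_sub, mul_sub, smul_mul_smul_comm, hu.proj.i, mul_smul_comm,
      smul_mul_assoc, hgu, hug, hg.i]
    have : ((2 : ℂ) * 2) • u = (2 : ℂ) • u + (2 : ℂ) • u := by rw [← add_smul]; norm_num
    rw [this]; abel
  have hts' : (s + t) * s = s := by rw [add_mul, hs.proj.i, hts, add_zero]
  refine ⟨w * s, ?_, ?_⟩
  · rw [star_mul, hs.proj.s, hws]
    calc s * w * (w * s) = s * ((w * w) * s) := by simp only [mul_assoc]
      _ = s := by rw [hww, hts', hs.proj.i]
  · rw [star_mul, hs.proj.s, hws]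
    -- `w s w` is a projection
    have hq' : P (w * s * (s * w)) := by
      have h1 : star (w * s) * (w * s) = s := by
        rw [star_mul, hs.proj.s, hws]
        calc s * w * (w * s) = s * ((w * w) * s) := by simp only [mul_assoc]
          _ = s := by rw [hww, hts', hs.proj.i]
      have := hs.proj.of_star h1
      rwa [star_mul, hs.proj.s, hws] at this
    have e1 : t * (w * s * (s * w)) = w * s * (s * w) := by
      have h1 : t * (w * s) = w * s := by
        have : (1 - t) * w * s = 0 := by
          apply hs.ann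
          intro i
          have h2 : t * v i = v i := by rw [← qv, ← mul_assoc, ht.le]
          rw [mul_assoc, hwp, sub_mul, one_mul, h2, sub_self]
        rw [sub_mul, sub_mul, one_mul, sub_eq_zero] at this
        rw [← mul_assoc]; exact this.symm
      rw [← mul_assoc, h1]
    have e2 : (w * s * (s * w)) * t = t := by
      apply ht.le_of
      intro i
      have h1 : s * star (v i) = star (v i) := by rw [← pv, ← mul_assoc, hs.le]
      calc w * s * (s * w) * q i = w * (s * (s * (w * q i))) := by simp only [mul_assoc]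
        _ = w * (p i * star (v i)) := by rw [hwq, h1, h1, pv]
        _ = (w * p i) * star (v i) := by rw [mul_assoc]
        _ = q i := by rw [hwp, hv2]
    have e3 := ht.proj.swap hq' e2
    rw [← e1, e3]

end Pool.Agent.H54.AW
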